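import Mathlib

set_option autoImplicit false

namespace Pool.Agent.Helper778.Real

open Polynomial Matrix

/-- A monic real quadratic. -/
noncomputable def quad (r : ℝ × ℝ) : ℝ[X] := X ^ 2 + C r.1 * X + C r.2

/-- A monic real linear polynomial. -/
noncomputable def lin (c : ℝ) : ℝ[X] := X + C c

theorem quad_monic (r : ℝ × ℝ) : (quad r).Monic := by
  unfold quad; monicity!

theorem quad_natDegree (r : ℝ × ℝ) : (quad r).natDegree = 2 := by
  unfold quad; compute_degree!

theorem lin_monic (c : ℝ) : (lin c).Monic := monic_X_add_C c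

theorem lin_natDegree (c : ℝ) : (lin c).natDegree = 1 := natDegree_X_add_C c

theorem quads_monic (A : List (ℝ × ℝ)) : (A.map quad).prod.Monic := by
  induction A with
  | nil => simp
  | cons r A ih => simpa using (quad_monic r).mul ih

theorem quads_natDegree (A : List (ℝ × ℝ)) : (A.map quad).prod.natDegree = 2 * A.length := by
  induction A with
  | nil => simp
  | cons r A ih =>
    rw [List.map_cons, List.prod_cons, (quad_monic r).natDegree_mul (quads_monic A), ih,
      quad_natDegree, List.length_cons]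
    ring

theorem lins_monic (A : List ℝ) : (A.map lin).prod.Monic := by
  induction A with
  | nil => simp
  | cons r A ih => simpa using (lin_monic r).mul ih

theorem lins_natDegree (A : List ℝ) : (A.map lin).prod.natDegree = A.length := by
  induction A with
  | nil => simp
  | cons r A ih =>
    rw [List.map_cons, List.prod_cons, (lin_monic r).natDegree_mul (lins_monic A), ih,
      lin_natDegree, List.length_cons]
    ring

/-- Sorting the roots of a real polynomial by the sign of their real parts. -/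
theorem decomposition (n : ℕ) : ∀ p : ℝ[X], p.Monic → p.natDegree = n →
    ∃ (A B : List (ℝ × ℝ)) (U V : List ℝ) (m : ℕ),
      (∀ r ∈ A, 0 ≤ r.1 ∧ 0 < r.2) ∧ (∀ r ∈ B, r.1 ≤ 0 ∧ 0 < r.2) ∧
      (∀ c ∈ U, 0 < c) ∧ (∀ c ∈ V, c < 0) ∧ U.length ≤ 1 ∧ V.length ≤ 1 ∧
      p = (A.map quad).prod * (B.map quad).prod * (U.map lin).prod * (V.map lin).prod * X ^ m := by
  induction n using Nat.strong_induction_on with
  | _ n ih =>
    intro p hp hn
    rcases Nat.eq_zero_or_pos n with h0 | hpos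
    · refine ⟨[], [], [], [], 0, by simp, by simp, by simp, by simp, by simp, by simp, ?_⟩
      have : p = 1 := by
        rw [h0] at hn
        exact hp.natDegree_eq_zero.1 hn
      simp [this]
    · obtain ⟨q, hqm, hqi, p', hp'⟩ := exists_monic_irreducible_factor p
        (not_isUnit_of_natDegree_pos p (by omega))
      have hp'm : p'.Monic := hqm.of_mul_monic_left (hp' ▸ hp)
      have hdeg : q.natDegree + p'.natDegree = n := by
        rw [← hqm.natDegree_mul hp'm, ← hp', hn]
      have hq2 := hqi.natDegree_le_two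
      have hq0 := hqi.natDegree_pos
      obtain ⟨A, B, U, V, m, hA, hB, hU, hV, hU1, hV1, hpe⟩ :=
        ih p'.natDegree (by omega) p' hp'm rfl
      have hq12 : q.natDegree = 1 ∨ q.natDegree = 2 := by omega
      rcases hq12 with hq1 | hq2'
      · -- linear factor
        obtain ⟨c, hc⟩ : ∃ c, q = lin c := ⟨q.coeff 0, hqm.eq_X_add_C hq1⟩
        rcases lt_trichotomy c 0 with hc0 | hc0 | hc0
        · -- negative
          match V, hV, hV1, hpe with
          | [], hV, hV1, hpe =>
            refine ⟨A, B, U, [c], m, hA, hB, hU, by simpa using hc0, hU1, by simp, ?_⟩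
            rw [hp', hpe, hc]; simp; ring
          | [d], hV, hV1, hpe =>
            have hd : d < 0 := hV d (by simp)
            refine ⟨A, (c + d, c * d) :: B, U, [], m, hA, ?_, hU, by simp, hU1, by simp, ?_⟩
            · intro r hr
              rcases List.mem_cons.1 hr with rfl | hr
              · exact ⟨by simpa using by linarith, by simpa using mul_pos_of_neg_of_neg hc0 hd⟩
              · exact hB r hr
            · rw [hp', hpe, hc]; simp [quad, lin]; ring
        · refine ⟨A, B, U, V, m + 1, hA, hB, hU, hV, hU1, hV1, ?_⟩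
          rw [hp', hpe, hc, hc0]; simp [lin]; ring
        · match U, hU, hU1, hpe with
          | [], hU, hU1, hpe =>
            refine ⟨A, B, [c], V, m, hA, hB, by simpa using hc0, hV, by simp, hV1, ?_⟩
            rw [hp', hpe, hc]; simp; ring
          | [d], hU, hU1, hpe =>
            have hd : 0 < d := hU d (by simp)
            refine ⟨(c + d, c * d) :: A, B, [], V, m, ?_, hB, by simp, hV, by simp, hV1, ?_⟩
            · intro r hr
              rcases List.mem_cons.1 hr with rfl | hr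
              · exact ⟨by simpa using by linarith, by simpa using mul_pos hc0 hd⟩
              · exact hA r hr
            · rw [hp', hpe, hc]; simp [quad, lin]; ring
      · -- irreducible quadratic factor
        obtain ⟨al, be, hq⟩ : ∃ al be, q = quad (al, be) := by
          refine ⟨q.coeff 1, q.coeff 0, ?_⟩
          have h2 : q.coeff 2 = 1 := by rw [← hq2']; exact hqm.coeff_natDegree
          have := eq_quadratic_of_degree_le_two (p := q) hqi.degree_le_two
          rw [h2] at this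
          simpa [quad] using this
        have hbe : 0 < be := by
          by_contra hle
          push Not at hle
          have hdisc : 0 ≤ al ^ 2 - 4 * be := by nlinarith [sq_nonneg al]
          have hroot : IsRoot q ((-al + Real.sqrt (al ^ 2 - 4 * be)) / 2) := by
            rw [hq, IsRoot, quad]
            simp only [eval_add, eval_pow, eval_X, eval_mul, eval_C]
            have := Real.sq_sqrt hdisc
            nlinarith
          have := degree_eq_one_of_irreducible_of_root hqi hroot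
          rw [degree_eq_natDegree hqi.ne_zero, hq2'] at this
          norm_num at this
        rcases le_total 0 al with ha | ha
        · refine ⟨(al, be) :: A, B, U, V, m, ?_, hB, hU, hV, hU1, hV1, ?_⟩
          · intro r hr
            rcases List.mem_cons.1 hr with rfl | hr
            · exact ⟨ha, hbe⟩
            · exact hA r hr
          · rw [hp', hpe, hq]; simp; ring
        · refine ⟨A, (al, be) :: B, U, V, m, hA, ?_, hU, hV, hU1, hV1, ?_⟩
          · intro r hr
            rcases List.mem_cons.1 hr with rfl | hr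
            · exact ⟨ha, hbe⟩
            · exact hB r hr
          · rw [hp', hpe, hq]; simp; ring

/-- The pattern of the block of order six, with eleven nonzero entries. -/
def Z6 : Matrix (Fin 6) (Fin 6) Bool :=
  !![true, false, false, true, false, false;
     false, false, false, false, false, true;
     true, false, false, false, true, false;
     false, true, true, false, false, false;
     false, false, true, false, true, false;
     true, false, true, false, false, false]

/-- The matrices used for the block of order six. -/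
def M6 (a b u z w t : ℝ) : Matrix (Fin 6) (Fin 6) ℝ :=
  !![a, 0, 0, 1, 0, 0;
     0, 0, 0, 0, 0, 1;
     1, 0, 0, 0, 1, 0;
     0, 1, z, 0, 0, 0;
     0, 0, u, 0, b, 0;
     w, 0, t, 0, 0, 0]

theorem M6_pattern (a b u z w t : ℝ) (ha : a ≠ 0) (hb : b ≠ 0) (hu : u ≠ 0) (hz : z ≠ 0)
    (hw : w ≠ 0) (ht : t ≠ 0) : ∀ i j, (M6 a b u z w t i j ≠ 0 ↔ Z6 i j = true) := by
  intro i j
  fin_cases i <;> fin_cases j <;> simp [M6, Z6, ha, hb, hu, hz, hw, ht]

theorem det_four {R : Type} [CommRing R] (A : Matrix (Fin 4) (Fin 4) R) :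
    A.det = A 0 0 * (A 1 1 * (A 2 2 * A 3 3 - A 2 3 * A 3 2) - A 1 2 * (A 2 1 * A 3 3 - A 2 3 * A 3 1)
        + A 1 3 * (A 2 1 * A 3 2 - A 2 2 * A 3 1))
      - A 0 1 * (A 1 0 * (A 2 2 * A 3 3 - A 2 3 * A 3 2) - A 1 2 * (A 2 0 * A 3 3 - A 2 3 * A 3 0)
        + A 1 3 * (A 2 0 * A 3 2 - A 2 2 * A 3 0))
      + A 0 2 * (A 1 0 * (A 2 1 * A 3 3 - A 2 3 * A 3 1) - A 1 1 * (A 2 0 * A 3 3 - A 2 3 * A 3 0)
        + A 1 3 * (A 2 0 * A 3 1 - A 2 1 * A 3 0))
      - A 0 3 * (A 1 0 * (A 2 1 * A 3 2 - A 2 2 * A 3 1) - A 1 1 * (A 2 0 * A 3 2 - A 2 2 * A 3 0)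
        + A 1 2 * (A 2 0 * A 3 1 - A 2 1 * A 3 0)) := by
  rw [det_succ_row_zero]
  simp [Fin.sum_univ_succ, det_fin_three, Fin.succAbove]
  ring

theorem det_five {R : Type} [CommRing R] (A : Matrix (Fin 5) (Fin 5) R) :
    A.det = A 0 0 * (A.submatrix Fin.succ ![1, 2, 3, 4]).det
      - A 0 1 * (A.submatrix Fin.succ ![0, 2, 3, 4]).det
      + A 0 2 * (A.submatrix Fin.succ ![0, 1, 3, 4]).det
      - A 0 3 * (A.submatrix Fin.succ ![0, 1, 2, 4]).det
      + A 0 4 * (A.submatrix Fin.succ ![0, 1, 2, 3]).det := by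
  have e0 : (Fin.succAbove (0 : Fin 5)) = ![1, 2, 3, 4] := by decide
  have e1 : (Fin.succAbove (1 : Fin 5)) = ![0, 2, 3, 4] := by decide
  have e2 : (Fin.succAbove (2 : Fin 5)) = ![0, 1, 3, 4] := by decide
  have e3 : (Fin.succAbove (3 : Fin 5)) = ![0, 1, 2, 4] := by decide
  have e4 : (Fin.succAbove (4 : Fin 5)) = ![0, 1, 2, 3] := by decide
  rw [det_succ_row_zero, Fin.sum_univ_five, e0, e1, e2, e3, e4]
  simp
  ring

theorem det_six {R : Type} [CommRing R] (A : Matrix (Fin 6) (Fin 6) R) :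
    A.det = A 0 0 * (A.submatrix Fin.succ ![1, 2, 3, 4, 5]).det
      - A 0 1 * (A.submatrix Fin.succ ![0, 2, 3, 4, 5]).det
      + A 0 2 * (A.submatrix Fin.succ ![0, 1, 3, 4, 5]).det
      - A 0 3 * (A.submatrix Fin.succ ![0, 1, 2, 4, 5]).det
      + A 0 4 * (A.submatrix Fin.succ ![0, 1, 2, 3, 5]).det
      - A 0 5 * (A.submatrix Fin.succ ![0, 1, 2, 3, 4]).det := by
  have e0 : (Fin.succAbove (0 : Fin 6)) = ![1, 2, 3, 4, 5] := by decide
  have e1 : (Fin.succAbove (1 : Fin 6)) = ![0, 2, 3, 4, 5] := by decide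
  have e2 : (Fin.succAbove (2 : Fin 6)) = ![0, 1, 3, 4, 5] := by decide
  have e3 : (Fin.succAbove (3 : Fin 6)) = ![0, 1, 2, 4, 5] := by decide
  have e4 : (Fin.succAbove (4 : Fin 6)) = ![0, 1, 2, 3, 5] := by decide
  have e5 : (Fin.succAbove (5 : Fin 6)) = ![0, 1, 2, 3, 4] := by decide
  rw [det_succ_row_zero, Fin.sum_univ_six, e0, e1, e2, e3, e4, e5]
  simp
  ring

theorem M6_det {R : Type} [CommRing R] (x a b u z w t : R) :
    (!![x - a, 0, 0, -1, 0, 0;
         0, x, 0, 0, 0, -1;
         -1, 0, x, 0, -1, 0;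
         0, -1, -z, x, 0, 0;
         0, 0, -u, 0, x - b, 0;
         -w, 0, -t, 0, 0, x] : Matrix (Fin 6) (Fin 6) R).det = x ^ 6 + -(a + b) * x ^ 5 + (a * b - u) * x ^ 4
      + (a * u - z) * x ^ 3 + (b * z - w) * x ^ 2 + (b * w - t) * x
      + (u * w + b * t) := by
  rw [det_six]
  simp [det_five, det_four]
  ring

theorem M6_charpoly (a b u z w t : ℝ) :
    (M6 a b u z w t).charpoly = X ^ 6 + C (-(a + b)) * X ^ 5 + C (a * b - u) * X ^ 4
      + C (a * u - z) * X ^ 3 + C (b * z - w) * X ^ 2 + C (b * w - t) * X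
      + C (u * w + b * t) := by
  have h : charmatrix (M6 a b u z w t) =
      !![X - C a, 0, 0, -1, 0, 0;
         0, X, 0, 0, 0, -1;
         -1, 0, X, 0, -1, 0;
         0, -1, -C z, X, 0, 0;
         0, 0, -C u, 0, X - C b, 0;
         -C w, 0, -C t, 0, 0, X] := by
    ext i j
    fin_cases i <;> fin_cases j <;> simp [M6]
  rw [Matrix.charpoly, h, M6_det]
  simp only [map_add, map_sub, map_mul, map_neg]

/-- Solving the coefficient equations of the block for a polynomial whose coefficients satisfy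
the inequalities of a polynomial with all its roots in the closed left half plane minus zero. -/
theorem solve (f1 f2 f3 f4 f5 f6 : ℝ) (h1 : 0 ≤ f1) (h2 : 0 < f2) (h3 : 0 ≤ f3) (h4 : 0 < f4)
    (h5 : 0 ≤ f5) (h6 : 0 < f6) (h13 : f3 ≤ f1 * f2) (h26 : f6 < f2 * f4) :
    ∃ a b u z w t : ℝ, a ≠ 0 ∧ b ≠ 0 ∧ u ≠ 0 ∧ z ≠ 0 ∧ w ≠ 0 ∧ t ≠ 0 ∧
      -(a + b) = f1 ∧ a * b - u = f2 ∧ a * u - z = f3 ∧ b * z - w = f4 ∧ b * w - t = f5 ∧
      u * w + b * t = f6 := by
  let W : ℝ → ℝ := fun b => b * ((b + f1) * (b ^ 2 + f1 * b + f2) - f3) - f4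
  let Q : ℝ → ℝ := fun b => W b * (f1 * b + f2) + f5 * b + f6
  have hQc : ContinuousOn Q (Set.Icc 0 (1 + f4)) := by
    apply Continuous.continuousOn
    simp only [Q, W]
    fun_prop
  have hzpos : ∀ b : ℝ, 0 ≤ b → b ^ 3 ≤ (b + f1) * (b ^ 2 + f1 * b + f2) - f3 := by
    intro b hb
    have e1 : 0 ≤ f1 * b ^ 2 := by positivity
    have e2 : 0 ≤ f1 ^ 2 * b := by positivity
    have e3 : 0 ≤ f2 * b := by positivity
    nlinarith
  have hQ0 : Q 0 < 0 := by
    simp only [Q, W]
    nlinarith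
  have hQ1 : 0 < Q (1 + f4) := by
    have hb : (0 : ℝ) ≤ 1 + f4 := by linarith
    have hz := hzpos (1 + f4) hb
    have hW : 0 ≤ W (1 + f4) := by
      simp only [W]
      have e1 : (1 + f4) * (1 + f4) ^ 3 ≤ (1 + f4) * ((1 + f4 + f1) *
          ((1 + f4) ^ 2 + f1 * (1 + f4) + f2) - f3) := mul_le_mul_of_nonneg_left hz hb
      have e2 : 1 + f4 ≤ (1 + f4) * (1 + f4) ^ 3 := by
        have : (1 : ℝ) ≤ (1 + f4) ^ 3 := one_le_pow₀ (by linarith)
        nlinarith
      linarith
    have e3 : 0 ≤ W (1 + f4) * (f1 * (1 + f4) + f2) := mul_nonneg hW (by positivity)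
    have e4 : 0 ≤ f5 * (1 + f4) := by positivity
    simp only [Q]
    linarith
  obtain ⟨b, hb, hQb⟩ := intermediate_value_Icc (by linarith : (0 : ℝ) ≤ 1 + f4) hQc
    (show (0 : ℝ) ∈ Set.Icc (Q 0) (Q (1 + f4)) from ⟨hQ0.le, hQ1.le⟩)
  have hb0 : 0 < b := by
    rcases hb.1.lt_or_eq with h | h
    · exact h
    · rw [← h] at hQb
      exact absurd hQb hQ0.ne
  have hz := hzpos b hb0.le
  have hz0 : 0 < (b + f1) * (b ^ 2 + f1 * b + f2) - f3 := lt_of_lt_of_le (by positivity) hz
  have hfb : 0 < f1 * b + f2 := by positivity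
  have hWb : W b < 0 := by
    have e1 : W b * (f1 * b + f2) = -(f5 * b + f6) := by
      simp only [Q] at hQb
      linarith
    have e2 : W b * (f1 * b + f2) < 0 := by
      rw [e1]
      have : 0 ≤ f5 * b := by positivity
      linarith
    by_contra hcon
    push Not at hcon
    exact absurd e2 (not_lt.2 (mul_nonneg hcon hfb.le))
  refine ⟨-(b + f1), b, -(b ^ 2 + f1 * b + f2), (b + f1) * (b ^ 2 + f1 * b + f2) - f3, W b,
    b * W b - f5, ?_, hb0.ne', ?_, hz0.ne', hWb.ne, ?_, ?_, ?_, ?_, ?_, ?_, ?_⟩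
  · exact (neg_neg_of_pos (by positivity)).ne
  · exact (neg_neg_of_pos (by positivity)).ne
  · have : b * W b < 0 := mul_neg_of_pos_of_neg hb0 hWb
    linarith
  · ring
  · ring
  · ring
  · simp only [W]; ring
  · ring
  · simp only [Q] at hQb
    linear_combination -hQb

/-- The quadratics whose roots lie in the closed left half plane and are nonzero. -/
def Left (r : ℝ × ℝ) : Prop := 0 ≤ r.1 ∧ 0 < r.2

/-- The quadratics whose roots lie in the closed right half plane and are nonzero. -/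
def Right (r : ℝ × ℝ) : Prop := r.1 ≤ 0 ∧ 0 < r.2

theorem solve_left (r s q : ℝ × ℝ) (hr : Left r) (hs : Left s) (hq : Left q) :
    ∃ a b u z w t : ℝ, a ≠ 0 ∧ b ≠ 0 ∧ u ≠ 0 ∧ z ≠ 0 ∧ w ≠ 0 ∧ t ≠ 0 ∧
      -(a + b) = r.1 + s.1 + q.1 ∧
      a * b - u = r.2 + s.2 + q.2 + r.1 * s.1 + r.1 * q.1 + s.1 * q.1 ∧
      a * u - z = r.1 * s.1 * q.1 + r.1 * (s.2 + q.2) + s.1 * (r.2 + q.2) + q.1 * (r.2 + s.2) ∧
      b * z - w = r.2 * s.2 + r.2 * q.2 + s.2 * q.2 + r.1 * s.1 * q.2 + r.1 * q.1 * s.2
        + s.1 * q.1 * r.2 ∧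
      b * w - t = r.1 * s.2 * q.2 + s.1 * r.2 * q.2 + q.1 * r.2 * s.2 ∧
      u * w + b * t = r.2 * s.2 * q.2 := by
  obtain ⟨r1, r2⟩ := r
  obtain ⟨s1, s2⟩ := s
  obtain ⟨q1, q2⟩ := q
  obtain ⟨hr1, hr2⟩ := hr
  obtain ⟨hs1, hs2⟩ := hs
  obtain ⟨hq1, hq2⟩ := hq
  simp only at *
  apply solve
  · positivity
  · positivity
  · positivity
  · positivity
  · positivity
  · positivity
  · rw [← sub_nonneg]
    ring_nf
    positivity
  · rw [← sub_pos]
    ring_nf
    positivity

theorem block_left (r s q : ℝ × ℝ) (hr : Left r) (hs : Left s) (hq : Left q) :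
    ∃ M : Matrix (Fin 6) (Fin 6) ℝ, (∀ i j, (M i j ≠ 0 ↔ Z6 i j = true)) ∧
      M.charpoly = quad r * quad s * quad q := by
  obtain ⟨a, b, u, z, w, t, ha, hb, hu, hz, hw, ht, e1, e2, e3, e4, e5, e6⟩ :=
    solve_left r s q hr hs hq
  refine ⟨M6 a b u z w t, M6_pattern a b u z w t ha hb hu hz hw ht, ?_⟩
  rw [M6_charpoly, e1, e2, e3, e4, e5, e6, quad, quad, quad]
  simp only [map_add, map_mul]
  ring

theorem block_right (r s q : ℝ × ℝ) (hr : Right r) (hs : Right s) (hq : Right q) :
    ∃ M : Matrix (Fin 6) (Fin 6) ℝ, (∀ i j, (M i j ≠ 0 ↔ Z6 i j = true)) ∧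
      M.charpoly = quad r * quad s * quad q := by
  obtain ⟨a, b, u, z, w, t, ha, hb, hu, hz, hw, ht, e1, e2, e3, e4, e5, e6⟩ :=
    solve_left (-r.1, r.2) (-s.1, s.2) (-q.1, q.2) ⟨by simpa using hr.1, hr.2⟩
      ⟨by simpa using hs.1, hs.2⟩ ⟨by simpa using hq.1, hq.2⟩
  refine ⟨M6 (-a) (-b) u (-z) w (-t), M6_pattern _ _ _ _ _ _ (neg_ne_zero.2 ha)
    (neg_ne_zero.2 hb) hu (neg_ne_zero.2 hz) hw (neg_ne_zero.2 ht), ?_⟩
  simp only at e1 e2 e3 e4 e5 e6
  have g1 : -(-a + -b) = r.1 + s.1 + q.1 := by linear_combination -e1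
  have g2 : -a * -b - u = r.2 + s.2 + q.2 + r.1 * s.1 + r.1 * q.1 + s.1 * q.1 := by
    linear_combination e2
  have g3 : -a * u - -z = r.1 * s.1 * q.1 + r.1 * (s.2 + q.2) + s.1 * (r.2 + q.2)
      + q.1 * (r.2 + s.2) := by linear_combination -e3
  have g4 : -b * -z - w = r.2 * s.2 + r.2 * q.2 + s.2 * q.2 + r.1 * s.1 * q.2 + r.1 * q.1 * s.2
        + s.1 * q.1 * r.2 := by linear_combination e4
  have g5 : -b * w - -t = r.1 * s.2 * q.2 + s.1 * r.2 * q.2 + q.1 * r.2 * s.2 := by
    linear_combination -e5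
  have g6 : u * w + -b * -t = r.2 * s.2 * q.2 := by linear_combination e6
  rw [M6_charpoly, g1, g2, g3, g4, g5, g6, quad, quad, quad]
  simp only [map_add, map_mul]
  ring

theorem block_zero :
    ∃ M : Matrix (Fin 6) (Fin 6) ℝ, (∀ i j, (M i j ≠ 0 ↔ Z6 i j = true)) ∧
      M.charpoly = X ^ 6 := by
  refine ⟨M6 (-1) 1 (-1) 1 1 1, M6_pattern _ _ _ _ _ _ (by norm_num) (by norm_num) (by norm_num)
    (by norm_num) (by norm_num) (by norm_num), ?_⟩
  rw [M6_charpoly]
  norm_num

/-- A full two by two matrix realizes every monic real quadratic. -/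
theorem full_two (f : ℝ[X]) (hf : IsMonicOfDegree f 2) :
    ∃ M : Matrix (Fin 2) (Fin 2) ℝ, (∀ i j, M i j ≠ 0) ∧ M.charpoly = f := by
  obtain ⟨al, be, hq⟩ : ∃ al be, f = quad (al, be) := by
    refine ⟨f.coeff 1, f.coeff 0, ?_⟩
    have h2 : f.coeff 2 = 1 := by
      have := hf.monic.coeff_natDegree
      rwa [hf.natDegree_eq] at this
    have := eq_quadratic_of_degree_le_two (p := f)
      (natDegree_le_iff_degree_le.1 hf.natDegree_eq.le)
    rw [h2] at this
    simpa [quad] using this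
  obtain ⟨t, ht⟩ := Infinite.exists_notMem_finset ({0, -al} ∪ f.roots.toFinset : Finset ℝ)
  simp only [Finset.mem_union, Finset.mem_insert, Finset.mem_singleton, Multiset.mem_toFinset,
    mem_roots hf.monic.ne_zero, not_or] at ht
  obtain ⟨⟨h0, hal⟩, hroot⟩ := ht
  have hne : t ^ 2 + al * t + be ≠ 0 := by
    intro h
    apply hroot
    rw [IsRoot, hq, quad]
    simpa using h
  refine ⟨!![t, 1; -(t ^ 2 + al * t + be), -al - t], ?_, ?_⟩
  · intro i j
    fin_cases i <;> fin_cases j
    · simpa using h0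
    · simp
    · simpa using neg_ne_zero.2 hne
    · simp only [Fin.mk_one, Fin.isValue, of_apply, cons_val', cons_val_one, cons_val_fin_one,
        ne_eq]
      intro h
      exact hal (by linarith)
  · rw [charpoly_fin_two, hq, quad]
    simp [trace_fin_two, det_fin_two]
    ring

/-- The characteristic polynomial of a block diagonal matrix is the product over the blocks. -/
theorem charpoly_blockDiag {k m : ℕ} (M : Fin k → Matrix (Fin m) (Fin m) ℝ) :
    (blockDiagonal M).charpoly = ∏ i, (M i).charpoly := by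
  have h : charmatrix (blockDiagonal M) = blockDiagonal (fun i => charmatrix (M i)) := by
    ext ⟨a, i⟩ ⟨b, j⟩
    by_cases hij : i = j
    · subst hij
      by_cases hab : a = b
      · subst hab
        simp [blockDiagonal_apply]
      · simp [blockDiagonal_apply, hab]
    · simp [blockDiagonal_apply, hij]
  rw [Matrix.charpoly, h, det_blockDiagonal]
  rfl

/-- A monic real polynomial of even degree is a product of monic quadratics. -/
theorem prod_quads (k : ℕ) : ∀ f : ℝ[X], IsMonicOfDegree f (2 * k) →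
    ∃ g : Fin k → ℝ[X], (∀ i, IsMonicOfDegree (g i) 2) ∧ f = ∏ i, g i := by
  induction k with
  | zero =>
    intro f hf
    refine ⟨fun _ => 1, fun i => i.elim0, ?_⟩
    simpa using isMonicOfDegree_zero_iff.1 hf
  | succ k ih =>
    intro f hf
    obtain ⟨f1, f2, h1, h2, h12⟩ :=
      IsMonicOfDegree.eq_isMonicOfDegree_two_mul_isMonicOfDegree (n := 2 * k) hf
    obtain ⟨g, hg, hgp⟩ := ih f2 h2
    refine ⟨Fin.cons f1 g, ?_, ?_⟩
    · intro i
      refine Fin.cases ?_ ?_ i
      · simpa using h1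
      · intro j; simpa using hg j
    · rw [Fin.prod_univ_succ, h12, hgp]
      simp

/-- Direct sums of full two by two blocks realize every monic polynomial of even degree. -/
theorem pairs_block (k : ℕ) (f : ℝ[X]) (hf : IsMonicOfDegree f (2 * k)) :
    ∃ M : Matrix (Fin 2 × Fin k) (Fin 2 × Fin k) ℝ,
      (∀ i j, (M i j ≠ 0 ↔ i.2 = j.2)) ∧ M.charpoly = f := by
  obtain ⟨g, hg, hgp⟩ := prod_quads k f hf
  choose M hM hM' using fun i : Fin k => full_two (g i) (hg i)
  refine ⟨blockDiagonal M, ?_, ?_⟩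
  · rintro ⟨a, i⟩ ⟨b, j⟩
    by_cases hij : i = j
    · subst hij
      simp [blockDiagonal_apply, hM]
    · simp [blockDiagonal_apply, hij]
  · rw [charpoly_blockDiag, hgp]
    exact Finset.prod_congr rfl fun i _ => hM' i

/-- The pattern on the index set of the direct sum. -/
def ZS : Fin 6 ⊕ (Fin 2 × Fin 5) → Fin 6 ⊕ (Fin 2 × Fin 5) → Bool
  | Sum.inl i, Sum.inl j => Z6 i j
  | Sum.inr i, Sum.inr j => decide (i.2 = j.2)
  | _, _ => false

/-- The direct sum pattern is spectrally arbitrary. -/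
theorem sum_arbitrary (p : ℝ[X]) (hp : p.Monic) (hd : p.natDegree = 16) :
    ∃ M : Matrix (Fin 6 ⊕ (Fin 2 × Fin 5)) (Fin 6 ⊕ (Fin 2 × Fin 5)) ℝ,
      (∀ i j, (M i j ≠ 0 ↔ ZS i j = true)) ∧ M.charpoly = p := by
  -- it is enough to find a factor realized by the block of order six
  have key : ∀ g h : ℝ[X], IsMonicOfDegree g 6 → p = g * h →
      (∃ M : Matrix (Fin 6) (Fin 6) ℝ, (∀ i j, (M i j ≠ 0 ↔ Z6 i j = true)) ∧
        M.charpoly = g) →
      ∃ M : Matrix (Fin 6 ⊕ (Fin 2 × Fin 5)) (Fin 6 ⊕ (Fin 2 × Fin 5)) ℝ,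
        (∀ i j, (M i j ≠ 0 ↔ ZS i j = true)) ∧ M.charpoly = p := by
    rintro g h hg hgh ⟨M, hM, hMc⟩
    have hh : IsMonicOfDegree h (2 * 5) := by
      apply IsMonicOfDegree.of_mul_left hg
      rw [← hgh]
      exact ⟨hd, hp⟩
    obtain ⟨N, hN, hNc⟩ := pairs_block 5 h hh
    refine ⟨fromBlocks M 0 0 N, ?_, ?_⟩
    · rintro (i | i) (j | j)
      · simpa [ZS] using hM i j
      · simp [ZS]
      · simp [ZS]
      · simpa [ZS] using hN i j
    · rw [charpoly_fromBlocks_zero₁₂, hMc, hNc, hgh]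
  have hquad : ∀ r : ℝ × ℝ, IsMonicOfDegree (quad r) 2 := fun r =>
    ⟨quad_natDegree r, quad_monic r⟩
  obtain ⟨A, B, U, V, m, hA, hB, hU, hV, hU1, hV1, hpe⟩ := decomposition 16 p hp hd
  have hcount : 2 * A.length + 2 * B.length + U.length + V.length + m = 16 := by
    rw [← hd, hpe, ((((quads_monic A).mul (quads_monic B)).mul (lins_monic U)).mul
      (lins_monic V)).natDegree_mul (monic_X_pow m),
      (((quads_monic A).mul (quads_monic B)).mul (lins_monic U)).natDegree_mul (lins_monic V),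
      ((quads_monic A).mul (quads_monic B)).natDegree_mul (lins_monic U),
      (quads_monic A).natDegree_mul (quads_monic B), quads_natDegree, quads_natDegree,
      lins_natDegree, lins_natDegree, natDegree_X_pow]
  have hcases : 3 ≤ A.length ∨ 3 ≤ B.length ∨ 6 ≤ m := by omega
  rcases hcases with h | h | h
  · match A, hA, h, hpe with
    | r :: s :: q :: A', hA, _, hpe =>
      refine key (quad r * quad s * quad q) ((A'.map quad).prod * (B.map quad).prod *
        (U.map lin).prod * (V.map lin).prod * X ^ m) (((hquad r).mul (hquad s)).mul (hquad q))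
        ?_ (block_left r s q (hA r (by simp)) (hA s (by simp)) (hA q (by simp)))
      rw [hpe]
      simp only [List.map_cons, List.prod_cons]
      ring
  · match B, hB, h, hpe with
    | r :: s :: q :: B', hB, _, hpe =>
      refine key (quad r * quad s * quad q) ((A.map quad).prod * (B'.map quad).prod *
        (U.map lin).prod * (V.map lin).prod * X ^ m) (((hquad r).mul (hquad s)).mul (hquad q))
        ?_ (block_right r s q (hB r (by simp)) (hB s (by simp)) (hB q (by simp)))
      rw [hpe]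
      simp only [List.map_cons, List.prod_cons]
      ring
  · obtain ⟨m', rfl⟩ := Nat.exists_eq_add_of_le h
    refine key (X ^ 6) ((A.map quad).prod * (B.map quad).prod *
        (U.map lin).prod * (V.map lin).prod * X ^ m') ⟨by simp, monic_X_pow 6⟩ ?_ block_zero
    rw [hpe, pow_add]
    ring

/-- The index equivalence. -/
def idx : Fin 6 ⊕ (Fin 2 × Fin 5) ≃ Fin 16 :=
  (Equiv.sumCongr (Equiv.refl (Fin 6)) (finProdFinEquiv (m := 2) (n := 5))).trans
    (finSumFinEquiv (m := 6) (n := 10))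

/-- The pattern of order 16, with 31 nonzero entries. -/
def Z16 : Matrix (Fin 16) (Fin 16) Bool := fun i j => ZS (idx.symm i) (idx.symm j)

theorem card_Z16 :
    (Finset.univ.filter (fun ij : Fin 16 × Fin 16 => Z16 ij.1 ij.2 = true)).card = 31 := by
  decide +kernel

theorem Z16_arbitrary (p : ℝ[X]) (hp : p.Monic) (hd : p.natDegree = 16) :
    ∃ A : Matrix (Fin 16) (Fin 16) ℝ,
      (∀ i j, (A i j ≠ 0 ↔ Z16 i j = true)) ∧ A.charpoly = p := by
  obtain ⟨M, hM, hMc⟩ := sum_arbitrary p hp hd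
  refine ⟨M.reindex idx idx, ?_, ?_⟩
  · intro i j
    exact hM (idx.symm i) (idx.symm j)
  · rw [charpoly_reindex, hMc]

end Pool.Agent.Helper778.Real
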