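import Pool.Agent.Helper778.SapBase

set_option autoImplicit false
set_option maxHeartbeats 4000000

namespace Pool.Agent.Helper778.Sap

open Polynomial Matrix Pool.Agent.Helper778.Real Filter Topology

/-- The value of a quadratic at `i w`. -/
noncomputable def qv (r : ℝ × ℝ) (w : ℝ) : ℂ := ⟨r.2 - w ^ 2, r.1 * w⟩

/-- The argument of the value of a quadratic at `i w`. -/
noncomputable def th (r : ℝ × ℝ) (w : ℝ) : ℝ := (qv r w).arg

theorem aeval_quad (r : ℝ × ℝ) (w : ℝ) : aeval ((w : ℂ) * Complex.I) (quad r) = qv r w := by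
  simp only [quad, qv, map_add, map_mul, map_pow, aeval_X, aeval_C]
  apply Complex.ext
  · simp [pow_two]
    ring
  · simp [pow_two]

theorem aeval_prod (m : Multiset (ℝ × ℝ)) (w : ℝ) :
    aeval ((w : ℂ) * Complex.I) ((m.map quad).prod) = (m.map (fun r => qv r w)).prod := by
  rw [map_multiset_prod, Multiset.map_map]
  congr 1
  apply Multiset.map_congr rfl
  intro r _
  exact aeval_quad r w

theorem qv_cont (r : ℝ × ℝ) : Continuous (qv r) := by
  have : qv r = fun w : ℝ => ((r.2 - w ^ 2 : ℝ) : ℂ) + ((r.1 * w : ℝ) : ℂ) * Complex.I := by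
    funext w
    apply Complex.ext <;> simp [qv, -Complex.ofReal_sub, -Complex.ofReal_mul, -Complex.ofReal_pow]
  rw [this]
  fun_prop

theorem qv_slit (r : ℝ × ℝ) (h1 : 0 < r.1) (h2 : 0 < r.2) (w : ℝ) (hw : 0 ≤ w) :
    qv r w ∈ Complex.slitPlane := by
  rw [Complex.mem_slitPlane_iff]
  rcases hw.eq_or_lt with h | h
  · left
    rw [← h]
    simpa [qv] using h2
  · right
    simp only [qv]
    positivity

theorem th_cont (r : ℝ × ℝ) (h1 : 0 < r.1) (h2 : 0 < r.2) : ContinuousOn (th r) (Set.Ici 0) := by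
  intro w hw
  exact ((Complex.continuousAt_arg (qv_slit r h1 h2 w hw)).comp
    (qv_cont r).continuousAt).continuousWithinAt

theorem th_zero (r : ℝ × ℝ) (h2 : 0 < r.2) : th r 0 = 0 := by
  have : qv r 0 = ((r.2 : ℝ) : ℂ) := by
    apply Complex.ext <;> simp [qv]
  rw [th, this, Complex.arg_ofReal_of_nonneg h2.le]

theorem th_nonneg (r : ℝ × ℝ) (h1 : 0 < r.1) (w : ℝ) (hw : 0 ≤ w) : 0 ≤ th r w := by
  rw [th, Complex.arg_nonneg_iff]
  simp only [qv]
  positivity

theorem th_le_pi (r : ℝ × ℝ) (w : ℝ) : th r w ≤ Real.pi := Complex.arg_le_pi _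

theorem th_tendsto (r : ℝ × ℝ) (h1 : 0 < r.1) :
    Tendsto (th r) atTop (𝓝 Real.pi) := by
  have key : Tendsto (fun w : ℝ => (⟨r.2 * (w ^ 2)⁻¹ - 1, r.1 * w⁻¹⟩ : ℂ)) atTop
      (𝓝[{z : ℂ | 0 ≤ z.im}] (-1)) := by
    rw [tendsto_nhdsWithin_iff]
    constructor
    · have e : (fun w : ℝ => (⟨r.2 * (w ^ 2)⁻¹ - 1, r.1 * w⁻¹⟩ : ℂ))
          = fun w : ℝ => ((r.2 * (w ^ 2)⁻¹ - 1 : ℝ) : ℂ) + ((r.1 * w⁻¹ : ℝ) : ℂ) * Complex.I := by
        funext w
        apply Complex.ext <;>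
          simp [-Complex.ofReal_sub, -Complex.ofReal_mul, -Complex.ofReal_pow, -Complex.ofReal_inv]
      rw [e]
      have t1 : Tendsto (fun w : ℝ => w⁻¹) atTop (𝓝 0) := tendsto_inv_atTop_zero
      have t2 : Tendsto (fun w : ℝ => (w ^ 2)⁻¹) atTop (𝓝 0) := by
        have := t1.pow 2
        simpa using this
      have t3 : Tendsto (fun w : ℝ => ((r.2 * (w ^ 2)⁻¹ - 1 : ℝ) : ℂ)) atTop
          (𝓝 ((r.2 * 0 - 1 : ℝ) : ℂ)) :=
        (Complex.continuous_ofReal.tendsto _).comp ((t2.const_mul r.2).sub_const 1)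
      have t4 : Tendsto (fun w : ℝ => ((r.1 * w⁻¹ : ℝ) : ℂ) * Complex.I) atTop
          (𝓝 (((r.1 * 0 : ℝ) : ℂ) * Complex.I)) :=
        ((Complex.continuous_ofReal.tendsto _).comp (t1.const_mul r.1)).mul_const _
      have := t3.add t4
      simpa using this
    · filter_upwards [eventually_gt_atTop 0] with w hw
      show (0 : ℝ) ≤ r.1 * w⁻¹
      positivity
  have harg : Tendsto Complex.arg (𝓝[{z : ℂ | 0 ≤ z.im}] (-1)) (𝓝 Real.pi) := by
    have := Complex.continuousWithinAt_arg_of_re_neg_of_im_zero (z := -1) (by simp) (by simp)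
    have h := this.tendsto
    simpa using h
  have hcomp := harg.comp key
  refine hcomp.congr' ?_
  filter_upwards [eventually_gt_atTop 0] with w hw
  simp only [Function.comp_apply, th]
  have e : qv r w = ((w ^ 2 : ℝ) : ℂ) * (⟨r.2 * (w ^ 2)⁻¹ - 1, r.1 * w⁻¹⟩ : ℂ) := by
    apply Complex.ext
    · simp only [qv, Complex.mul_re, Complex.ofReal_re, Complex.ofReal_im, zero_mul, sub_zero]
      field_simp
    · simp only [qv, Complex.mul_im, Complex.ofReal_re, Complex.ofReal_im, zero_mul, add_zero]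
      field_simp
  rw [e, Complex.arg_real_mul _ (by positivity)]

theorem qv_polar (r : ℝ × ℝ) (w : ℝ) :
    qv r w = (‖qv r w‖ : ℂ) * Complex.exp ((th r w : ℂ) * Complex.I) :=
  (Complex.norm_mul_exp_arg_mul_I _).symm

theorem qv_ne_zero (r : ℝ × ℝ) (h1 : 0 < r.1) (h2 : 0 < r.2) (w : ℝ) (hw : 0 ≤ w) :
    qv r w ≠ 0 := Complex.slitPlane_ne_zero (qv_slit r h1 h2 w hw)

/-- The real part of a positive multiple of `exp (i t)` at multiples of pi. -/
theorem exp_two_pi : Complex.exp (((2 * Real.pi : ℝ) : ℂ) * Complex.I) = 1 := by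
  push_cast
  exact Complex.exp_two_pi_mul_I

theorem exp_pi : Complex.exp ((Real.pi : ℂ) * Complex.I) = -1 := Complex.exp_pi_mul_I

/-- Large argument for three quadratics in the open left half plane. -/
theorem large_three (r1 r2 r3 : ℝ × ℝ) (h1 : 0 < r1.1) (h2 : 0 < r2.1) (h3 : 0 < r3.1)
    (W : ℝ) : ∃ w, W < w ∧ 5 * Real.pi / 2 < th r1 w + th r2 w + th r3 w := by
  have t := ((th_tendsto r1 h1).add (th_tendsto r2 h2)).add (th_tendsto r3 h3)
  have hlt : 5 * Real.pi / 2 < Real.pi + Real.pi + Real.pi := by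
    have := Real.pi_pos
    linarith
  have := (t.eventually (lt_mem_nhds hlt)).and (eventually_gt_atTop W)
  obtain ⟨w, hw⟩ := this.exists
  exact ⟨w, hw.2, hw.1⟩

theorem cont_three (r1 r2 r3 : ℝ × ℝ) (h1 : 0 < r1.1 ∧ 0 < r1.2) (h2 : 0 < r2.1 ∧ 0 < r2.2)
    (h3 : 0 < r3.1 ∧ 0 < r3.2) :
    ContinuousOn (fun w => th r1 w + th r2 w + th r3 w) (Set.Ici 0) :=
  ((th_cont r1 h1.1 h1.2).add (th_cont r2 h2.1 h2.2)).add (th_cont r3 h3.1 h3.2)

/-- The polar form of a product of three values. -/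
theorem polar_three (r1 r2 r3 : ℝ × ℝ) (w : ℝ) :
    qv r1 w * qv r2 w * qv r3 w = ((‖qv r1 w‖ * ‖qv r2 w‖ * ‖qv r3 w‖ : ℝ) : ℂ)
      * Complex.exp (((th r1 w + th r2 w + th r3 w : ℝ) : ℂ) * Complex.I) := by
  conv_lhs => rw [qv_polar r1 w, qv_polar r2 w, qv_polar r3 w]
  push_cast
  rw [add_mul, add_mul, Complex.exp_add, Complex.exp_add]
  ring

/-- A continuous argument crossing a level. -/
theorem cross {A : ℝ → ℝ} {w0 w1 t : ℝ} (h : w0 ≤ w1) (hc : ContinuousOn A (Set.Icc w0 w1))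
    (h0 : A w0 < t) (h1 : t < A w1) : ∃ w, w0 < w ∧ w < w1 ∧ A w = t := by
  obtain ⟨w, hw, hA⟩ := intermediate_value_Ioo h hc ⟨h0, h1⟩
  exact ⟨w, hw.1, hw.2, hA⟩

/-- The conclusion needed for the second block: a real value `rho` on the imaginary axis,
different from zero and from the value at zero, and a nonreal value. -/
def Level (m : Multiset (ℝ × ℝ)) : Prop :=
  (∃ w rho : ℝ, 0 < w ∧ rho ≠ 0 ∧ rho ≠ ((m.map quad).prod).eval 0 ∧
    (m.map (fun r => qv r w)).prod = (rho : ℂ)) ∧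
  ∃ w : ℝ, (m.map (fun r => qv r w)).prod.im ≠ 0

theorem level_of_arg {m : Multiset (ℝ × ℝ)} {A N : ℝ → ℝ} {w0 w1 : ℝ} (k : ℕ) (h00 : 0 ≤ w0)
    (h01 : w0 ≤ w1) (hc : ContinuousOn A (Set.Icc w0 w1)) (h0 : A w0 < (k : ℝ) * Real.pi)
    (h1 : (k : ℝ) * Real.pi + Real.pi / 2 < A w1) (hN : ∀ w, w0 < w → 0 < N w)
    (hpol : ∀ w, w0 < w → (m.map (fun r => qv r w)).prod
      = (N w : ℂ) * Complex.exp ((A w : ℂ) * Complex.I))
    (hval : (-1) ^ k * ((m.map quad).prod).eval 0 ≤ 0) : Level m := by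
  have hpi := Real.pi_pos
  constructor
  · obtain ⟨w, hw0, _, hA⟩ := cross h01 hc h0 (by linarith)
    have hNw := hN w hw0
    have hexp : Complex.exp ((((k : ℝ) * Real.pi : ℝ) : ℂ) * Complex.I) = (-1) ^ k := by
      push_cast
      rw [mul_assoc, Complex.exp_nat_mul, Complex.exp_pi_mul_I]
    refine ⟨w, N w * (-1) ^ k, by linarith, ?_, ?_, ?_⟩
    · have : ((-1 : ℝ)) ^ k ≠ 0 := pow_ne_zero _ (by norm_num)
      exact mul_ne_zero hNw.ne' this
    · intro heq
      rw [← heq] at hval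
      have h2 : ((-1 : ℝ)) ^ k * (N w * (-1) ^ k) = N w := by
        have : ((-1 : ℝ)) ^ k * (-1) ^ k = 1 := by
          rw [← mul_pow]; norm_num
        linear_combination N w * this
      rw [h2] at hval
      linarith
    · rw [hpol w hw0, hA, hexp]
      push_cast
      ring
  · obtain ⟨w, hw0, _, hA⟩ := cross h01 hc (t := (k : ℝ) * Real.pi + Real.pi / 2) (by linarith) h1
    have hNw := hN w hw0
    refine ⟨w, ?_⟩
    have hexp : Complex.exp ((((k : ℝ) * Real.pi + Real.pi / 2 : ℝ) : ℂ) * Complex.I)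
        = (-1) ^ k * Complex.I := by
      push_cast
      rw [add_mul, Complex.exp_add, mul_assoc, Complex.exp_nat_mul, Complex.exp_pi_mul_I,
        Complex.exp_pi_div_two_mul_I]
    rw [hpol w hw0, hA, hexp]
    rcases neg_one_pow_eq_or ℂ k with h | h
    · rw [h]
      simp [hNw.ne']
    · rw [h]
      simp [hNw.ne']

end Pool.Agent.Helper778.Sap
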