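import Pool.Agent.Helper778.SapB

set_option autoImplicit false
set_option maxHeartbeats 4000000

namespace Pool.Agent.Helper778.Sap

open Polynomial Matrix Pool.Agent.Helper778.Real

/-- A monic real polynomial of degree six not vanishing at zero is a product of three
quadratics, at least two of which have positive constant term. -/
theorem deg_six (R : ℝ[X]) (hR : R.Monic) (hd : R.natDegree = 6) (h0 : R.coeff 0 ≠ 0) :
    ∃ r s q : ℝ × ℝ, 0 < r.2 ∧ 0 < s.2 ∧ q.2 ≠ 0 ∧ R = quad r * quad s * quad q := by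
  obtain ⟨A, B, U, V, m, hA, hB, hU, hV, hU1, hV1, hpe⟩ := decomposition 6 R hR hd
  have hm : m = 0 := by
    by_contra hm
    apply h0
    rw [hpe, ← Nat.succ_pred_eq_of_ne_zero hm, pow_succ, ← mul_assoc, coeff_mul_X_zero]
  subst hm
  have hcount : 2 * A.length + 2 * B.length + U.length + V.length = 6 := by
    rw [← hd, hpe, pow_zero, mul_one, (((quads_monic A).mul (quads_monic B)).mul
      (lins_monic U)).natDegree_mul (lins_monic V),
      ((quads_monic A).mul (quads_monic B)).natDegree_mul (lins_monic U),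
      (quads_monic A).natDegree_mul (quads_monic B), quads_natDegree, quads_natDegree,
      lins_natDegree, lins_natDegree]
  have hAB : ∀ r ∈ A ++ B, 0 < r.2 := by
    intro r hr
    rcases List.mem_append.1 hr with hr | hr
    · exact (hA r hr).2
    · exact (hB r hr).2
  have hprod : R = ((A ++ B).map quad).prod * ((U.map lin).prod * (V.map lin).prod) := by
    rw [hpe, List.map_append, List.prod_append]
    ring
  have hlen : (A ++ B).length = A.length + B.length := List.length_append
  generalize A ++ B = L at hAB hprod hlen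
  match U, V, hU, hV, hU1, hV1, hprod, hcount with
  | [], [], _, _, _, _, hprod, hcount =>
    have hL : L.length = 3 := by simp at hcount; omega
    match L, hL, hAB, hprod with
    | [r, s, q], _, hAB, hprod =>
      refine ⟨r, s, q, hAB r (by simp), hAB s (by simp), (hAB q (by simp)).ne', ?_⟩
      rw [hprod]
      simp [mul_assoc]
  | [c], [d], hU, hV, _, _, hprod, hcount =>
    have hL : L.length = 2 := by simp at hcount; omega
    have hc : 0 < c := hU c (by simp)
    have hd' : d < 0 := hV d (by simp)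
    match L, hL, hAB, hprod with
    | [r, s], _, hAB, hprod =>
      refine ⟨r, s, (c + d, c * d), hAB r (by simp), hAB s (by simp), ?_, ?_⟩
      · exact (mul_neg_of_pos_of_neg hc hd').ne
      · rw [hprod]
        simp only [List.map_cons, List.map_nil, List.prod_cons, List.prod_nil, mul_one, lin,
          quad, map_add, map_mul]
        ring
  | [c], [], _, _, _, _, _, hcount => simp at hcount; omega
  | [], [d], _, _, _, _, _, hcount => simp at hcount; omega

/-- The second block: it is enough to have a suitable level on the imaginary axis. -/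
theorem allowsB_core {m : Multiset (ℝ × ℝ)} (R : ℝ[X]) (ω rho : ℝ) (hω : ω ≠ 0) (hrho : rho ≠ 0)
    (hR : R.Monic) (hd : R.natDegree = 6) (h0 : R.coeff 0 ≠ 0)
    (heq : (m.map quad).prod = (X ^ 2 + C (ω ^ 2)) * R + C rho)
    (hodd : ∃ x : ℝ, ((m.map quad).prod).eval (-x) ≠ ((m.map quad).prod).eval x) :
    Allows ZB m := by
  obtain ⟨x, hx⟩ := hodd
  obtain ⟨r, s, q, hr, hs, hq, hRe⟩ := deg_six R hR hd h0
  have hz : -(ω ^ 2) ≠ 0 := neg_ne_zero.2 (pow_ne_zero 2 hω)
  have hmain : (m.map quad).prod = (X ^ 2 - C (-(ω ^ 2))) * (quad r * quad s) * quad q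
      + C rho := by
    rw [heq, hRe, map_neg]
    ring
  by_cases hq1 : q.1 = 0
  · -- the third quadratic is even
    have hnot : r.1 ≠ 0 ∨ s.1 ≠ 0 := by
      by_contra hcon
      push Not at hcon
      apply hx
      rw [hmain]
      simp [quad, hq1, hcon.1, hcon.2]
    rcases lt_or_gt_of_ne hq with hneg | hpos
    · -- negative constant term
      have hsw : ∀ r s : ℝ × ℝ, 0 < r.2 → 0 < s.2 → s.1 ≠ 0 → (m.map quad).prod =
          (X ^ 2 - C (-(ω ^ 2))) * (quad r * quad s) * quad q + C rho → Allows ZB m := by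
        intro r s hr hs hs1 hm'
        refine allowsB_of_factor (-q.2) rho (0, ω ^ 2) r s (by linarith [hneg.ne] : -q.2 ≠ 0)
          hrho ?_ hs1 hs.ne' ?_
        · exact mul_pos (by positivity) hr
        · rw [hm']
          simp only [quad, hq1, map_neg, map_zero]
          ring
      rcases hnot with h | h
      · exact hsw s r hs hr h (by rw [hmain]; ring)
      · exact hsw r s hr hs h hmain
    · -- positive constant term
      rcases hnot with h | h
      · exact allowsB_of_factor (-(ω ^ 2)) rho q s r hz hrho (mul_pos hpos hs) h hr.ne'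
          (by rw [hmain]; ring)
      · exact allowsB_of_factor (-(ω ^ 2)) rho r q s hz hrho (mul_pos hr hpos) h hs.ne'
          (by rw [hmain]; ring)
  · exact allowsB_of_factor (-(ω ^ 2)) rho r s q hz hrho (mul_pos hr hs) hq1 hq hmain

/-- Even polynomials with nonnegative coefficients. -/
theorem allowsB_even {m : Multiset (ℝ × ℝ)} (e1 e2 e3 e4 : ℝ) (h1 : 0 ≤ e1) (h2 : 0 ≤ e2)
    (h3 : 0 ≤ e3) (h4 : 0 ≤ e4)
    (hm : (m.map quad).prod = X ^ 8 + C e1 * X ^ 6 + C e2 * X ^ 4 + C e3 * X ^ 2 + C e4) :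
    Allows ZB m := by
  obtain ⟨z, hz⟩ : ∃ z, z = e1 + 1 := ⟨_, rfl⟩
  have hz0 : 0 < z := by linarith
  obtain ⟨d1, hd1⟩ : ∃ d1, d1 = e1 + z := ⟨_, rfl⟩
  obtain ⟨d2, hd2⟩ : ∃ d2, d2 = e2 + e1 * z + z ^ 2 := ⟨_, rfl⟩
  obtain ⟨d3, hd3⟩ : ∃ d3, d3 = e3 + e2 * z + e1 * z ^ 2 + z ^ 3 := ⟨_, rfl⟩
  have p1 : 0 < d1 := by rw [hd1]; positivity
  have p2 : 0 < d2 := by rw [hd2]; positivity
  have p3 : 0 < d3 := by rw [hd3]; positivity
  let g : ℝ → ℝ := fun s => s ^ 3 - d1 * s ^ 2 + d2 * s - d3
  have hg : ContinuousOn g (Set.Icc 0 (d1 + d3 + 1)) := by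
    apply Continuous.continuousOn
    simp only [g]
    fun_prop
  have g0 : g 0 < 0 := by
    simp only [g]
    norm_num
    exact p3
  have g1 : 0 < g (d1 + d3 + 1) := by
    obtain ⟨S, hS⟩ : ∃ S, S = d1 + d3 + 1 := ⟨_, rfl⟩
    rw [← hS]
    have hS1 : 1 ≤ S := by linarith
    have e : g S = S ^ 2 * (d3 + 1) + d2 * S - d3 := by
      simp only [g]
      rw [hS]
      ring
    have h11 : d3 + 1 ≤ S ^ 2 * (d3 + 1) := by
      apply le_mul_of_one_le_left (by linarith)
      nlinarith
    have h12 : 0 < d2 * S := by positivity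
    rw [e]
    linarith
  obtain ⟨s, hs, hgs⟩ := intermediate_value_Icc (by linarith : (0 : ℝ) ≤ d1 + d3 + 1) hg
    (show (0 : ℝ) ∈ Set.Icc (g 0) (g (d1 + d3 + 1)) from ⟨g0.le, g1.le⟩)
  have hs0 : 0 < s := by
    rcases hs.1.lt_or_eq with h | h
    · exact h
    · rw [← h] at hgs
      exact absurd hgs g0.ne
  simp only [g] at hgs
  obtain ⟨n, hn⟩ : ∃ n, n = Real.sqrt (d3 / s) := ⟨_, rfl⟩
  have hn0 : 0 < n := by rw [hn]; exact Real.sqrt_pos.2 (by positivity)
  have hn2 : n ^ 2 * s = d3 := by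
    rw [hn, Real.sq_sqrt (by positivity)]
    field_simp
  have hc0 : 0 < 2 * n - (d1 - s) := by
    by_contra hcon
    push Not at hcon
    have hsd : s < d1 := by linarith
    have h11 : z ^ 2 * d1 ≤ d3 := by
      rw [hd1, hd3]
      have : 0 ≤ e3 + e2 * z := by positivity
      nlinarith
    have h12 : z ^ 2 * d1 ≤ n ^ 2 * d1 := by
      rw [← hn2] at h11
      have : n ^ 2 * s ≤ n ^ 2 * d1 := by
        apply mul_le_mul_of_nonneg_left hsd.le (by positivity)
      linarith
    have h13 : z ^ 2 ≤ n ^ 2 := le_of_mul_le_mul_right h12 p1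
    have h14 : z ≤ n := by
      rw [sq_le_sq₀ hz0.le hn0.le] at h13
      exact h13
    linarith
  obtain ⟨c, hc⟩ : ∃ c, c = Real.sqrt (2 * n - (d1 - s)) := ⟨_, rfl⟩
  have hcpos : 0 < c := by rw [hc]; exact Real.sqrt_pos.2 hc0
  have hc2 : c ^ 2 = 2 * n - (d1 - s) := by rw [hc, Real.sq_sqrt hc0.le]
  refine allowsB_of_factor z (z ^ 4 + e1 * z ^ 3 + e2 * z ^ 2 + e3 * z + e4) (c, n) (0, s)
    (-c, n) hz0.ne' (by positivity) (by positivity) (neg_ne_zero.2 hcpos.ne') hn0.ne' ?_
  rw [hm]
  have k1 : C (c ^ 2) = C (2 * n - (d1 - s)) := by rw [hc2]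
  have k2 : C (n ^ 2 * s) = C d3 := by rw [hn2]
  have k3 : (C (s ^ 3 - d1 * s ^ 2 + d2 * s - d3) : ℝ[X]) = 0 := by rw [hgs, map_zero]
  have k5 : d2 - s * (d1 - s) = n ^ 2 := by
    have : s * (d2 - s * (d1 - s)) = s * n ^ 2 := by linear_combination hgs - hn2
    exact mul_left_cancel₀ hs0.ne' this
  have k6 : C (d2 - s * (d1 - s)) = C (n ^ 2) := by rw [k5]
  have k7 : C d1 = C (e1 + z) := by rw [hd1]
  have k8 : C d2 = C (e2 + e1 * z + z ^ 2) := by rw [hd2]
  have k9 : C d3 = C (e3 + e2 * z + e1 * z ^ 2 + z ^ 3) := by rw [hd3]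
  simp only [map_add, map_mul, map_pow, map_sub, C_ofNat] at k1 k2 k6 k7 k8 k9
  have q1 : quad (c, n) * quad (-c, n) = X ^ 4 + (C d1 - C s) * X ^ 2 + C n ^ 2 := by
    simp only [quad, map_neg]
    linear_combination -X ^ 2 * k1
  have q2 : quad (c, n) * quad (0, s) * quad (-c, n) = X ^ 6 + C d1 * X ^ 4 + C d2 * X ^ 2
      + C d3 := by
    have : quad (c, n) * quad (0, s) * quad (-c, n) = (quad (c, n) * quad (-c, n))
        * quad (0, s) := by ring
    rw [this, q1]
    simp only [quad, map_zero]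
    linear_combination k2 - X ^ 2 * k6
  rw [mul_assoc, q2, k7, k8, k9]
  simp only [map_add, map_mul, map_pow]
  ring

theorem allowsB_imag (p q r s : ℝ) (hp : 0 < p) (hq : 0 < q) (hr : 0 < r) (hs : 0 < s) :
    Allows ZB {(0, p), (0, q), (0, r), (0, s)} := by
  apply allowsB_even (p + q + r + s) (p * q + r * s + (p + q) * (r + s))
    (p * q * (r + s) + (p + q) * (r * s)) (p * q * (r * s)) (by positivity) (by positivity)
    (by positivity) (by positivity)
  simp only [Multiset.insert_eq_cons, Multiset.map_cons, Multiset.map_singleton,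
    Multiset.prod_cons, Multiset.prod_singleton, quad, map_add, map_mul, map_zero]
  ring

theorem allowsB_zero : Allows ZB {(0, 0), (0, 0), (0, 0), (0, 0)} := by
  apply allowsB_even 0 0 0 0 le_rfl le_rfl le_rfl le_rfl
  simp only [Multiset.insert_eq_cons, Multiset.map_cons, Multiset.map_singleton,
    Multiset.prod_cons, Multiset.prod_singleton, quad, map_zero]
  ring

end Pool.Agent.Helper778.Sap
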