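import Pool.Agent.Helper778.SapArg
import Pool.Agent.Helper778.SapB2

set_option autoImplicit false
set_option maxHeartbeats 4000000

namespace Pool.Agent.Helper778.Sap

open Polynomial Matrix Pool.Agent.Helper778.Real Filter Topology

theorem small_three (r1 r2 r3 : ℝ × ℝ) (h1 : 0 < r1.1 ∧ 0 < r1.2) (h2 : 0 < r2.1 ∧ 0 < r2.2)
    (h3 : 0 < r3.1 ∧ 0 < r3.2) : ∃ w, 0 < w ∧ th r1 w + th r2 w + th r3 w < Real.pi / 2 := by
  have hc := (cont_three r1 r2 r3 h1 h2 h3) 0 (by simp)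
  have h0 : th r1 0 + th r2 0 + th r3 0 = 0 := by
    rw [th_zero r1 h1.2, th_zero r2 h2.2, th_zero r3 h3.2]; norm_num
  have hc' : Tendsto (fun w => th r1 w + th r2 w + th r3 w) (𝓝[>] 0) (𝓝 0) := by
    have := hc.tendsto
    rw [h0] at this
    exact this.mono_left (nhdsWithin_mono _ Set.Ioi_subset_Ici_self)
  have hpi : (0 : ℝ) < Real.pi / 2 := by positivity
  have := (hc'.eventually (gt_mem_nhds hpi)).and self_mem_nhdsWithin
  obtain ⟨w, hw⟩ := this.exists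
  exact ⟨w, hw.2, hw.1⟩

theorem map_four (s r1 r2 r3 : ℝ × ℝ) (w : ℝ) :
    ((({s, r1, r2, r3} : Multiset (ℝ × ℝ)).map (fun r => qv r w)).prod)
      = qv s w * (qv r1 w * qv r2 w * qv r3 w) := by
  simp [mul_assoc]

theorem eval_four (s r1 r2 r3 : ℝ × ℝ) :
    (((({s, r1, r2, r3} : Multiset (ℝ × ℝ)).map quad).prod).eval 0)
      = s.2 * (r1.2 * r2.2 * r3.2) := by
  simp [quad, mul_assoc]

theorem norm_pos_three (r1 r2 r3 : ℝ × ℝ) (h1 : 0 < r1.1 ∧ 0 < r1.2) (h2 : 0 < r2.1 ∧ 0 < r2.2)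
    (h3 : 0 < r3.1 ∧ 0 < r3.2) (w : ℝ) (hw : 0 ≤ w) :
    0 < ‖qv r1 w‖ * ‖qv r2 w‖ * ‖qv r3 w‖ := by
  have a1 := norm_pos_iff.2 (qv_ne_zero r1 h1.1 h1.2 w hw)
  have a2 := norm_pos_iff.2 (qv_ne_zero r2 h2.1 h2.2 w hw)
  have a3 := norm_pos_iff.2 (qv_ne_zero r3 h3.1 h3.2 w hw)
  positivity

theorem level_nonpos (s r1 r2 r3 : ℝ × ℝ) (hs : s.2 ≤ 0) (h1 : 0 < r1.1 ∧ 0 < r1.2)
    (h2 : 0 < r2.1 ∧ 0 < r2.2) (h3 : 0 < r3.1 ∧ 0 < r3.2) : Level {s, r1, r2, r3} := by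
  have hpi := Real.pi_pos
  obtain ⟨w0, hw0, hsmall⟩ := small_three r1 r2 r3 h1 h2 h3
  obtain ⟨w1, hw1, hlarge⟩ := large_three r1 r2 r3 h1.1 h2.1 h3.1 w0
  have hre : ∀ w : ℝ, 0 < w → 0 < (-qv s w).re := by
    intro w hw
    simp only [qv, Complex.neg_re]
    have : 0 < w ^ 2 := by positivity
    linarith
  have habs : ∀ w : ℝ, 0 < w → |(-qv s w).arg| < Real.pi / 2 := fun w hw =>
    Complex.abs_arg_lt_pi_div_two_iff.2 (Or.inl (hre w hw))
  refine level_of_arg (A := fun w => (th r1 w + th r2 w + th r3 w) + (Real.pi + (-qv s w).arg))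
    (N := fun w => ‖qv s w‖ * (‖qv r1 w‖ * ‖qv r2 w‖ * ‖qv r3 w‖)) (w0 := w0) (w1 := w1) 2 hw0.le
    hw1.le ?_ ?_ ?_ ?_ ?_ ?_
  · apply ContinuousOn.add
    · exact (cont_three r1 r2 r3 h1 h2 h3).mono (fun w hw => hw0.le.trans hw.1)
    · apply ContinuousOn.add continuousOn_const
      intro w hw
      have hwpos : 0 < w := hw0.trans_le hw.1
      have hslit : -qv s w ∈ Complex.slitPlane := by
        rw [Complex.mem_slitPlane_iff]
        exact Or.inl (hre w hwpos)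
      have hc1 : ContinuousAt (fun w => -qv s w) w := ((qv_cont s).neg).continuousAt
      exact (ContinuousAt.comp (g := Complex.arg) (f := fun w => -qv s w)
        (Complex.continuousAt_arg hslit) hc1).continuousWithinAt
  · have := (abs_lt.1 (habs w0 hw0)).2
    push_cast
    linarith
  · have := (abs_lt.1 (habs w1 (hw0.trans hw1))).1
    push_cast
    linarith
  · intro w hw
    have hwpos : 0 < w := hw0.trans hw
    have hne : qv s w ≠ 0 := by
      intro h0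
      have := hre w hwpos
      rw [h0] at this
      simp at this
    exact mul_pos (norm_pos_iff.2 hne) (norm_pos_three r1 r2 r3 h1 h2 h3 w hwpos.le)
  · intro w hw
    rw [map_four, polar_three]
    have hp : qv s w = (‖qv s w‖ : ℂ)
        * Complex.exp (((Real.pi + (-qv s w).arg : ℝ) : ℂ) * Complex.I) := by
      have e := Complex.norm_mul_exp_arg_mul_I (-qv s w)
      rw [norm_neg] at e
      push_cast
      rw [add_mul, Complex.exp_add, Complex.exp_pi_mul_I]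
      linear_combination e
    conv_lhs => rw [hp]
    push_cast
    rw [add_mul (_ + _ + _ : ℂ), Complex.exp_add]
    ring
  · rw [eval_four]
    have : 0 < r1.2 * r2.2 * r3.2 := mul_pos (mul_pos h1.2 h2.2) h3.2
    have : s.2 * (r1.2 * r2.2 * r3.2) ≤ 0 := mul_nonpos_of_nonpos_of_nonneg hs this.le
    norm_num
    linarith

theorem level_pos (s r1 r2 r3 : ℝ × ℝ) (hs1 : 0 < s.1) (hs : 0 < s.2)
    (h1 : 0 < r1.1 ∧ 0 < r1.2)
    (h2 : 0 < r2.1 ∧ 0 < r2.2) (h3 : 0 < r3.1 ∧ 0 < r3.2) : Level {s, r1, r2, r3} := by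
  have hpi := Real.pi_pos
  obtain ⟨w1, hw1, hlarge⟩ := large_three r1 r2 r3 h1.1 h2.1 h3.1 0
  refine level_of_arg (A := fun w => (th r1 w + th r2 w + th r3 w) + th s w)
    (N := fun w => ‖qv s w‖ * (‖qv r1 w‖ * ‖qv r2 w‖ * ‖qv r3 w‖)) (w0 := 0) (w1 := w1) 1 le_rfl
    hw1.le ?_ ?_ ?_ ?_ ?_ ?_
  · exact ((cont_three r1 r2 r3 h1 h2 h3).add (th_cont s hs1 hs)).mono
      (fun w hw => hw.1)
  · simp only [th_zero r1 h1.2, th_zero r2 h2.2, th_zero r3 h3.2, th_zero s hs]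
    norm_num
    exact hpi
  · have := th_nonneg s hs1 w1 hw1.le
    push_cast
    linarith
  · intro w hw
    exact mul_pos (norm_pos_iff.2 (qv_ne_zero s hs1 hs w hw.le))
      (norm_pos_three r1 r2 r3 h1 h2 h3 w hw.le)
  · intro w hw
    rw [map_four, polar_three]
    conv_lhs => rw [qv_polar s w]
    push_cast
    rw [add_mul (_ + _ + _ : ℂ), Complex.exp_add]
    ring
  · rw [eval_four]
    have : 0 < s.2 * (r1.2 * r2.2 * r3.2) := mul_pos hs (mul_pos (mul_pos h1.2 h2.2) h3.2)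
    norm_num
    linarith

theorem level_neg (s r1 r2 r3 : ℝ × ℝ) (hs1 : s.1 < 0) (hs : 0 < s.2)
    (h1 : 0 < r1.1 ∧ 0 < r1.2)
    (h2 : 0 < r2.1 ∧ 0 < r2.2) (h3 : 0 < r3.1 ∧ 0 < r3.2) : Level {s, r1, r2, r3} := by
  have hpi := Real.pi_pos
  obtain ⟨w1, hw1, hlarge⟩ := large_three r1 r2 r3 h1.1 h2.1 h3.1 0
  have hs1' : 0 < ((-s.1, s.2) : ℝ × ℝ).1 := by simpa using hs1
  have hs2' : 0 < ((-s.1, s.2) : ℝ × ℝ).2 := hs
  have hconj : ∀ w, qv s w = (starRingEnd ℂ) (qv (-s.1, s.2) w) := by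
    intro w
    apply Complex.ext <;> simp [qv]
  refine level_of_arg (A := fun w => (th r1 w + th r2 w + th r3 w) - th (-s.1, s.2) w)
    (N := fun w => ‖qv (-s.1, s.2) w‖ * (‖qv r1 w‖ * ‖qv r2 w‖ * ‖qv r3 w‖)) (w0 := 0)
    (w1 := w1) 1 le_rfl
    hw1.le ?_ ?_ ?_ ?_ ?_ ?_
  · exact ((cont_three r1 r2 r3 h1 h2 h3).sub (th_cont (-s.1, s.2) hs1' hs2')).mono
      (fun w hw => hw.1)
  · simp only [th_zero r1 h1.2, th_zero r2 h2.2, th_zero r3 h3.2, th_zero (-s.1, s.2) hs2']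
    norm_num
    exact hpi
  · have := th_le_pi (-s.1, s.2) w1
    push_cast
    linarith
  · intro w hw
    exact mul_pos (norm_pos_iff.2 (qv_ne_zero (-s.1, s.2) hs1' hs2' w hw.le))
      (norm_pos_three r1 r2 r3 h1 h2 h3 w hw.le)
  · intro w hw
    rw [map_four, polar_three]
    have hp : qv s w = (‖qv (-s.1, s.2) w‖ : ℂ)
        * Complex.exp (-((th (-s.1, s.2) w : ℝ) : ℂ) * Complex.I) := by
      rw [hconj]
      conv_lhs => rw [qv_polar (-s.1, s.2) w]
      rw [map_mul, Complex.conj_ofReal, ← Complex.exp_conj, map_mul, Complex.conj_ofReal,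
        Complex.conj_I]
      congr 2
      ring
    conv_lhs => rw [hp]
    push_cast
    rw [sub_eq_add_neg, add_mul (_ + _ + _ : ℂ), Complex.exp_add]
    ring
  · rw [eval_four]
    have : 0 < s.2 * (r1.2 * r2.2 * r3.2) := mul_pos hs (mul_pos (mul_pos h1.2 h2.2) h3.2)
    norm_num
    linarith

theorem level_three (s r1 r2 r3 : ℝ × ℝ) (hs : s.1 ≠ 0 ∨ s.2 ≤ 0)
    (h1 : 0 < r1.1 ∧ 0 < r1.2)
    (h2 : 0 < r2.1 ∧ 0 < r2.2) (h3 : 0 < r3.1 ∧ 0 < r3.2) : Level {s, r1, r2, r3} := by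
  rcases le_or_gt s.2 0 with h | h
  · exact level_nonpos s r1 r2 r3 h h1 h2 h3
  · rcases hs with hs | hs
    · rcases lt_or_gt_of_ne hs with h' | h'
      · exact level_neg s r1 r2 r3 h' h h1 h2 h3
      · exact level_pos s r1 r2 r3 h' h h1 h2 h3
    · linarith

theorem not_even_of_im {m : Multiset (ℝ × ℝ)}
    (h : ∃ w : ℝ, (m.map (fun r => qv r w)).prod.im ≠ 0) :
    ∃ x : ℝ, ((m.map quad).prod).eval (-x) ≠ ((m.map quad).prod).eval x := by
  obtain ⟨w, hw⟩ := h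
  by_contra hcon
  push Not at hcon
  apply hw
  have hcomp : ((m.map quad).prod).comp (-X) = (m.map quad).prod := by
    apply Polynomial.funext
    intro x
    rw [eval_comp]
    simpa using hcon x
  rw [← aeval_prod]
  have h1 : aeval ((w : ℂ) * Complex.I) ((m.map quad).prod)
      = (starRingEnd ℂ) (aeval ((w : ℂ) * Complex.I) ((m.map quad).prod)) := by
    rw [← aeval_conj]
    conv_rhs => rw [← hcomp]
    rw [aeval_comp]
    congr 1
    simp
  have h2 := congrArg Complex.im h1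
  rw [Complex.conj_im] at h2
  linarith

theorem allowsB_of_level {m : Multiset (ℝ × ℝ)} (hcard : m.card = 4) (h : Level m) :
    Allows ZB m := by
  obtain ⟨⟨w, rho, hw, hrho, hne, hval⟩, him⟩ := h
  obtain ⟨f, hf⟩ : ∃ f, f = (m.map quad).prod := ⟨_, rfl⟩
  have hfm : f.Monic := hf ▸ multiset_monic m
  have hfd : f.natDegree = 8 := by rw [hf, multiset_natDegree, hcard]
  rw [← aeval_prod, ← hf] at hval
  rw [← hf] at hne
  obtain ⟨q, hq⟩ : ∃ q : ℝ[X], q = X ^ 2 + C (w ^ 2) := ⟨_, rfl⟩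
  have hqm : q.Monic := by rw [hq]; monicity!
  have hqd : q.natDegree = 2 := by rw [hq]; compute_degree!
  have hdiv := modByMonic_add_div f q
  have hrdeg : (f %ₘ q).natDegree ≤ 1 := by
    have := natDegree_modByMonic_lt f hqm (by
      intro h1
      rw [h1] at hqd
      simp at hqd)
    omega
  have hr := eq_X_add_C_of_natDegree_le_one hrdeg
  obtain ⟨c, hc⟩ : ∃ c, c = (f %ₘ q).coeff 1 := ⟨_, rfl⟩
  obtain ⟨d, hd⟩ : ∃ d, d = (f %ₘ q).coeff 0 := ⟨_, rfl⟩
  rw [← hc, ← hd] at hr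
  have hq0 : aeval ((w : ℂ) * Complex.I) q = 0 := by
    rw [hq]
    simp [mul_pow]
  have hcd : (c : ℂ) * ((w : ℂ) * Complex.I) + d = rho := by
    rw [← hval, ← hdiv, map_add, map_mul, hq0, zero_mul, add_zero, hr]
    simp
  have hcd1 := congrArg Complex.im hcd
  have hcd2 := congrArg Complex.re hcd
  simp at hcd1 hcd2
  have hc0 : c = 0 := by
    rcases hcd1 with h | h
    · exact h
    · exact absurd h hw.ne'
  have hrC : f %ₘ q = C rho := by
    rw [hr, hc0, hcd2]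
    simp
  rw [hrC] at hdiv
  have heq : f = (X ^ 2 + C (w ^ 2)) * (f /ₘ q) + C rho := by
    rw [← hq]
    linear_combination -hdiv
  refine allowsB_core (f /ₘ q) w rho hw.ne' hrho ?_ ?_ ?_ ?_ (not_even_of_im him)
  · have := hfm.leadingCoeff
    rw [Monic, leadingCoeff_divByMonic_of_monic hqm]
    · exact this
    · rw [degree_eq_natDegree hqm.ne_zero, degree_eq_natDegree hfm.ne_zero, hqd, hfd]
      norm_num
  · rw [natDegree_divByMonic _ hqm, hqd, hfd]
  · intro h0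
    apply hne
    have := congrArg (fun g : ℝ[X] => g.eval 0) heq
    simp only [eval_add, eval_mul, eval_pow, eval_X, eval_C] at this
    rw [coeff_zero_eq_eval_zero] at h0
    rw [this, h0]
    ring
  · rw [← hf]; exact heq

/-- The second block allows any quadratic which is not that of a nonzero imaginary pair,
together with three quadratics with roots in the open left half plane. -/
theorem allowsB_left (s r1 r2 r3 : ℝ × ℝ) (hs : s.1 ≠ 0 ∨ s.2 ≤ 0)
    (h1 : 0 < r1.1 ∧ 0 < r1.2) (h2 : 0 < r2.1 ∧ 0 < r2.2) (h3 : 0 < r3.1 ∧ 0 < r3.2) :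
    Allows ZB {s, r1, r2, r3} :=
  allowsB_of_level (by simp) (level_three s r1 r2 r3 hs h1 h2 h3)

end Pool.Agent.Helper778.Sap
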