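import Pool.Agent.Helper778.SapPick

set_option autoImplicit false
set_option maxHeartbeats 4000000

namespace Pool.Agent.Helper778.Sap

open Polynomial Matrix Pool.Agent.Helper778.Real

/-- Covered by the six blocks of order eight and `k` blocks of order six. -/
def Cov (k : ℕ) (m : MQ) : Prop :=
  ∃ b1 b2 b3 t1 t2 j c : MQ, Allows ZB b1 ∧ Allows ZB b2 ∧ Allows ZB b3 ∧ Allows ZT t1 ∧
    Allows ZT t2 ∧ Allows ZJ j ∧ CZ k c ∧ m = b1 + b2 + b3 + t1 + t2 + j + c

theorem cov_mir {k : ℕ} {m : MQ} (h : Cov k (mir m)) : Cov k m := by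
  obtain ⟨b1, b2, b3, t1, t2, j, c, h1, h2, h3, h4, h5, h6, h7, he⟩ := h
  refine ⟨mir b1, mir b2, mir b3, mir t1, mir t2, mir j, mir c, allows_mir h1, allows_mir h2,
    allows_mir h3, allows_mir h4, allows_mir h5, allows_mir h6, cz_mir k c h7, ?_⟩
  rw [← mir_mir m, he]
  simp only [mir_add]

theorem left_of_L {r : ℝ × ℝ} (h : IsL r) : Left r := ⟨h.1.le, h.2⟩
theorem left_of_I {r : ℝ × ℝ} (h : IsI r) : Left r := ⟨h.1.symm.le, h.2⟩
theorem right_of_R {r : ℝ × ℝ} (h : IsR r) : Right r := ⟨h.1.le, h.2⟩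
theorem right_of_I {r : ℝ × ℝ} (h : IsI r) : Right r := ⟨h.1.le, h.2⟩

theorem mem_left {P : ℝ × ℝ → Prop} {X Y : MQ} (h : ∀ r ∈ X + Y, P r) : ∀ r ∈ X, P r :=
  fun r hr => h r (Multiset.mem_add.2 (Or.inl hr))

theorem mem_right {P : ℝ × ℝ → Prop} {X Y : MQ} (h : ∀ r ∈ X + Y, P r) : ∀ r ∈ Y, P r :=
  fun r hr => h r (Multiset.mem_add.2 (Or.inr hr))

theorem mem_sum {P : ℝ × ℝ → Prop} {X Y : MQ} (h : ∀ r ∈ X, P r) (h' : ∀ r ∈ Y, P r) :
    ∀ r ∈ X + Y, P r := fun r hr => (Multiset.mem_add.1 hr).elim (h r) (h' r)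

/-- Many quadratics of left type. -/
theorem cov_left (k : ℕ) (S L R I Z : MQ) (hS : S.card ≤ 1) (hS' : ∀ s ∈ S, IsBad s)
    (hL : ∀ r ∈ L, IsL r) (hR : ∀ r ∈ R, IsR r) (hI : ∀ r ∈ I, IsI r) (hZ : ∀ r ∈ Z, IsZ r)
    (hn : S.card + L.card + R.card + I.card + Z.card = 3 * k + 24) (hm : 24 ≤ L.card) :
    Cov k (S + L + R + I + Z) := by
  -- split off the residues of `R` and `Z`
  obtain ⟨Y1, R1, rfl, hY1⟩ := split (if R.card % 3 = 0 then 0 else 1) R (by split_ifs <;> omega)
  obtain ⟨Y2, R2, rfl, hY2⟩ := split (if (Y1 + R1).card % 3 = 2 then 1 else 0) R1 (by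
    rw [Multiset.card_add] at hY1 ⊢
    split_ifs at hY1 ⊢ <;> omega)
  obtain ⟨Y3, Z1, rfl, hY3⟩ := split (Z.card % 3) Z (Nat.mod_le _ _)
  simp only [Multiset.card_add] at hn hY1 hY2 hY3
  have hc1 : Y1.card ≤ 1 := by split_ifs at hY1 <;> omega
  have hc2 : Y2.card ≤ 1 := by split_ifs at hY2 <;> omega
  have hc3 : Y3.card ≤ 2 := by omega
  have hR2 : R2.card % 3 = 0 := by
    split_ifs at hY1 hY2 <;> omega
  have hZ1 : Z1.card % 3 = 0 := by omega
  obtain ⟨X1, L1, rfl, hX1, hb1⟩ := pickB S L hS (fun s hs => by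
    rcases hS' s hs with h | h
    · exact Or.inr h.le
    · exact Or.inl h.2) hL (by omega)
  rw [Multiset.card_add] at hm hn
  obtain ⟨X2, L2, rfl, hX2, hb2⟩ := pickB Y1 L1 hc1 (fun s hs => Or.inl
    (mem_left hR s hs).1.ne) (mem_right hL) (by omega)
  rw [Multiset.card_add] at hm hn
  obtain ⟨X3, L3, rfl, hX3, hb3⟩ := pickB Y2 L2 hc2 (fun s hs => Or.inl
    (mem_left (mem_right hR) s hs).1.ne) (mem_right (mem_right hL)) (by omega)
  rw [Multiset.card_add] at hm hn
  obtain ⟨X4, L4, rfl, hX4, ht1⟩ := pickT Y3 L3 (by omega) (mem_left hZ)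
    (Or.inl (mem_right (mem_right (mem_right hL)))) (by omega)
  rw [Multiset.card_add] at hm hn
  obtain ⟨X5, L5, rfl, hX5, ht2⟩ := pickT 0 L4 (by simp) (by simp)
    (Or.inl (mem_right (mem_right (mem_right (mem_right hL))))) (by omega)
  rw [Multiset.card_add] at hm hn
  rw [Multiset.card_zero] at hX5
  obtain ⟨X6, L6, rfl, hX6⟩ := split 4 L5 (by omega)
  rw [Multiset.card_add] at hm hn
  have hL5 := mem_right (mem_right (mem_right (mem_right (mem_right hL))))
  have hj : Allows ZJ X6 := J_L X6 hX6 (mem_left hL5)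
  have hcz : CZ k ((L6 + I) + R2 + Z1) := by
    apply cz_cover
    · exact mem_sum (fun r hr => left_of_L (mem_right hL5 r hr)) (fun r hr => left_of_I (hI r hr))
    · exact fun r hr => right_of_R (mem_right (mem_right hR) r hr)
    · exact mem_right hZ
    · rw [Multiset.card_add]; omega
    · omega
    · rw [Multiset.card_add]; omega
  exact ⟨S + X1, Y1 + X2, Y2 + X3, Y3 + X4, 0 + X5, X6, (L6 + I) + R2 + Z1, hb1, hb2, hb3, ht1,
    ht2, hj, hcz, by abel⟩

/-- Five blocks of order eight and many imaginary pairs. -/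
theorem core_imag (k : ℕ) (L R I Z : MQ)
    (hL : ∀ r ∈ L, IsL r) (hR : ∀ r ∈ R, IsR r) (hI : ∀ r ∈ I, IsI r) (hZ : ∀ r ∈ Z, IsZ r)
    (hn : L.card + R.card + I.card + Z.card = 3 * k + 20) (hm : 24 ≤ I.card) :
    ∃ b1 b2 b3 t1 t2 c : MQ, Allows ZB b1 ∧ Allows ZB b2 ∧ Allows ZB b3 ∧ Allows ZT t1 ∧
    Allows ZT t2 ∧ CZ k c ∧ L + R + I + Z = b1 + b2 + b3 + t1 + t2 + c := by
  obtain ⟨Y3, Z1, rfl, hY3⟩ := split (Z.card % 3) Z (Nat.mod_le _ _)
  simp only [Multiset.card_add] at hn hY3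
  have hZ1 : Z1.card % 3 = 0 := by omega
  obtain ⟨X1, I1, rfl, hX1⟩ := split 4 I (by omega)
  rw [Multiset.card_add] at hm hn
  obtain ⟨X2, I2, rfl, hX2⟩ := split 4 I1 (by omega)
  rw [Multiset.card_add] at hm hn
  obtain ⟨X3, I3, rfl, hX3⟩ := split 4 I2 (by omega)
  rw [Multiset.card_add] at hm hn
  have hI3 := mem_right (mem_right (mem_right hI))
  obtain ⟨X4, I4, rfl, hX4, ht1⟩ := pickT Y3 I3 (by omega) (mem_left hZ) (Or.inr hI3) (by omega)
  rw [Multiset.card_add] at hm hn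
  obtain ⟨X5, I5, rfl, hX5, ht2⟩ := pickT 0 I4 (by simp) (by simp) (Or.inr (mem_right hI3))
    (by omega)
  rw [Multiset.card_add] at hm hn
  rw [Multiset.card_zero] at hX5
  have hI5 := mem_right (mem_right hI3)
  obtain ⟨X6, I6, rfl, hX6⟩ := split ((3 - R.card % 3) % 3) I5 (by omega)
  rw [Multiset.card_add] at hm hn
  have hcz : CZ k ((L + I6) + (R + X6) + Z1) := by
    apply cz_cover
    · exact mem_sum (fun r hr => left_of_L (hL r hr))
        (fun r hr => left_of_I (mem_right hI5 r hr))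
    · exact mem_sum (fun r hr => right_of_R (hR r hr))
        (fun r hr => right_of_I (mem_left hI5 r hr))
    · exact mem_right hZ
    · rw [Multiset.card_add]; omega
    · rw [Multiset.card_add]; omega
    · rw [Multiset.card_add, Multiset.card_add]; omega
  exact ⟨X1, X2, X3, Y3 + X4, 0 + X5, (L + I6) + (R + X6) + Z1, B_I X1 hX1 (mem_left hI),
    B_I X2 hX2 (mem_left (mem_right hI)), B_I X3 hX3 (mem_left (mem_right (mem_right hI))), ht1,
    ht2, hcz, by abel⟩

/-- Many imaginary pairs, the exceptional quadratic (if any) being not of the form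
zero and a positive root. -/
theorem cov_imag' (k : ℕ) (S L R I Z : MQ) (hS : S.card ≤ 1)
    (hS' : ∀ s ∈ S, s.2 < 0 ∨ (s.2 = 0 ∧ 0 < s.1))
    (hL : ∀ r ∈ L, IsL r) (hR : ∀ r ∈ R, IsR r) (hI : ∀ r ∈ I, IsI r) (hZ : ∀ r ∈ Z, IsZ r)
    (hn : S.card + L.card + R.card + I.card + Z.card = 3 * k + 24) (hk : 1 ≤ k)
    (hm : 30 ≤ I.card) :
    Cov k (S + L + R + I + Z) := by
  rcases Nat.le_one_iff_eq_zero_or_eq_one.1 hS with h | h
  · have hS0 : S = 0 := Multiset.card_eq_zero.1 h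
    subst hS0
    rw [Multiset.card_zero] at hn
    obtain ⟨X, I1, rfl, hX⟩ := split 4 I (by omega)
    rw [Multiset.card_add] at hm hn
    obtain ⟨b1, b2, b3, t1, t2, c, h1, h2, h3, h4, h5, h6, he⟩ :=
      core_imag k L R I1 Z hL hR (mem_right hI) hZ (by omega) (by omega)
    refine ⟨b1, b2, b3, t1, t2, X, c, h1, h2, h3, h4, h5, J_I X hX (mem_left hI), h6, ?_⟩
    have : 0 + L + R + (X + I1) + Z = X + (L + R + I1 + Z) := by abel
    rw [this, he]
    abel
  · obtain ⟨s, rfl⟩ := Multiset.card_eq_one.1 h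
    rw [h] at hn
    rcases hS' s (by simp) with hs | ⟨hs2, hs1⟩
    · obtain ⟨X, I1, rfl, hX⟩ := split 3 I (by omega)
      rw [Multiset.card_add] at hm hn
      obtain ⟨b1, b2, b3, t1, t2, c, h1, h2, h3, h4, h5, h6, he⟩ :=
        core_imag k L R I1 Z hL hR (mem_right hI) hZ (by omega) (by omega)
      refine ⟨b1, b2, b3, t1, t2, {s} + X, c, h1, h2, h3, h4, h5, J_M s hs X hX (mem_left hI),
        h6, ?_⟩
      have : {s} + L + R + (X + I1) + Z = ({s} + X) + (L + R + I1 + Z) := by abel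
      rw [this, he]
      abel
    · obtain ⟨k', rfl⟩ := Nat.exists_eq_add_of_le hk
      obtain ⟨X, I1, rfl, hX⟩ := split 4 I (by omega)
      rw [Multiset.card_add] at hm hn
      obtain ⟨X', I2, rfl, hX'⟩ := split 2 I1 (by omega)
      rw [Multiset.card_add] at hm hn
      obtain ⟨b1, b2, b3, t1, t2, c, h1, h2, h3, h4, h5, h6, he⟩ :=
        core_imag k' L R I2 Z hL hR (mem_right (mem_right hI)) hZ (by omega) (by omega)
      have hzm : Allows Z6 ({s} + X') := Z_mix s hs1 hs2 X' hX'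
        (fun r hr => left_of_I (mem_left (mem_right hI) r hr))
      refine ⟨b1, b2, b3, t1, t2, X, ({s} + X') + c, h1, h2, h3, h4, h5, J_I X hX (mem_left hI),
        ?_, ?_⟩
      · rw [add_comm 1 k']
        exact ⟨{s} + X', c, hzm, h6, rfl⟩
      · have : {s} + L + R + (X + (X' + I2)) + Z = ({s} + X') + X + (L + R + I2 + Z) := by abel
        rw [this, he]
        abel

/-- Many zeros. -/
theorem cov_zero (k : ℕ) (S L R I Z : MQ) (hS : S.card ≤ 1)
    (hL : ∀ r ∈ L, IsL r) (hR : ∀ r ∈ R, IsR r) (hI : ∀ r ∈ I, IsI r) (hZ : ∀ r ∈ Z, IsZ r)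
    (hn : S.card + L.card + R.card + I.card + Z.card = 3 * k + 24) (hm : 24 ≤ Z.card) :
    Cov k (S + L + R + I + Z) := by
  obtain ⟨YA, A1, hA, hYA⟩ := split ((L + I).card % 3) (L + I) (Nat.mod_le _ _)
  obtain ⟨YR, R1, rfl, hYR⟩ := split (R.card % 3) R (Nat.mod_le _ _)
  have hLI : (L + I).card = L.card + I.card := Multiset.card_add _ _
  have hA' : YA.card + A1.card = L.card + I.card := by rw [← hLI, hA, Multiset.card_add]
  simp only [Multiset.card_add] at hn hYA hYR
  obtain ⟨X1, Z1, rfl, hX1⟩ := split 4 Z (by omega)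
  rw [Multiset.card_add] at hm hn
  obtain ⟨X2, Z2, rfl, hX2⟩ := split 4 Z1 (by omega)
  rw [Multiset.card_add] at hm hn
  obtain ⟨X3, Z3, rfl, hX3⟩ := split 4 Z2 (by omega)
  rw [Multiset.card_add] at hm hn
  obtain ⟨X4, Z4, rfl, hX4⟩ := split 4 Z3 (by omega)
  rw [Multiset.card_add] at hm hn
  have hZ4 := mem_right (mem_right (mem_right (mem_right hZ)))
  obtain ⟨X5, Z5, rfl, hX5⟩ := split (4 - S.card - YA.card) Z4 (by omega)
  rw [Multiset.card_add] at hm hn
  obtain ⟨X6, Z6', rfl, hX6⟩ := split (4 - YR.card) Z5 (by omega)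
  rw [Multiset.card_add] at hm hn
  have hmem : ∀ X : MQ, 1 ≤ X.card → (∀ r ∈ X, IsZ r) → ((0 : ℝ), (0 : ℝ)) ∈ X := by
    intro X hX hXZ
    obtain ⟨s, hs⟩ := Multiset.card_pos_iff_exists_mem.1 hX
    have : s = (0, 0) := hXZ s hs
    rwa [← this]
  have ht1 : Allows ZT (S + YA + X5) := by
    apply T_mem
    · rw [Multiset.card_add, Multiset.card_add]; omega
    · exact Multiset.mem_add.2 (Or.inr (hmem X5 (by omega) (mem_left hZ4)))
  have ht2 : Allows ZT (YR + X6) := by
    apply T_mem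
    · rw [Multiset.card_add]; omega
    · exact Multiset.mem_add.2 (Or.inr (hmem X6 (by omega) (mem_left (mem_right hZ4))))
  have hAleft : ∀ r ∈ YA + A1, Left r := by
    rw [← hA]
    exact mem_sum (fun r hr => left_of_L (hL r hr)) (fun r hr => left_of_I (hI r hr))
  have hcz : CZ k (A1 + R1 + Z6') := by
    apply cz_cover
    · exact mem_right hAleft
    · exact fun r hr => right_of_R (mem_right hR r hr)
    · exact mem_right (mem_right hZ4)
    · omega
    · omega
    · omega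
  refine ⟨X1, X2, X3, S + YA + X5, YR + X6, X4, A1 + R1 + Z6', B_Z X1 hX1 (mem_left hZ),
    B_Z X2 hX2 (mem_left (mem_right hZ)), B_Z X3 hX3 (mem_left (mem_right (mem_right hZ))),
    ht1, ht2, J_Z X4 hX4 (mem_left (mem_right (mem_right (mem_right hZ)))), hcz, ?_⟩
  have : S + L + (YR + R1) + I + (X1 + (X2 + (X3 + (X4 + (X5 + (X6 + Z6'))))))
      = (L + I) + S + (YR + R1) + (X1 + (X2 + (X3 + (X4 + (X5 + (X6 + Z6')))))) := by abel
  rw [this, hA]
  abel

/-- Everything is covered when there are at least twenty-six blocks of order six. -/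
theorem cov_all (k : ℕ) (hk : 26 ≤ k) (S L R I Z : MQ) (hS : S.card ≤ 1)
    (hS' : ∀ s ∈ S, IsBad s)
    (hL : ∀ r ∈ L, IsL r) (hR : ∀ r ∈ R, IsR r) (hI : ∀ r ∈ I, IsI r) (hZ : ∀ r ∈ Z, IsZ r)
    (hn : S.card + L.card + R.card + I.card + Z.card = 3 * k + 24) :
    Cov k (S + L + R + I + Z) := by
  have mS : ∀ s ∈ mir S, IsBad s := by
    intro s hs
    have := hS' _ (mem_mir hs)
    simpa [IsBad, scl] using this
  have mL : ∀ r ∈ mir R, IsL r := by
    intro r hr
    have := hR _ (mem_mir hr)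
    simpa [IsL, IsR, scl] using this
  have mR : ∀ r ∈ mir L, IsR r := by
    intro r hr
    have := hL _ (mem_mir hr)
    simpa [IsL, IsR, scl] using this
  have mI : ∀ r ∈ mir I, IsI r := by
    intro r hr
    have := hI _ (mem_mir hr)
    simpa [IsI, scl] using this
  have mZ : ∀ r ∈ mir Z, IsZ r := by
    intro r hr
    have h : scl (-1) r = (0, 0) := hZ _ (mem_mir hr)
    have h' := congrArg (scl (-1)) h
    rw [scl_neg_neg] at h'
    rw [IsZ, h']
    simp [scl]
  have he : mir (S + L + R + I + Z) = mir S + mir R + mir L + mir I + mir Z := by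
    simp only [mir_add]
    abel
  rcases Nat.lt_or_ge L.card 24 with h1 | h1
  · rcases Nat.lt_or_ge R.card 24 with h2 | h2
    · rcases Nat.lt_or_ge I.card 30 with h3 | h3
      · exact cov_zero k S L R I Z hS hL hR hI hZ hn (by omega)
      · by_cases h4 : ∀ s ∈ S, s.2 < 0 ∨ (s.2 = 0 ∧ 0 < s.1)
        · exact cov_imag' k S L R I Z hS h4 hL hR hI hZ hn (by omega) h3
        · apply cov_mir
          rw [he]
          refine cov_imag' k (mir S) (mir R) (mir L) (mir I) (mir Z) (by rw [card_mir]; exact hS)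
            ?_ mL mR mI mZ (by simp only [card_mir]; omega) (by omega) (by rw [card_mir]; exact h3)
          intro s hs
          push Not at h4
          obtain ⟨s', hs', h5, h6⟩ := h4
          have hs1 : S.card = 1 := by
            have : 0 < S.card := Multiset.card_pos_iff_exists_mem.2 ⟨s', hs'⟩
            omega
          obtain ⟨s0, rfl⟩ := Multiset.card_eq_one.1 hs1
          have e1 : s' = s0 := by simpa using hs'
          have e2 : scl (-1) s = s0 := by simpa using mem_mir hs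
          rw [e1] at h5 h6 hs'
          rcases hS' s0 hs' with hb | ⟨hb1, hb2⟩
          · linarith
          · right
            have h7 := h6 hb1
            have e3 : s = scl (-1) s0 := by rw [← e2, scl_neg_neg]
            rw [e3]
            have h8 : s0.1 < 0 := lt_of_le_of_ne h7 hb2
            constructor
            · simp [scl, hb1]
            · simp only [scl]; linarith
    · apply cov_mir
      rw [he]
      exact cov_left k (mir S) (mir R) (mir L) (mir I) (mir Z) (by rw [card_mir]; exact hS)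
        mS mL mR mI mZ (by simp only [card_mir]; omega) (by rw [card_mir]; exact h2)
  · exact cov_left k S L R I Z hS hS' hL hR hI hZ hn h1

end Pool.Agent.Helper778.Sap
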