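import Pool.Agent.Helper778.SapBase

set_option autoImplicit false
set_option maxHeartbeats 4000000

namespace Pool.Agent.Helper778.Sap

open Polynomial Matrix Pool.Agent.Helper778.Real

/-- A root above `-c1`. -/
theorem x4_high (c1 c2 c3 c4 : ℝ) (h : 0 < c4) :
    ∃ b, -c1 < b ∧ (b + c1) * (b ^ 3 + c1 * b ^ 2 + c2 * b + c3) = c4 := by
  let g : ℝ → ℝ := fun b => (b + c1) * (b ^ 3 + c1 * b ^ 2 + c2 * b + c3)
  obtain ⟨T, hT⟩ : ∃ T, T = 2 + |c1| + |c2| + |c3| + c4 := ⟨_, rfl⟩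
  have a1 := abs_nonneg c1
  have a2 := abs_nonneg c2
  have a3 := abs_nonneg c3
  have n1 := neg_abs_le c1
  have n2 := neg_abs_le c2
  have n3 := neg_abs_le c3
  have m1 := le_abs_self c1
  have hg : ContinuousOn g (Set.Icc (-c1) (T - c1)) := by
    apply Continuous.continuousOn
    simp only [g]
    fun_prop
  have h0 : g (-c1) ≤ c4 := by
    simp only [g]
    norm_num
    exact h.le
  have h1 : c4 ≤ g (T - c1) := by
    obtain ⟨b, hb⟩ : ∃ b, b = T - c1 := ⟨_, rfl⟩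
    have hb1 : 1 ≤ b := by linarith
    have e : g b = T * (b ^ 2 * T + c2 * b + c3) := by
      simp only [g]
      rw [hb]
      ring
    rw [← hb, e]
    have e1 : -|c2| * b ≤ c2 * b := by
      apply mul_le_mul_of_nonneg_right n2 (by linarith)
    have e2 : b * T ≤ b ^ 2 * T := by
      have : b ≤ b ^ 2 := by nlinarith
      have hT0 : 0 ≤ T := by linarith
      exact mul_le_mul_of_nonneg_right this hT0
    have e3 : b * T = b * (2 + |c1| + |c3| + c4) + b * |c2| := by rw [hT]; ring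
    have e4 : 2 + |c1| + |c3| + c4 ≤ b * (2 + |c1| + |c3| + c4) := by
      apply le_mul_of_one_le_left _ hb1
      linarith
    have e5 : c4 ≤ b ^ 2 * T + c2 * b + c3 := by linarith
    have hT1 : 1 ≤ T := by linarith
    calc c4 ≤ 1 * c4 := by linarith
      _ ≤ T * (b ^ 2 * T + c2 * b + c3) := by
        apply mul_le_mul hT1 e5 h.le (by linarith)
  obtain ⟨b, hb, hgb⟩ := intermediate_value_Icc (by linarith : -c1 ≤ T - c1) hg
    (show c4 ∈ Set.Icc (g (-c1)) (g (T - c1)) from ⟨h0, h1⟩)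
  refine ⟨b, ?_, hgb⟩
  rcases hb.1.lt_or_eq with h' | h'
  · exact h'
  · exfalso
    rw [← h'] at hgb
    simp only [g] at hgb
    norm_num at hgb
    linarith

/-- A root below `-c1`. -/
theorem x4_low (c1 c2 c3 c4 : ℝ) (h : 0 < c4) :
    ∃ b, b < -c1 ∧ (b + c1) * (b ^ 3 + c1 * b ^ 2 + c2 * b + c3) = c4 := by
  obtain ⟨b, hb, hb'⟩ := x4_high (-c1) c2 (-c3) c4 h
  refine ⟨-b, by linarith, ?_⟩
  linear_combination hb'

/-- Every real quartic with positive constant term is realized by the block of order four. -/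
theorem x4 (c1 c2 c3 c4 : ℝ) (h : 0 < c4) : ∃ a b u v : ℝ, a ≠ 0 ∧ b ≠ 0 ∧ u ≠ 0 ∧ v ≠ 0 ∧
    -(a + b) = c1 ∧ a * b - u = c2 ∧ u * b - v = c3 ∧ v * a = c4 := by
  obtain ⟨b2, h2, e2⟩ := x4_high c1 c2 c3 c4 h
  obtain ⟨b1, h1, e1⟩ := x4_low c1 c2 c3 c4 h
  have key : ∀ b, (b + c1) * (b ^ 3 + c1 * b ^ 2 + c2 * b + c3) = c4 →
      b ≠ 0 → b ^ 2 + c1 * b + c2 ≠ 0 → ∃ a b u v : ℝ, a ≠ 0 ∧ b ≠ 0 ∧ u ≠ 0 ∧ v ≠ 0 ∧
      -(a + b) = c1 ∧ a * b - u = c2 ∧ u * b - v = c3 ∧ v * a = c4 := by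
    intro b hb hb0 hu
    refine ⟨-c1 - b, b, -(b ^ 2 + c1 * b + c2), -(b ^ 3 + c1 * b ^ 2 + c2 * b + c3), ?_, hb0,
      neg_ne_zero.2 hu, ?_, by ring, by ring, by ring, by linear_combination hb⟩
    · intro h0
      have : b + c1 = 0 := by linarith
      rw [this, zero_mul] at hb
      linarith
    · intro h0
      have : b ^ 3 + c1 * b ^ 2 + c2 * b + c3 = 0 := by linarith
      rw [this, mul_zero] at hb
      linarith
  by_cases hd1 : b1 * (b1 ^ 2 + c1 * b1 + c2) = 0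
  · by_cases hd2 : b2 * (b2 ^ 2 + c1 * b2 + c2) = 0
    · exfalso
      have f1 : (b1 + c1) * c3 = c4 := by linear_combination e1 - (b1 + c1) * hd1
      have f2 : (b2 + c1) * c3 = c4 := by linear_combination e2 - (b2 + c1) * hd2
      have g1 : c3 < 0 := by
        by_contra hcon
        push Not at hcon
        have : (b1 + c1) * c3 ≤ 0 := mul_nonpos_of_nonpos_of_nonneg (by linarith) hcon
        linarith
      have : (b2 + c1) * c3 < 0 := mul_neg_of_pos_of_neg (by linarith) g1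
      linarith
    · exact key b2 e2 (left_ne_zero_of_mul hd2) (right_ne_zero_of_mul hd2)
  · exact key b1 e1 (left_ne_zero_of_mul hd1) (right_ne_zero_of_mul hd1)

/-- The pattern of the second block of order eight, with fifteen nonzero entries. -/
def ZB : Matrix (Fin 8) (Fin 8) Bool :=
  !![true, false, true, false, false, false, false, false;
     false, true, true, false, true, false, false, false;
     true, false, false, true, false, false, false, false;
     false, true, false, false, false, false, false, false;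
     false, false, false, false, true, true, false, false;
     false, false, false, false, true, false, true, false;
     false, false, false, false, false, false, false, true;
     true, false, false, false, false, false, true, false]

/-- The matrices used for the second block of order eight. -/
def MB (a b u v a' u' z k : ℝ) : Matrix (Fin 8) (Fin 8) ℝ :=
  !![a, 0, 1, 0, 0, 0, 0, 0;
     0, b, v, 0, 1, 0, 0, 0;
     u, 0, 0, 1, 0, 0, 0, 0;
     0, 1, 0, 0, 0, 0, 0, 0;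
     0, 0, 0, 0, a', 1, 0, 0;
     0, 0, 0, 0, u', 0, 1, 0;
     0, 0, 0, 0, 0, 0, 0, 1;
     k, 0, 0, 0, 0, 0, z, 0]

theorem MB_pattern (a b u v a' u' z k : ℝ) (ha : a ≠ 0) (hb : b ≠ 0) (hu : u ≠ 0) (hv : v ≠ 0)
    (ha' : a' ≠ 0) (hu' : u' ≠ 0) (hz : z ≠ 0) (hk : k ≠ 0) :
    ∀ i j, (MB a b u v a' u' z k i j ≠ 0 ↔ ZB i j = true) := by
  intro i j
  fin_cases i <;> fin_cases j <;> simp [MB, ZB, ha, hb, hu, hv, ha', hu', hz, hk]

theorem MB_det {R : Type} [CommRing R] (x a b u v a' u' z k : R) :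
    (!![x - a, 0, -1, 0, 0, 0, 0, 0;
     0, x - b, -v, 0, -1, 0, 0, 0;
     -u, 0, x, -1, 0, 0, 0, 0;
     0, -1, 0, x, 0, 0, 0, 0;
     0, 0, 0, 0, x - a', -1, 0, 0;
     0, 0, 0, 0, -u', x, -1, 0;
     0, 0, 0, 0, 0, 0, x, -1;
     -k, 0, 0, 0, 0, 0, -z, x] : Matrix (Fin 8) (Fin 8) R).det
      = (x ^ 2 - z) * (x ^ 4 + -(a + b) * x ^ 3 + (a * b - u) * x ^ 2 + (u * b - v) * x + v * a)
        * (x ^ 2 - a' * x - u') - k := by
  rw [det_eight]
  simp
  simp only [det_seven]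
  simp
  simp only [det_six]
  simp
  simp only [det_five]
  simp
  simp only [det_four]
  simp
  ring

theorem MB_charpoly (a b u v a' u' z k : ℝ) :
    (MB a b u v a' u' z k).charpoly = (X ^ 2 - C z) *
      (X ^ 4 + C (-(a + b)) * X ^ 3 + C (a * b - u) * X ^ 2 + C (u * b - v) * X + C (v * a))
        * (X ^ 2 - C a' * X - C u') - C k := by
  have h : charmatrix (MB a b u v a' u' z k) =
      !![X - C a, 0, -1, 0, 0, 0, 0, 0;
     0, X - C b, -C v, 0, -1, 0, 0, 0;
     -C u, 0, X, -1, 0, 0, 0, 0;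
     0, -1, 0, X, 0, 0, 0, 0;
     0, 0, 0, 0, X - C a', -1, 0, 0;
     0, 0, 0, 0, -C u', X, -1, 0;
     0, 0, 0, 0, 0, 0, X, -1;
     -C k, 0, 0, 0, 0, 0, -C z, X] := by
    ext i j
    fin_cases i <;> fin_cases j <;> simp [MB]
  rw [Matrix.charpoly, h, MB_det]
  simp only [map_add, map_sub, map_mul, map_neg]

/-- The second block: it is enough to factor `p - rho`. -/
theorem allowsB_of_factor {m : Multiset (ℝ × ℝ)} (z rho : ℝ) (r s q : ℝ × ℝ) (hz : z ≠ 0)
    (hrho : rho ≠ 0) (hrs : 0 < r.2 * s.2) (hq1 : q.1 ≠ 0) (hq2 : q.2 ≠ 0)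
    (h : (m.map quad).prod = (X ^ 2 - C z) * (quad r * quad s) * quad q + C rho) :
    Allows ZB m := by
  obtain ⟨a, b, u, v, ha, hb, hu, hv, e1, e2, e3, e4⟩ := x4 (r.1 + s.1)
    (r.2 + s.2 + r.1 * s.1) (r.1 * s.2 + s.1 * r.2) (r.2 * s.2) hrs
  refine ⟨MB a b u v (-q.1) (-q.2) z (-rho), MB_pattern _ _ _ _ _ _ _ _ ha hb hu hv
    (neg_ne_zero.2 hq1) (neg_ne_zero.2 hq2) hz (neg_ne_zero.2 hrho), ?_⟩
  rw [MB_charpoly, h, e1, e2, e3, e4]
  simp only [quad, map_add, map_mul, map_neg]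
  ring

end Pool.Agent.Helper778.Sap
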