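import Pool.Agent.Helper778.Real

set_option autoImplicit false

namespace Pool.Agent.Helper778.Sap

open Polynomial Matrix Pool.Agent.Helper778.Real

theorem det_seven {R : Type} [CommRing R] (A : Matrix (Fin 7) (Fin 7) R) :
    A.det = A 0 0 * (A.submatrix Fin.succ ![1, 2, 3, 4, 5, 6]).det
      - A 0 1 * (A.submatrix Fin.succ ![0, 2, 3, 4, 5, 6]).det
      + A 0 2 * (A.submatrix Fin.succ ![0, 1, 3, 4, 5, 6]).det
      - A 0 3 * (A.submatrix Fin.succ ![0, 1, 2, 4, 5, 6]).det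
      + A 0 4 * (A.submatrix Fin.succ ![0, 1, 2, 3, 5, 6]).det
      - A 0 5 * (A.submatrix Fin.succ ![0, 1, 2, 3, 4, 6]).det
      + A 0 6 * (A.submatrix Fin.succ ![0, 1, 2, 3, 4, 5]).det := by
  have e0 : (Fin.succAbove (0 : Fin 7)) = ![1, 2, 3, 4, 5, 6] := by decide
  have e1 : (Fin.succAbove (1 : Fin 7)) = ![0, 2, 3, 4, 5, 6] := by decide
  have e2 : (Fin.succAbove (2 : Fin 7)) = ![0, 1, 3, 4, 5, 6] := by decide
  have e3 : (Fin.succAbove (3 : Fin 7)) = ![0, 1, 2, 4, 5, 6] := by decide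
  have e4 : (Fin.succAbove (4 : Fin 7)) = ![0, 1, 2, 3, 5, 6] := by decide
  have e5 : (Fin.succAbove (5 : Fin 7)) = ![0, 1, 2, 3, 4, 6] := by decide
  have e6 : (Fin.succAbove (6 : Fin 7)) = ![0, 1, 2, 3, 4, 5] := by decide
  rw [det_succ_row_zero, Fin.sum_univ_seven, e0, e1, e2, e3, e4, e5, e6]
  simp
  ring

theorem det_eight {R : Type} [CommRing R] (A : Matrix (Fin 8) (Fin 8) R) :
    A.det = A 0 0 * (A.submatrix Fin.succ ![1, 2, 3, 4, 5, 6, 7]).det
      - A 0 1 * (A.submatrix Fin.succ ![0, 2, 3, 4, 5, 6, 7]).det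
      + A 0 2 * (A.submatrix Fin.succ ![0, 1, 3, 4, 5, 6, 7]).det
      - A 0 3 * (A.submatrix Fin.succ ![0, 1, 2, 4, 5, 6, 7]).det
      + A 0 4 * (A.submatrix Fin.succ ![0, 1, 2, 3, 5, 6, 7]).det
      - A 0 5 * (A.submatrix Fin.succ ![0, 1, 2, 3, 4, 6, 7]).det
      + A 0 6 * (A.submatrix Fin.succ ![0, 1, 2, 3, 4, 5, 7]).det
      - A 0 7 * (A.submatrix Fin.succ ![0, 1, 2, 3, 4, 5, 6]).det := by
  have e0 : (Fin.succAbove (0 : Fin 8)) = ![1, 2, 3, 4, 5, 6, 7] := by decide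
  have e1 : (Fin.succAbove (1 : Fin 8)) = ![0, 2, 3, 4, 5, 6, 7] := by decide
  have e2 : (Fin.succAbove (2 : Fin 8)) = ![0, 1, 3, 4, 5, 6, 7] := by decide
  have e3 : (Fin.succAbove (3 : Fin 8)) = ![0, 1, 2, 4, 5, 6, 7] := by decide
  have e4 : (Fin.succAbove (4 : Fin 8)) = ![0, 1, 2, 3, 5, 6, 7] := by decide
  have e5 : (Fin.succAbove (5 : Fin 8)) = ![0, 1, 2, 3, 4, 6, 7] := by decide
  have e6 : (Fin.succAbove (6 : Fin 8)) = ![0, 1, 2, 3, 4, 5, 7] := by decide
  have e7 : (Fin.succAbove (7 : Fin 8)) = ![0, 1, 2, 3, 4, 5, 6] := by decide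
  rw [det_succ_row_zero, Fin.sum_univ_eight, e0, e1, e2, e3, e4, e5, e6, e7]
  simp
  ring

/-- Some matrix with the pattern `Z` has the product of the given quadratics as its
characteristic polynomial. -/
def Allows {ι : Type} [Fintype ι] [DecidableEq ι] (Z : Matrix ι ι Bool)
    (m : Multiset (ℝ × ℝ)) : Prop :=
  ∃ M : Matrix ι ι ℝ, (∀ i j, (M i j ≠ 0 ↔ Z i j = true)) ∧ M.charpoly = (m.map quad).prod

theorem multiset_monic (m : Multiset (ℝ × ℝ)) : (m.map quad).prod.Monic := by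
  induction m using Multiset.induction_on with
  | empty => simp
  | cons r A ih => simpa using (quad_monic r).mul ih

theorem multiset_natDegree (m : Multiset (ℝ × ℝ)) :
    (m.map quad).prod.natDegree = 2 * m.card := by
  induction m using Multiset.induction_on with
  | empty => simp
  | cons r A ih =>
    rw [Multiset.map_cons, Multiset.prod_cons, (quad_monic r).natDegree_mul (multiset_monic A),
      ih, quad_natDegree, Multiset.card_cons]
    ring

/-- Scaling a quadratic: its roots are multiplied by `t`. -/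
def scl (t : ℝ) (r : ℝ × ℝ) : ℝ × ℝ := (t * r.1, t ^ 2 * r.2)

theorem eval_scl (t x : ℝ) (ht : t ≠ 0) (r : ℝ × ℝ) :
    (quad (scl t r)).eval x = t ^ 2 * (quad r).eval (t⁻¹ * x) := by
  simp only [quad, scl, eval_add, eval_pow, eval_X, eval_mul, eval_C]
  field_simp

theorem eval_scl_prod (t x : ℝ) (ht : t ≠ 0) (m : Multiset (ℝ × ℝ)) :
    (((m.map (scl t)).map quad).prod).eval x
      = t ^ (2 * m.card) * ((m.map quad).prod).eval (t⁻¹ * x) := by
  induction m using Multiset.induction_on with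
  | empty => simp
  | cons r A ih =>
    simp only [Multiset.map_cons, Multiset.prod_cons, eval_mul, Multiset.card_cons] at ih ⊢
    rw [ih, eval_scl t x ht]
    ring

theorem allows_scale {ι : Type} [Fintype ι] [DecidableEq ι] {Z : Matrix ι ι Bool}
    {m : Multiset (ℝ × ℝ)} (t : ℝ) (ht : t ≠ 0) (h : Allows Z m) :
    Allows Z (m.map (scl t)) := by
  obtain ⟨M, hM, hc⟩ := h
  refine ⟨t • M, ?_, ?_⟩
  · intro i j
    rw [← hM i j]
    simp [ht]
  · have hcard : Fintype.card ι = 2 * m.card := by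
      rw [← multiset_natDegree, ← hc, charpoly_natDegree_eq_dim]
    apply Polynomial.funext
    intro x
    rw [eval_scl_prod t x ht, ← hc, ← hcard, eval_charpoly, eval_charpoly, ← det_smul]
    congr 1
    ext i j
    by_cases hij : i = j
    · subst hij
      simp [scalar_apply, diagonal_apply]
      field_simp
    · simp [scalar_apply, diagonal_apply, hij]

end Pool.Agent.Helper778.Sap
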