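import Pool.Agent.Helper778.SapBase

set_option autoImplicit false
set_option maxHeartbeats 4000000

namespace Pool.Agent.Helper778.Sap

open Polynomial Matrix Pool.Agent.Helper778.Real

/-- The pattern of the first block of order eight, with fifteen nonzero entries. -/
def ZJ : Matrix (Fin 8) (Fin 8) Bool :=
  !![true, false, false, false, false, false, true, false;
     false, false, false, true, false, true, false, false;
     false, true, false, false, false, false, false, false;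
     false, false, false, false, true, false, false, false;
     true, false, false, false, false, false, false, true;
     false, false, false, false, false, false, true, true;
     true, false, true, false, false, false, false, true;
     false, false, false, false, false, true, false, true]

/-- The matrices used for the first block of order eight. -/
def MJ (a b u w y v s d : ℝ) : Matrix (Fin 8) (Fin 8) ℝ :=
  !![a, 0, 0, 0, 0, 0, 1, 0;
     0, 0, 0, 1, 0, 1, 0, 0;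
     0, 1, 0, 0, 0, 0, 0, 0;
     0, 0, 0, 0, 1, 0, 0, 0;
     1, 0, 0, 0, 0, 0, 0, 1;
     0, 0, 0, 0, 0, 0, s, w;
     u, 0, d, 0, 0, 0, 0, v;
     0, 0, 0, 0, 0, y, 0, b]

theorem MJ_pattern (a b u w y v s d : ℝ) (ha : a ≠ 0) (hb : b ≠ 0) (hu : u ≠ 0) (hw : w ≠ 0)
    (hy : y ≠ 0) (hv : v ≠ 0) (hs : s ≠ 0) (hd : d ≠ 0) :
    ∀ i j, (MJ a b u w y v s d i j ≠ 0 ↔ ZJ i j = true) := by
  intro i j
  fin_cases i <;> fin_cases j <;> simp [MJ, ZJ, ha, hb, hu, hw, hy, hv, hs, hd]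

theorem MJ_det {R : Type} [CommRing R] (x a b u w y v s d : R) :
    (!![x - a, 0, 0, 0, 0, 0, -1, 0;
     0, x, 0, -1, 0, -1, 0, 0;
     0, -1, x, 0, 0, 0, 0, 0;
     0, 0, 0, x, -1, 0, 0, 0;
     -1, 0, 0, 0, x, 0, 0, -1;
     0, 0, 0, 0, 0, x, -s, -w;
     -u, 0, -d, 0, 0, 0, x, -v;
     0, 0, 0, 0, 0, -y, 0, x - b] : Matrix (Fin 8) (Fin 8) R).det
      = x ^ 8 + -(a + b) * x ^ 7 + (a * b - u - w * y) * x ^ 6
        + (u * b + a * w * y - s * v * y) * x ^ 5
        + (u * w * y + a * s * v * y - s * d) * x ^ 4 + ((a + b) * s * d) * x ^ 3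
        + (-d - a * b * s * d) * x ^ 2 + (b * d - s * d * y) * x
        + (w * d * y + a * s * d * y) := by
  rw [det_eight]
  simp
  simp only [det_seven]
  simp
  simp only [det_six]
  simp
  simp only [det_five]
  simp
  simp only [det_four]
  simp
  ring

theorem MJ_charpoly (a b u w y v s d : ℝ) :
    (MJ a b u w y v s d).charpoly = X ^ 8 + C (-(a + b)) * X ^ 7
        + C (a * b - u - w * y) * X ^ 6
        + C (u * b + a * w * y - s * v * y) * X ^ 5
        + C (u * w * y + a * s * v * y - s * d) * X ^ 4 + C ((a + b) * s * d) * X ^ 3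
        + C (-d - a * b * s * d) * X ^ 2 + C (b * d - s * d * y) * X
        + C (w * d * y + a * s * d * y) := by
  have h : charmatrix (MJ a b u w y v s d) =
      !![X - C a, 0, 0, 0, 0, 0, -1, 0;
     0, X, 0, -1, 0, -1, 0, 0;
     0, -1, X, 0, 0, 0, 0, 0;
     0, 0, 0, X, -1, 0, 0, 0;
     -1, 0, 0, 0, X, 0, 0, -1;
     0, 0, 0, 0, 0, X, -C s, -C w;
     -C u, 0, -C d, 0, 0, 0, X, -C v;
     0, 0, 0, 0, 0, -C y, 0, X - C b] := by
    ext i j
    fin_cases i <;> fin_cases j <;> simp [MJ]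
  rw [Matrix.charpoly, h, MJ_det]
  simp only [map_add, map_sub, map_mul, map_neg]

/-- The coefficient equations of the first block of order eight. -/
def SolJ (f1 f2 f3 f4 f5 f6 f7 f8 : ℝ) : Prop :=
  ∃ a b u w y v s d : ℝ, a ≠ 0 ∧ b ≠ 0 ∧ u ≠ 0 ∧ w ≠ 0 ∧ y ≠ 0 ∧ v ≠ 0 ∧ s ≠ 0 ∧ d ≠ 0 ∧
    -(a + b) = f1 ∧ a * b - u - w * y = f2 ∧ u * b + a * w * y - s * v * y = f3 ∧
    u * w * y + a * s * v * y - s * d = f4 ∧ (a + b) * s * d = f5 ∧
    -d - a * b * s * d = f6 ∧ b * d - s * d * y = f7 ∧ w * d * y + a * s * d * y = f8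

theorem solJ_zero : SolJ 0 0 0 0 0 0 0 0 :=
  ⟨1, -1, -2, -1, -1, -3, 1, 1, by norm_num, by norm_num, by norm_num, by norm_num,
    by norm_num, by norm_num, by norm_num, by norm_num, by norm_num, by norm_num, by norm_num,
    by norm_num, by norm_num, by norm_num, by norm_num, by norm_num⟩

/-- Even polynomials with nonnegative coefficients and positive constant coefficient. -/
theorem solJ_even (f2 f4 f6 f8 : ℝ) (h2 : 0 ≤ f2) (h4 : 0 ≤ f4) (h6 : 0 ≤ f6) (h8 : 0 < f8) :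
    SolJ 0 f2 0 f4 0 f6 0 f8 := by
  let F : ℝ → ℝ := fun a => a ^ 6 - a ^ 4 - a ^ 2 * (1 + f2 + f4) - (f6 + f8)
  have hF : ContinuousOn F (Set.Icc 0 (2 + f2 + f4 + f6 + f8)) := by
    apply Continuous.continuousOn
    simp only [F]
    fun_prop
  set c := 2 + f2 + f4 + f6 + f8 with hc
  have hc2 : 2 < c := by rw [hc]; linarith
  have hF0 : F 0 < 0 := by
    simp only [F]
    norm_num
    linarith
  have hF1 : 0 < F c := by
    have e1 : c ^ 2 * (1 + f2 + f4) + (f6 + f8) ≤ c ^ 2 * (c - 1) := by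
      have : c ^ 2 * (c - 1) - c ^ 2 * (1 + f2 + f4) = c ^ 2 * (f6 + f8) := by
        rw [hc]; ring
      have h1 : (1 : ℝ) ≤ c ^ 2 := by nlinarith
      nlinarith
    have e2 : c ^ 2 * (c - 1) < c ^ 6 - c ^ 4 := by
      have : c ^ 6 - c ^ 4 - c ^ 2 * (c - 1) = c ^ 2 * (c - 1) * (c ^ 2 * (c + 1) - 1) := by
        ring
      have h1 : 0 < c ^ 2 * (c - 1) * (c ^ 2 * (c + 1) - 1) := by
        have : 0 < c - 1 := by linarith
        have : 0 < c ^ 2 * (c + 1) - 1 := by nlinarith [sq_nonneg c]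
        positivity
      linarith
    simp only [F]
    linarith
  obtain ⟨a, ha, hFa⟩ := intermediate_value_Icc (by linarith : (0 : ℝ) ≤ c) hF
    (show (0 : ℝ) ∈ Set.Icc (F 0) (F c) from ⟨hF0.le, hF1.le⟩)
  have ha0 : 0 < a := by
    rcases ha.1.lt_or_eq with h | h
    · exact h
    · rw [← h] at hFa
      exact absurd hFa hF0.ne
  simp only [F] at hFa
  have hs : 0 < (1 + f6 / f8) / a ^ 2 := by positivity
  set s := (1 + f6 / f8) / a ^ 2 with hs'
  have hsa : s * a ^ 2 * f8 = f8 + f6 := by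
    rw [hs']; field_simp
  have hane : a ≠ 0 := ha0.ne'
  have hsne : s ≠ 0 := hs.ne'
  have hwy : -((1 + a ^ 2) * s / a) * -(a / s) = 1 + a ^ 2 := by
    field_simp
  have hsy : s * -(a / s) = -a := by
    field_simp
  refine ⟨a, -a, -f2 - a ^ 2 - (1 + a ^ 2), -((1 + a ^ 2) * s / a), -(a / s),
    -f2 - a ^ 2 - 2 * (1 + a ^ 2), s, f8, hane, neg_ne_zero.2 hane, ?_, ?_, ?_, ?_, hsne, h8.ne',
    ?_, ?_, ?_, ?_, ?_, ?_, ?_, ?_⟩
  · have : 0 < a ^ 2 := by positivity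
    exact (by linarith : -f2 - a ^ 2 - (1 + a ^ 2) < 0).ne
  · exact neg_ne_zero.2 (by positivity)
  · exact neg_ne_zero.2 (by positivity)
  · have : 0 < a ^ 2 := by positivity
    exact (by linarith : -f2 - a ^ 2 - 2 * (1 + a ^ 2) < 0).ne
  · ring
  · rw [hwy]; ring
  · linear_combination a * hwy + (f2 + a ^ 2 + 2 * (1 + a ^ 2)) * hsy
  · have hA : a ^ 2 ≠ 0 := by positivity
    apply mul_left_cancel₀ hA
    linear_combination a ^ 2 * (-f2 - a ^ 2 - (1 + a ^ 2)) * hwy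
      + a ^ 2 * a * (-f2 - a ^ 2 - 2 * (1 + a ^ 2)) * hsy - hsa + hFa
  · ring
  · linear_combination hsa
  · linear_combination -f8 * hsy
  · linear_combination f8 * hwy + a * f8 * hsy

/-- Two real roots of opposite signs and otherwise purely imaginary roots. -/
theorem solJ_mixed (a b g1 g2 g3 : ℝ) (hab : a * b < 0) (h1 : 0 ≤ g1) (h2 : 0 < g2)
    (h3 : 0 < g3) :
    SolJ (-(a + b)) (g1 + a * b) (-(a + b) * g1) (g2 + a * b * g1) (-(a + b) * g2)
      (g3 + a * b * g2) (-(a + b) * g3) (a * b * g3) := by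
  have ha : a ≠ 0 := by rintro rfl; simp at hab
  have hb : b ≠ 0 := by rintro rfl; simp at hab
  have hba : b - a ≠ 0 := by
    intro h
    have : b = a := by linarith
    rw [this] at hab
    nlinarith [sq_nonneg a]
  have hsq : 0 < (b - a) ^ 2 := by positivity
  refine ⟨a, b, a * (b - a) - g1, (b - a) * g2 / g3, -(a * g3 / g2), -g1 - (b - a) ^ 2,
    g2 / g3, -g3, ha, hb, ?_, ?_, ?_, ?_, ?_, ?_, ?_, ?_, ?_, ?_, ?_, ?_, ?_, ?_⟩
  · have : 0 ≤ a ^ 2 := sq_nonneg a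
    exact (by nlinarith : a * (b - a) - g1 < 0).ne
  · positivity
  · exact neg_ne_zero.2 (by positivity)
  · exact (by linarith : -g1 - (b - a) ^ 2 < 0).ne
  · positivity
  · exact neg_ne_zero.2 h3.ne'
  · ring
  · field_simp; ring
  · field_simp; ring
  · field_simp; ring
  · field_simp
  · field_simp; ring
  · field_simp; ring
  · field_simp; ring

/-- From a suitable root of the main equation to a solution. -/
theorem solJ_of_root (f1 f2 f3 f4 K f6 f7 f8 a D x V : ℝ) (p1 : 0 < f1) (p2 : 0 < f2)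
    (h12 : f3 < f1 * f2) (pK : 0 < K) (ha : 0 < a) (hx : x = a ^ 2 + f1 * a)
    (hDdef : D = f6 + K * x) (hD : 0 < D) (hVD : V * D = f8 + a * f7) (hV0 : 0 < V)
    (hVX : V < x) (hf8 : 0 < f8)
    (hroot : a ^ 3 * (a + f1) + (a ^ 2 + 2 * f1 * a + f2) * V - V ^ 2 - (f4 - K + a * f3)
      = 0) :
    SolJ f1 f2 f3 f4 (f1 * K) f6 f7 f8 := by
  have hxpos : 0 < x := hV0.trans hVX
  have hNX : f8 + a * f7 < x * D := by
    rw [← hVD]
    exact mul_lt_mul_of_pos_right hVX hD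
  have hyneg : f7 - (a + f1) * D < 0 := by
    have e2 : x * D = a * ((a + f1) * D) := by rw [hx]; ring
    have e1 : a * f7 < a * ((a + f1) * D) := by
      rw [← e2]; linarith
    have := lt_of_mul_lt_mul_left e1 ha.le
    linarith
  obtain ⟨y, hy⟩ : ∃ y, y = (f7 - (a + f1) * D) / K := ⟨_, rfl⟩
  have hyne : y ≠ 0 := by
    rw [hy]; exact (div_neg_of_neg_of_pos hyneg pK).ne
  have hyK : K * y = f7 - (a + f1) * D := by rw [hy]; field_simp
  obtain ⟨s, hs⟩ : ∃ s, s = K / D := ⟨_, rfl⟩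
  have hsD : s * D = K := by rw [hs]; field_simp
  have hsne : s ≠ 0 := by rw [hs]; positivity
  obtain ⟨w, hw⟩ : ∃ w, w = (x - V) / y := ⟨_, rfl⟩
  have hwy : w * y = x - V := by rw [hw]; field_simp
  have hwne : w ≠ 0 := by
    intro h0
    rw [h0, zero_mul] at hwy
    linarith
  have hQ : 0 < (-2 * x - f2 + V) * (-f1 - a) + a * (x - V) - f3 := by
    have e1 : 0 < (x - V) * (f1 + 2 * a) := mul_pos (by linarith) (by linarith)
    have e2 : 0 < (x + f2) * a := by positivity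
    have e3 : 0 < x * f1 := by positivity
    have e4 : (-2 * x - f2 + V) * (-f1 - a) + a * (x - V) - f3
        = (x - V) * (f1 + 2 * a) + (x + f2) * a + x * f1 + (f1 * f2 - f3) := by ring
    rw [e4]
    linarith
  obtain ⟨v, hv⟩ : ∃ v, v = ((-2 * x - f2 + V) * (-f1 - a) + a * (x - V) - f3) / (s * y) :=
    ⟨_, rfl⟩
  have hsvy : s * v * y = (-2 * x - f2 + V) * (-f1 - a) + a * (x - V) - f3 := by
    rw [hv]; field_simp
  have hvne : v ≠ 0 := by
    intro h0
    rw [h0] at hsvy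
    simp only [mul_zero, zero_mul] at hsvy
    linarith
  refine ⟨a, -f1 - a, -2 * x - f2 + V, w, y, v, s, -D, ha.ne', ?_, ?_, hwne, hyne, hvne, hsne,
    neg_ne_zero.2 hD.ne', ?_, ?_, ?_, ?_, ?_, ?_, ?_, ?_⟩
  · exact (by linarith : -f1 - a < 0).ne
  · exact (by linarith : -2 * x - f2 + V < 0).ne
  · ring
  · linear_combination -hwy + hx
  · linear_combination a * hwy - hsvy
  · linear_combination (-2 * x - f2 + V) * hwy + a * hsvy + hsD + hroot
      + (-f2 + 3 * V + a ^ 2 - 2 * x) * hx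
  · linear_combination f1 * hsD
  · linear_combination hDdef - a * (f1 + a) * hsD + K * hx
  · linear_combination y * hsD + hyK
  · linear_combination -D * hwy - a * y * hsD - a * hyK + hVD - D * hx

/-- The first auxiliary root. -/
theorem auxJ (f1 K f6 f7 f8 : ℝ) (p1 : 0 < f1) (pK : 0 < K) (p6 : 0 < f6)
    (p8 : 0 < f8) (h16 : f7 < f1 * f6) :
    ∃ a0 : ℝ, 0 < a0 ∧ K * (a0 ^ 2 + f1 * a0) ^ 2 + f6 * (a0 ^ 2 + f1 * a0) - f7 * a0 - f8 = 0 ∧
      ∀ c, a0 < c → 0 < K * (c ^ 2 + f1 * c) ^ 2 + f6 * (c ^ 2 + f1 * c) - f7 * c - f8 := by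
  let h : ℝ → ℝ := fun a => K * (a ^ 2 + f1 * a) ^ 2 + f6 * (a ^ 2 + f1 * a) - f7 * a - f8
  have hhc : ContinuousOn h (Set.Icc 0 (1 + f8 / f6)) := by
    apply Continuous.continuousOn
    simp only [h]
    fun_prop
  have hh0 : h 0 < 0 := by
    simp only [h]
    norm_num
    exact p8
  have hmono : ∀ a c : ℝ, 0 ≤ a → a < c → h a < h c := by
    intro a c ha hac
    have e1 : (a ^ 2 + f1 * a) ^ 2 ≤ (c ^ 2 + f1 * c) ^ 2 := by
      have : 0 ≤ a ^ 2 + f1 * a := by positivity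
      have : a ^ 2 + f1 * a ≤ c ^ 2 + f1 * c := by nlinarith
      gcongr
    have e2 : f6 * a ^ 2 ≤ f6 * c ^ 2 := by
      have : a ^ 2 ≤ c ^ 2 := by nlinarith
      gcongr
    have e3 : (f1 * f6 - f7) * a < (f1 * f6 - f7) * c := by
      have : 0 < f1 * f6 - f7 := by linarith
      gcongr
    have e4 : K * (a ^ 2 + f1 * a) ^ 2 ≤ K * (c ^ 2 + f1 * c) ^ 2 := by gcongr
    simp only [h]
    linarith
  have hh1 : 0 < h (1 + f8 / f6) := by
    have e1 : 0 < f8 / f6 := by positivity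
    have e2 : f6 * (1 + f8 / f6) = f6 + f8 := by field_simp
    obtain ⟨c, hc⟩ : ∃ c, c = 1 + f8 / f6 := ⟨_, rfl⟩
    rw [← hc] at e2 ⊢
    have hc1 : 1 < c := by linarith
    have e3 : f6 * c ≤ f6 * c ^ 2 := by
      have : c ≤ c ^ 2 := by nlinarith
      gcongr
    have e4 : 0 < (f1 * f6 - f7) * c := by
      have : 0 < f1 * f6 - f7 := by linarith
      positivity
    have e5 : 0 ≤ K * (c ^ 2 + f1 * c) ^ 2 := by positivity
    simp only [h]
    linarith
  obtain ⟨a0, ha0, hha0⟩ := intermediate_value_Icc (by positivity : (0 : ℝ) ≤ 1 + f8 / f6) hhc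
    (show (0 : ℝ) ∈ Set.Icc (h 0) (h (1 + f8 / f6)) from ⟨hh0.le, hh1.le⟩)
  have ha0p : 0 < a0 := by
    rcases ha0.1.lt_or_eq with h' | h'
    · exact h'
    · rw [← h'] at hha0
      exact absurd hha0 hh0.ne
  refine ⟨a0, ha0p, hha0, ?_⟩
  intro c hc
  have := hmono a0 c ha0p.le hc
  rw [hha0] at this
  exact this

/-- Polynomials with all roots in the open left half plane: the analytic core. -/
theorem solJ_left (f1 f2 f3 f4 K f6 f7 f8 : ℝ) (p1 : 0 < f1) (p2 : 0 < f2) (p3 : 0 < f3)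
    (p4 : 0 < f4) (pK : 0 < K) (p6 : 0 < f6) (p7 : 0 < f7) (p8 : 0 < f8)
    (h16 : f7 < f1 * f6) (h12 : f3 < f1 * f2) (h35 : f7 < f3 * K) (h36 : f2 * f7 ≤ f3 * f6)
    (h48 : f3 * f8 ≤ (f4 - K) * f7) :
    SolJ f1 f2 f3 f4 (f1 * K) f6 f7 f8 := by
  obtain ⟨a0, ha0p, hha0, hmono⟩ := auxJ f1 K f6 f7 f8 p1 pK p6 p8 h16
  -- the main equation
  let F : ℝ → ℝ := fun a => a ^ 3 * (a + f1) * (f6 + K * (a ^ 2 + f1 * a)) ^ 2
    + (a ^ 2 + 2 * f1 * a + f2) * (f8 + a * f7) * (f6 + K * (a ^ 2 + f1 * a))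
    - (f8 + a * f7) ^ 2 - (f4 - K + a * f3) * (f6 + K * (a ^ 2 + f1 * a)) ^ 2
  have hFc : ContinuousOn F (Set.Icc a0 (a0 + 1 + f3 + f4)) := by
    apply Continuous.continuousOn
    simp only [F]
    fun_prop
  have hDpos : ∀ a : ℝ, 0 ≤ a → 0 < f6 + K * (a ^ 2 + f1 * a) := by
    intro a ha
    positivity
  have hF0 : F a0 < 0 := by
    have hD := hDpos a0 ha0p.le
    have hN : f8 + a0 * f7 = (a0 ^ 2 + f1 * a0) * (f6 + K * (a0 ^ 2 + f1 * a0)) := by
      linear_combination -hha0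
    have hF : F a0 = (f6 + K * (a0 ^ 2 + f1 * a0)) ^ 2 *
        ((a0 ^ 2 + f1 * a0) ^ 2 + f2 * (a0 ^ 2 + f1 * a0) - f3 * a0 - f4 + K) := by
      simp only [F]
      rw [hN]
      ring
    have hg : f7 * ((a0 ^ 2 + f1 * a0) ^ 2 + f2 * (a0 ^ 2 + f1 * a0) - f3 * a0 - f4 + K)
        = -((f3 * K - f7) * (a0 ^ 2 + f1 * a0) ^ 2 + (f3 * f6 - f2 * f7) * (a0 ^ 2 + f1 * a0)
          + ((f4 - K) * f7 - f3 * f8)) := by
      linear_combination f3 * hha0
    have hX : 0 < a0 ^ 2 + f1 * a0 := by positivity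
    have hneg : f7 * ((a0 ^ 2 + f1 * a0) ^ 2 + f2 * (a0 ^ 2 + f1 * a0) - f3 * a0 - f4 + K)
        < 0 := by
      rw [hg]
      have e1 : 0 < (f3 * K - f7) * (a0 ^ 2 + f1 * a0) ^ 2 := by
        have : 0 < f3 * K - f7 := by linarith
        positivity
      have e2 : 0 ≤ (f3 * f6 - f2 * f7) * (a0 ^ 2 + f1 * a0) := by
        have : 0 ≤ f3 * f6 - f2 * f7 := by linarith
        positivity
      linarith
    have hneg' : (a0 ^ 2 + f1 * a0) ^ 2 + f2 * (a0 ^ 2 + f1 * a0) - f3 * a0 - f4 + K < 0 := by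
      by_contra hcon
      push Not at hcon
      have := mul_nonneg p7.le hcon
      linarith
    rw [hF]
    exact mul_neg_of_pos_of_neg (by positivity) hneg'
  have hF1 : 0 < F (a0 + 1 + f3 + f4) := by
    obtain ⟨c, hc⟩ : ∃ c, c = a0 + 1 + f3 + f4 := ⟨_, rfl⟩
    rw [← hc]
    have hc1 : 1 < c := by linarith
    have hD := hDpos c (by linarith)
    have hhc' := hmono c (by linarith)
    have hN : f8 + c * f7 < (c ^ 2 + f1 * c) * (f6 + K * (c ^ 2 + f1 * c)) := by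
      linarith
    have hN0 : 0 < f8 + c * f7 := by positivity
    have hF : F c = (f6 + K * (c ^ 2 + f1 * c)) ^ 2 * (c ^ 4 + f1 * c ^ 3 - f3 * c - f4 + K)
        + (f8 + c * f7) * ((c ^ 2 + 2 * f1 * c + f2) * (f6 + K * (c ^ 2 + f1 * c))
          - (f8 + c * f7)) := by
      simp only [F]
      ring
    rw [hF]
    have e1 : 0 < c ^ 4 + f1 * c ^ 3 - f3 * c - f4 + K := by
      have g0 : 1 ≤ c * c := by nlinarith
      have g1 : c * c ≤ c ^ 4 := by
        have : c ^ 4 = (c * c) * (c * c) := by ring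
        rw [this]
        nlinarith
      have g2 : c * c = c * a0 + c + c * f3 + c * f4 := by
        nth_rewrite 2 [hc]; ring
      have g3 : f4 ≤ c * f4 := by nlinarith
      have g4 : 0 < c * a0 := by positivity
      have g5 : 0 < f1 * c ^ 3 := by positivity
      linarith
    have e2 : 0 < (c ^ 2 + 2 * f1 * c + f2) * (f6 + K * (c ^ 2 + f1 * c)) - (f8 + c * f7) := by
      have g1 : 0 < (f1 * c + f2) * (f6 + K * (c ^ 2 + f1 * c)) := by positivity
      have g2 : (c ^ 2 + 2 * f1 * c + f2) * (f6 + K * (c ^ 2 + f1 * c))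
        = (c ^ 2 + f1 * c) * (f6 + K * (c ^ 2 + f1 * c))
          + (f1 * c + f2) * (f6 + K * (c ^ 2 + f1 * c)) := by ring
      rw [g2]
      linarith
    have e3 := mul_pos hN0 e2
    have e4 : 0 < (f6 + K * (c ^ 2 + f1 * c)) ^ 2 * (c ^ 4 + f1 * c ^ 3 - f3 * c - f4 + K) := by
      positivity
    linarith
  obtain ⟨a, ha, hFa⟩ := intermediate_value_Icc (by linarith : a0 ≤ a0 + 1 + f3 + f4) hFc
    (show (0 : ℝ) ∈ Set.Icc (F a0) (F (a0 + 1 + f3 + f4)) from ⟨hF0.le, hF1.le⟩)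
  have haa0 : a0 < a := by
    rcases ha.1.lt_or_eq with h' | h'
    · exact h'
    · rw [← h'] at hFa
      exact absurd hFa hF0.ne
  have hap : 0 < a := ha0p.trans haa0
  have hha := hmono a haa0
  have hD : 0 < f6 + K * (a ^ 2 + f1 * a) := hDpos a hap.le
  obtain ⟨D, hDdef⟩ : ∃ D, D = f6 + K * (a ^ 2 + f1 * a) := ⟨_, rfl⟩
  obtain ⟨x, hx⟩ : ∃ x, x = a ^ 2 + f1 * a := ⟨_, rfl⟩
  have hFa' : a ^ 3 * (a + f1) * D ^ 2 + (a ^ 2 + 2 * f1 * a + f2) * (f8 + a * f7) * D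
    - (f8 + a * f7) ^ 2 - (f4 - K + a * f3) * D ^ 2 = 0 := by
    rw [hDdef]; exact hFa
  have hD' : 0 < D := by rw [hDdef]; exact hD
  have hxpos : 0 < x := by rw [hx]; positivity
  have hND : f8 + a * f7 < x * D := by
    rw [hDdef, hx]; linarith
  have hVD : (f8 + a * f7) / D * D = f8 + a * f7 := by field_simp
  refine solJ_of_root f1 f2 f3 f4 K f6 f7 f8 a D x ((f8 + a * f7) / D) p1 p2 h12 pK hap hx
    (by rw [hDdef, hx]) hD' hVD (by positivity) ?_ p8 ?_
  · rw [div_lt_iff₀ hD']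
    exact hND
  · obtain ⟨V, hV⟩ : ∃ V, V = (f8 + a * f7) / D := ⟨_, rfl⟩
    rw [← hV] at hVD ⊢
    have hD2 : D ^ 2 ≠ 0 := by positivity
    apply mul_left_cancel₀ hD2
    rw [mul_zero, ← hFa', ← hVD]
    ring

end Pool.Agent.Helper778.Sap
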