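import Pool.Agent.Helper778.SapJ

set_option autoImplicit false
set_option maxHeartbeats 4000000
set_option maxRecDepth 10000

namespace Pool.Agent.Helper778.Sap

open Polynomial Matrix Pool.Agent.Helper778.Real

theorem ineq16 (a b c d p q r s : ℝ) (ha : 0 < a) (hb : 0 < b) (hc : 0 < c) (hd : 0 < d)
    (hp : 0 < p) (hq : 0 < q) (hr : 0 < r) (hs : 0 < s) :
    ((a * q + b * p) * (r * s) + p * q * (c * s + d * r)) <
      ((a + b) + (c + d)) * ((p + q + a * b) * (r * s) + p * q * (r + s + c * d)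
        + (a * q + b * p) * (c * s + d * r)) := by
  rw [← sub_pos]
  ring_nf
  positivity

theorem ineq12 (a b c d p q r s : ℝ) (ha : 0 < a) (hb : 0 < b) (hc : 0 < c) (hd : 0 < d)
    (hp : 0 < p) (hq : 0 < q) (hr : 0 < r) (hs : 0 < s) :
    ((a * q + b * p) + (c * s + d * r) + (a + b) * (r + s + c * d)
        + (p + q + a * b) * (c + d)) <
      ((a + b) + (c + d)) * ((p + q + a * b) + (r + s + c * d) + (a + b) * (c + d)) := by
  rw [← sub_pos]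
  ring_nf
  positivity

theorem ineq35 (a b c d p q r s : ℝ) (ha : 0 < a) (hb : 0 < b) (hc : 0 < c) (hd : 0 < d)
    (hp : 0 < p) (hq : 0 < q) (hr : 0 < r) (hs : 0 < s) :
    ((a + b) + (c + d)) * ((a * q + b * p) * (r * s) + p * q * (c * s + d * r)) <
      ((a * q + b * p) + (c * s + d * r) + (a + b) * (r + s + c * d)
        + (p + q + a * b) * (c + d)) *
      ((a + b) * (r * s) + (p * q) * (c + d) + (p + q + a * b) * (c * s + d * r)
        + (a * q + b * p) * (r + s + c * d)) := by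
  have h : ((a * q + b * p) + (c * s + d * r) + (a + b) * (r + s + c * d)
        + (p + q + a * b) * (c + d)) *
      ((a + b) * (r * s) + (p * q) * (c + d) + (p + q + a * b) * (c * s + d * r)
        + (a * q + b * p) * (r + s + c * d))
      - ((a + b) + (c + d)) * ((a * q + b * p) * (r * s) + p * q * (c * s + d * r))
      = a ^ 2 * b ^ 2 * c ^ 2 * s + a ^ 2 * b ^ 2 * c * d * r + a ^ 2 * b ^ 2 * c * d * s
      + a ^ 2 * b ^ 2 * d ^ 2 * r + a ^ 2 * b * c ^ 2 * d * q + a ^ 2 * b * c ^ 2 * d * s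
      + a ^ 2 * b * c * d ^ 2 * q + a ^ 2 * b * c * d ^ 2 * r + a ^ 2 * b * c * q * r
      + 2 * a ^ 2 * b * c * q * s + 2 * a ^ 2 * b * c * r * s + a ^ 2 * b * c * s ^ 2
      + 2 * a ^ 2 * b * d * q * r + a ^ 2 * b * d * q * s + a ^ 2 * b * d * r ^ 2
      + 2 * a ^ 2 * b * d * r * s + a ^ 2 * c ^ 2 * d ^ 2 * q + a ^ 2 * c * d * q ^ 2
      + 2 * a ^ 2 * c * d * q * r + 2 * a ^ 2 * c * d * q * s + a ^ 2 * c * d * r * s
      + a ^ 2 * q ^ 2 * r + a ^ 2 * q ^ 2 * s + a ^ 2 * q * r ^ 2 + 2 * a ^ 2 * q * r * s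
      + a ^ 2 * q * s ^ 2 + a ^ 2 * r ^ 2 * s + a ^ 2 * r * s ^ 2
      + a * b ^ 2 * c ^ 2 * d * p + a * b ^ 2 * c ^ 2 * d * s + a * b ^ 2 * c * d ^ 2 * p
      + a * b ^ 2 * c * d ^ 2 * r + a * b ^ 2 * c * p * r + 2 * a * b ^ 2 * c * p * s
      + 2 * a * b ^ 2 * c * r * s + a * b ^ 2 * c * s ^ 2 + 2 * a * b ^ 2 * d * p * r
      + a * b ^ 2 * d * p * s + a * b ^ 2 * d * r ^ 2 + 2 * a * b ^ 2 * d * r * s
      + a * b * c ^ 2 * d ^ 2 * p + a * b * c ^ 2 * d ^ 2 * q + a * b * c ^ 2 * p * q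
      + 2 * a * b * c ^ 2 * p * s + 2 * a * b * c ^ 2 * q * s + a * b * c ^ 2 * s ^ 2
      + 4 * a * b * c * d * p * q + 4 * a * b * c * d * p * r + 4 * a * b * c * d * p * s
      + 4 * a * b * c * d * q * r + 4 * a * b * c * d * q * s + 4 * a * b * c * d * r * s
      + a * b * d ^ 2 * p * q + 2 * a * b * d ^ 2 * p * r + 2 * a * b * d ^ 2 * q * r
      + a * b * d ^ 2 * r ^ 2 + 2 * a * b * p * q * r + 2 * a * b * p * q * s
      + a * b * p * r ^ 2 + 2 * a * b * p * r * s + a * b * p * s ^ 2 + a * b * q * r ^ 2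
      + 2 * a * b * q * r * s + a * b * q * s ^ 2 + 2 * a * b * r ^ 2 * s
      + 2 * a * b * r * s ^ 2 + 2 * a * c ^ 2 * d * p * q + a * c ^ 2 * d * p * s
      + a * c ^ 2 * d * q ^ 2 + 2 * a * c ^ 2 * d * q * s + 2 * a * c * d ^ 2 * p * q
      + a * c * d ^ 2 * p * r + a * c * d ^ 2 * q ^ 2 + 2 * a * c * d ^ 2 * q * r
      + a * c * p * q ^ 2 + 2 * a * c * p * q * r + 2 * a * c * p * q * s
      + 2 * a * c * p * r * s + a * c * p * s ^ 2 + a * c * q ^ 2 * r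
      + 2 * a * c * q ^ 2 * s + 2 * a * c * q * r * s + 2 * a * c * q * s ^ 2
      + a * c * r * s ^ 2 + a * d * p * q ^ 2 + 2 * a * d * p * q * r
      + 2 * a * d * p * q * s + a * d * p * r ^ 2 + 2 * a * d * p * r * s
      + 2 * a * d * q ^ 2 * r + a * d * q ^ 2 * s + 2 * a * d * q * r ^ 2
      + 2 * a * d * q * r * s + a * d * r ^ 2 * s + b ^ 2 * c ^ 2 * d ^ 2 * p
      + b ^ 2 * c * d * p ^ 2 + 2 * b ^ 2 * c * d * p * r + 2 * b ^ 2 * c * d * p * s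
      + b ^ 2 * c * d * r * s + b ^ 2 * p ^ 2 * r + b ^ 2 * p ^ 2 * s + b ^ 2 * p * r ^ 2
      + 2 * b ^ 2 * p * r * s + b ^ 2 * p * s ^ 2 + b ^ 2 * r ^ 2 * s + b ^ 2 * r * s ^ 2
      + b * c ^ 2 * d * p ^ 2 + 2 * b * c ^ 2 * d * p * q + 2 * b * c ^ 2 * d * p * s
      + b * c ^ 2 * d * q * s + b * c * d ^ 2 * p ^ 2 + 2 * b * c * d ^ 2 * p * q
      + 2 * b * c * d ^ 2 * p * r + b * c * d ^ 2 * q * r + b * c * p ^ 2 * q
      + b * c * p ^ 2 * r + 2 * b * c * p ^ 2 * s + 2 * b * c * p * q * r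
      + 2 * b * c * p * q * s + 2 * b * c * p * r * s + 2 * b * c * p * s ^ 2
      + 2 * b * c * q * r * s + b * c * q * s ^ 2 + b * c * r * s ^ 2 + b * d * p ^ 2 * q
      + 2 * b * d * p ^ 2 * r + b * d * p ^ 2 * s + 2 * b * d * p * q * r
      + 2 * b * d * p * q * s + 2 * b * d * p * r ^ 2 + 2 * b * d * p * r * s
      + b * d * q * r ^ 2 + 2 * b * d * q * r * s + b * d * r ^ 2 * s + c ^ 2 * p ^ 2 * q
      + c ^ 2 * p ^ 2 * s + c ^ 2 * p * q ^ 2 + 2 * c ^ 2 * p * q * s + c ^ 2 * p * s ^ 2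
      + c ^ 2 * q ^ 2 * s + c ^ 2 * q * s ^ 2 + 2 * c * d * p ^ 2 * q + c * d * p ^ 2 * r
      + c * d * p ^ 2 * s + 2 * c * d * p * q ^ 2 + 2 * c * d * p * q * r
      + 2 * c * d * p * q * s + 2 * c * d * p * r * s + c * d * q ^ 2 * r
      + c * d * q ^ 2 * s + 2 * c * d * q * r * s + d ^ 2 * p ^ 2 * q + d ^ 2 * p ^ 2 * r
      + d ^ 2 * p * q ^ 2 + 2 * d ^ 2 * p * q * r + d ^ 2 * p * r ^ 2 + d ^ 2 * q ^ 2 * r
      + d ^ 2 * q * r ^ 2 := by ring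
  rw [← sub_pos, h]
  positivity

theorem ineq36 (a b c d p q r s : ℝ) (ha : 0 < a) (hb : 0 < b) (hc : 0 < c) (hd : 0 < d)
    (hp : 0 < p) (hq : 0 < q) (hr : 0 < r) (hs : 0 < s) :
    ((p + q + a * b) + (r + s + c * d) + (a + b) * (c + d)) * ((a * q + b * p) * (r * s) + p * q * (c * s + d * r)) ≤
      ((a * q + b * p) + (c * s + d * r) + (a + b) * (r + s + c * d)
        + (p + q + a * b) * (c + d)) *
      ((p + q + a * b) * (r * s) + p * q * (r + s + c * d)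
        + (a * q + b * p) * (c * s + d * r)) := by
  have h : ((a * q + b * p) + (c * s + d * r) + (a + b) * (r + s + c * d)
        + (p + q + a * b) * (c + d)) *
      ((p + q + a * b) * (r * s) + p * q * (r + s + c * d)
        + (a * q + b * p) * (c * s + d * r))
      - ((p + q + a * b) + (r + s + c * d) + (a + b) * (c + d)) * ((a * q + b * p) * (r * s) + p * q * (c * s + d * r))
      = a ^ 2 * b ^ 2 * c * r * s + a ^ 2 * b ^ 2 * d * r * s + a ^ 2 * b * c ^ 2 * q * s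
      + a ^ 2 * b * c * d * q * r + a ^ 2 * b * c * d * q * s + a ^ 2 * b * c * d * r * s
      + a ^ 2 * b * d ^ 2 * q * r + a ^ 2 * b * r ^ 2 * s + a ^ 2 * b * r * s ^ 2
      + a ^ 2 * c ^ 2 * d * q * s + a ^ 2 * c * d ^ 2 * q * r + a ^ 2 * c * q ^ 2 * s
      + a ^ 2 * c * q * s ^ 2 + a ^ 2 * d * q ^ 2 * r + a ^ 2 * d * q * r ^ 2
      + a * b ^ 2 * c ^ 2 * p * s + a * b ^ 2 * c * d * p * r + a * b ^ 2 * c * d * p * s
      + a * b ^ 2 * c * d * r * s + a * b ^ 2 * d ^ 2 * p * r + a * b ^ 2 * r ^ 2 * s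
      + a * b ^ 2 * r * s ^ 2 + a * b * c ^ 2 * d * p * q + a * b * c ^ 2 * d * p * s
      + a * b * c ^ 2 * d * q * s + a * b * c * d ^ 2 * p * q + a * b * c * d ^ 2 * p * r
      + a * b * c * d ^ 2 * q * r + a * b * c * p * q * r + 2 * a * b * c * p * q * s
      + 2 * a * b * c * p * r * s + a * b * c * p * s ^ 2 + 2 * a * b * c * q * r * s
      + a * b * c * q * s ^ 2 + a * b * c * r * s ^ 2 + 2 * a * b * d * p * q * r
      + a * b * d * p * q * s + a * b * d * p * r ^ 2 + 2 * a * b * d * p * r * s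
      + a * b * d * q * r ^ 2 + 2 * a * b * d * q * r * s + a * b * d * r ^ 2 * s
      + a * c ^ 2 * d ^ 2 * p * q + a * c ^ 2 * q ^ 2 * s + a * c ^ 2 * q * s ^ 2
      + a * c * d * p * q ^ 2 + 2 * a * c * d * p * q * r + 2 * a * c * d * p * q * s
      + a * c * d * p * r * s + a * c * d * q ^ 2 * r + a * c * d * q ^ 2 * s
      + 2 * a * c * d * q * r * s + a * d ^ 2 * q ^ 2 * r + a * d ^ 2 * q * r ^ 2
      + a * p * q ^ 2 * r + a * p * q ^ 2 * s + a * p * q * r ^ 2 + 2 * a * p * q * r * s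
      + a * p * q * s ^ 2 + a * p * r ^ 2 * s + a * p * r * s ^ 2
      + b ^ 2 * c ^ 2 * d * p * s + b ^ 2 * c * d ^ 2 * p * r + b ^ 2 * c * p ^ 2 * s
      + b ^ 2 * c * p * s ^ 2 + b ^ 2 * d * p ^ 2 * r + b ^ 2 * d * p * r ^ 2
      + b * c ^ 2 * d ^ 2 * p * q + b * c ^ 2 * p ^ 2 * s + b * c ^ 2 * p * s ^ 2
      + b * c * d * p ^ 2 * q + b * c * d * p ^ 2 * r + b * c * d * p ^ 2 * s
      + 2 * b * c * d * p * q * r + 2 * b * c * d * p * q * s + 2 * b * c * d * p * r * s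
      + b * c * d * q * r * s + b * d ^ 2 * p ^ 2 * r + b * d ^ 2 * p * r ^ 2
      + b * p ^ 2 * q * r + b * p ^ 2 * q * s + b * p * q * r ^ 2 + 2 * b * p * q * r * s
      + b * p * q * s ^ 2 + b * q * r ^ 2 * s + b * q * r * s ^ 2 + c ^ 2 * d * p ^ 2 * q
      + c ^ 2 * d * p * q ^ 2 + c * d ^ 2 * p ^ 2 * q + c * d ^ 2 * p * q ^ 2
      + c * p ^ 2 * q * r + c * p ^ 2 * r * s + c * p * q ^ 2 * r + 2 * c * p * q * r * s
      + c * p * r * s ^ 2 + c * q ^ 2 * r * s + c * q * r * s ^ 2 + d * p ^ 2 * q * s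
      + d * p ^ 2 * r * s + d * p * q ^ 2 * s + 2 * d * p * q * r * s + d * p * r ^ 2 * s
      + d * q ^ 2 * r * s + d * q * r ^ 2 * s := by ring
  rw [← sub_nonneg, h]
  positivity

theorem ineq48 (a b c d p q r s : ℝ) (ha : 0 < a) (hb : 0 < b) (hc : 0 < c) (hd : 0 < d)
    (hp : 0 < p) (hq : 0 < q) (hr : 0 < r) (hs : 0 < s) :
    ((a + b) + (c + d)) * ((a * q + b * p) + (c * s + d * r) + (a + b) * (r + s + c * d)
        + (p + q + a * b) * (c + d)) * (p * q * (r * s)) ≤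
      (((a + b) + (c + d)) * (p * q + r * s + (a + b) * (c * s + d * r) + (a * q + b * p) * (c + d)
        + (p + q + a * b) * (r + s + c * d))
      - ((a + b) * (r * s) + (p * q) * (c + d) + (p + q + a * b) * (c * s + d * r)
        + (a * q + b * p) * (r + s + c * d))) * ((a * q + b * p) * (r * s) + p * q * (c * s + d * r)) := by
  have h : (((a + b) + (c + d)) * (p * q + r * s + (a + b) * (c * s + d * r) + (a * q + b * p) * (c + d)
        + (p + q + a * b) * (r + s + c * d))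
      - ((a + b) * (r * s) + (p * q) * (c + d) + (p + q + a * b) * (c * s + d * r)
        + (a * q + b * p) * (r + s + c * d))) * ((a * q + b * p) * (r * s) + p * q * (c * s + d * r))
      - ((a + b) + (c + d)) * ((a * q + b * p) + (c * s + d * r) + (a + b) * (r + s + c * d)
        + (p + q + a * b) * (c + d)) * (p * q * (r * s))
      = (a * b * r * s * (r + s) * (p - q) ^ 2 + a * c * q * s * (q + s) * (p - r) ^ 2
        + a * d * q * r * (q + r) * (p - s) ^ 2 + b * c * p * s * (p + s) * (q - r) ^ 2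
        + b * d * p * r * (p + r) * (q - s) ^ 2 + c * d * p * q * (p + q) * (r - s) ^ 2) +
      (a ^ 3 * b * c * d * q * r * s + a ^ 3 * b * q * r ^ 2 * s + a ^ 3 * b * q * r * s ^ 2
      + a ^ 3 * c * q ^ 2 * r * s + a ^ 3 * c * q * r * s ^ 2 + a ^ 3 * d * q ^ 2 * r * s
      + a ^ 3 * d * q * r ^ 2 * s + a ^ 2 * b ^ 2 * c * d * p * r * s
      + a ^ 2 * b ^ 2 * c * d * q * r * s + a ^ 2 * b ^ 2 * p * r ^ 2 * s
      + a ^ 2 * b ^ 2 * p * r * s ^ 2 + a ^ 2 * b ^ 2 * q * r ^ 2 * s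
      + a ^ 2 * b ^ 2 * q * r * s ^ 2 + a ^ 2 * b * c ^ 2 * d * p * q * s
      + a ^ 2 * b * c ^ 2 * d * q * r * s + a ^ 2 * b * c * d ^ 2 * p * q * r
      + a ^ 2 * b * c * d ^ 2 * q * r * s + 2 * a ^ 2 * b * c * p * q * r * s
      + a ^ 2 * b * c * p * q * s ^ 2 + a ^ 2 * b * c * p * r * s ^ 2
      + a ^ 2 * b * c * q ^ 2 * r * s + a ^ 2 * b * c * q * r ^ 2 * s
      + 2 * a ^ 2 * b * c * q * r * s ^ 2 + a ^ 2 * b * d * p * q * r ^ 2
      + 2 * a ^ 2 * b * d * p * q * r * s + a ^ 2 * b * d * p * r ^ 2 * s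
      + a ^ 2 * b * d * q ^ 2 * r * s + 2 * a ^ 2 * b * d * q * r ^ 2 * s
      + a ^ 2 * b * d * q * r * s ^ 2 + a ^ 2 * c ^ 2 * p * q ^ 2 * s
      + a ^ 2 * c ^ 2 * p * q * s ^ 2 + a ^ 2 * c ^ 2 * q ^ 2 * r * s
      + a ^ 2 * c ^ 2 * q * r * s ^ 2 + a ^ 2 * c * d * p * q ^ 2 * r
      + a ^ 2 * c * d * p * q ^ 2 * s + 2 * a ^ 2 * c * d * p * q * r * s
      + 2 * a ^ 2 * c * d * q ^ 2 * r * s + a ^ 2 * c * d * q * r ^ 2 * s
      + a ^ 2 * c * d * q * r * s ^ 2 + a ^ 2 * d ^ 2 * p * q ^ 2 * r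
      + a ^ 2 * d ^ 2 * p * q * r ^ 2 + a ^ 2 * d ^ 2 * q ^ 2 * r * s
      + a ^ 2 * d ^ 2 * q * r ^ 2 * s + a * b ^ 3 * c * d * p * r * s
      + a * b ^ 3 * p * r ^ 2 * s + a * b ^ 3 * p * r * s ^ 2
      + a * b ^ 2 * c ^ 2 * d * p * q * s + a * b ^ 2 * c ^ 2 * d * p * r * s
      + a * b ^ 2 * c * d ^ 2 * p * q * r + a * b ^ 2 * c * d ^ 2 * p * r * s
      + a * b ^ 2 * c * p ^ 2 * r * s + 2 * a * b ^ 2 * c * p * q * r * s
      + a * b ^ 2 * c * p * q * s ^ 2 + a * b ^ 2 * c * p * r ^ 2 * s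
      + 2 * a * b ^ 2 * c * p * r * s ^ 2 + a * b ^ 2 * c * q * r * s ^ 2
      + a * b ^ 2 * d * p ^ 2 * r * s + a * b ^ 2 * d * p * q * r ^ 2
      + 2 * a * b ^ 2 * d * p * q * r * s + 2 * a * b ^ 2 * d * p * r ^ 2 * s
      + a * b ^ 2 * d * p * r * s ^ 2 + a * b ^ 2 * d * q * r ^ 2 * s
      + a * b * c ^ 3 * d * p * q * s + a * b * c ^ 2 * d ^ 2 * p * q * r
      + a * b * c ^ 2 * d ^ 2 * p * q * s + a * b * c ^ 2 * p ^ 2 * q * s
      + a * b * c ^ 2 * p * q ^ 2 * s + 2 * a * b * c ^ 2 * p * q * r * s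
      + 2 * a * b * c ^ 2 * p * q * s ^ 2 + a * b * c ^ 2 * p * r * s ^ 2
      + a * b * c ^ 2 * q * r * s ^ 2 + a * b * c * d ^ 3 * p * q * r
      + a * b * c * d * p ^ 2 * q * r + a * b * c * d * p ^ 2 * q * s
      + a * b * c * d * p ^ 2 * r * s + a * b * c * d * p * q ^ 2 * r
      + a * b * c * d * p * q ^ 2 * s + a * b * c * d * p * q * r ^ 2
      + 4 * a * b * c * d * p * q * r * s + a * b * c * d * p * q * s ^ 2
      + a * b * c * d * p * r ^ 2 * s + a * b * c * d * p * r * s ^ 2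
      + a * b * c * d * q ^ 2 * r * s + a * b * c * d * q * r ^ 2 * s
      + a * b * c * d * q * r * s ^ 2 + a * b * d ^ 2 * p ^ 2 * q * r
      + a * b * d ^ 2 * p * q ^ 2 * r + 2 * a * b * d ^ 2 * p * q * r ^ 2
      + 2 * a * b * d ^ 2 * p * q * r * s + a * b * d ^ 2 * p * r ^ 2 * s
      + a * b * d ^ 2 * q * r ^ 2 * s + a * c ^ 3 * p * q ^ 2 * s
      + a * c ^ 3 * p * q * s ^ 2 + a * c ^ 2 * d * p ^ 2 * q * s
      + a * c ^ 2 * d * p * q ^ 2 * r + 2 * a * c ^ 2 * d * p * q ^ 2 * s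
      + 2 * a * c ^ 2 * d * p * q * r * s + a * c ^ 2 * d * p * q * s ^ 2
      + a * c ^ 2 * d * q ^ 2 * r * s + a * c * d ^ 2 * p ^ 2 * q * r
      + 2 * a * c * d ^ 2 * p * q ^ 2 * r + a * c * d ^ 2 * p * q ^ 2 * s
      + a * c * d ^ 2 * p * q * r ^ 2 + 2 * a * c * d ^ 2 * p * q * r * s
      + a * c * d ^ 2 * q ^ 2 * r * s + a * d ^ 3 * p * q ^ 2 * r
      + a * d ^ 3 * p * q * r ^ 2 + b ^ 3 * c * p ^ 2 * r * s + b ^ 3 * c * p * r * s ^ 2
      + b ^ 3 * d * p ^ 2 * r * s + b ^ 3 * d * p * r ^ 2 * s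
      + b ^ 2 * c ^ 2 * p ^ 2 * q * s + b ^ 2 * c ^ 2 * p ^ 2 * r * s
      + b ^ 2 * c ^ 2 * p * q * s ^ 2 + b ^ 2 * c ^ 2 * p * r * s ^ 2
      + b ^ 2 * c * d * p ^ 2 * q * r + b ^ 2 * c * d * p ^ 2 * q * s
      + 2 * b ^ 2 * c * d * p ^ 2 * r * s + 2 * b ^ 2 * c * d * p * q * r * s
      + b ^ 2 * c * d * p * r ^ 2 * s + b ^ 2 * c * d * p * r * s ^ 2
      + b ^ 2 * d ^ 2 * p ^ 2 * q * r + b ^ 2 * d ^ 2 * p ^ 2 * r * s
      + b ^ 2 * d ^ 2 * p * q * r ^ 2 + b ^ 2 * d ^ 2 * p * r ^ 2 * s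
      + b * c ^ 3 * p ^ 2 * q * s + b * c ^ 3 * p * q * s ^ 2
      + b * c ^ 2 * d * p ^ 2 * q * r + 2 * b * c ^ 2 * d * p ^ 2 * q * s
      + b * c ^ 2 * d * p ^ 2 * r * s + b * c ^ 2 * d * p * q ^ 2 * s
      + 2 * b * c ^ 2 * d * p * q * r * s + b * c ^ 2 * d * p * q * s ^ 2
      + 2 * b * c * d ^ 2 * p ^ 2 * q * r + b * c * d ^ 2 * p ^ 2 * q * s
      + b * c * d ^ 2 * p ^ 2 * r * s + b * c * d ^ 2 * p * q ^ 2 * r
      + b * c * d ^ 2 * p * q * r ^ 2 + 2 * b * c * d ^ 2 * p * q * r * s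
      + b * d ^ 3 * p ^ 2 * q * r + b * d ^ 3 * p * q * r ^ 2 + c ^ 3 * d * p ^ 2 * q * s
      + c ^ 3 * d * p * q ^ 2 * s + c ^ 2 * d ^ 2 * p ^ 2 * q * r
      + c ^ 2 * d ^ 2 * p ^ 2 * q * s + c ^ 2 * d ^ 2 * p * q ^ 2 * r
      + c ^ 2 * d ^ 2 * p * q ^ 2 * s + c * d ^ 3 * p ^ 2 * q * r
      + c * d ^ 3 * p * q ^ 2 * r) := by ring
  rw [← sub_nonneg, h]
  positivity

end Pool.Agent.Helper778.Sap
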