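import Pool.Agent.Helper778.SapJ2

set_option autoImplicit false
set_option maxHeartbeats 4000000
set_option maxRecDepth 10000

namespace Pool.Agent.Helper778.Sap

open Polynomial Matrix Pool.Agent.Helper778.Real

/-- The coefficients of a product of four quadratics. -/
theorem quad4 (a b c d p q r s : ℝ) :
    quad (a, p) * quad (b, q) * quad (c, r) * quad (d, s) =
      X ^ 8 + C ((a + b) + (c + d)) * X ^ 7
      + C ((p + q + a * b) + (r + s + c * d) + (a + b) * (c + d)) * X ^ 6
      + C ((a * q + b * p) + (c * s + d * r) + (a + b) * (r + s + c * d)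
        + (p + q + a * b) * (c + d)) * X ^ 5
      + C (p * q + r * s + (a + b) * (c * s + d * r) + (a * q + b * p) * (c + d)
        + (p + q + a * b) * (r + s + c * d)) * X ^ 4
      + C ((a + b) * (r * s) + (p * q) * (c + d) + (p + q + a * b) * (c * s + d * r)
        + (a * q + b * p) * (r + s + c * d)) * X ^ 3
      + C ((p + q + a * b) * (r * s) + p * q * (r + s + c * d)
        + (a * q + b * p) * (c * s + d * r)) * X ^ 2
      + C ((a * q + b * p) * (r * s) + p * q * (c * s + d * r)) * X
      + C (p * q * (r * s)) := by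
  simp only [quad, map_add, map_mul]
  ring

theorem allowsJ_of_sol {f1 f2 f3 f4 f5 f6 f7 f8 : ℝ} {m : Multiset (ℝ × ℝ)}
    (h : SolJ f1 f2 f3 f4 f5 f6 f7 f8)
    (hm : (m.map quad).prod = X ^ 8 + C f1 * X ^ 7 + C f2 * X ^ 6 + C f3 * X ^ 5 + C f4 * X ^ 4
      + C f5 * X ^ 3 + C f6 * X ^ 2 + C f7 * X + C f8) : Allows ZJ m := by
  obtain ⟨a, b, u, w, y, v, s, d, ha, hb, hu, hw, hy, hv, hs, hd, e1, e2, e3, e4, e5, e6, e7,
    e8⟩ := h
  refine ⟨MJ a b u w y v s d, MJ_pattern a b u w y v s d ha hb hu hw hy hv hs hd, ?_⟩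
  rw [MJ_charpoly, hm, e1, e2, e3, e4, e5, e6, e7, e8]

theorem four_prod (r1 r2 r3 r4 : ℝ × ℝ) :
    ((({r1, r2, r3, r4} : Multiset (ℝ × ℝ)).map quad).prod)
      = quad r1 * quad r2 * quad r3 * quad r4 := by
  simp [mul_assoc]

/-- The first block allows four quadratics with roots in the open left half plane. -/
theorem allowsJ_left (r1 r2 r3 r4 : ℝ × ℝ) (h1 : 0 < r1.1 ∧ 0 < r1.2) (h2 : 0 < r2.1 ∧ 0 < r2.2)
    (h3 : 0 < r3.1 ∧ 0 < r3.2) (h4 : 0 < r4.1 ∧ 0 < r4.2) :
    Allows ZJ {r1, r2, r3, r4} := by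
  obtain ⟨a, p⟩ := r1
  obtain ⟨b, q⟩ := r2
  obtain ⟨c, r⟩ := r3
  obtain ⟨d, s⟩ := r4
  obtain ⟨ha, hp⟩ := h1
  obtain ⟨hb, hq⟩ := h2
  obtain ⟨hc, hr⟩ := h3
  obtain ⟨hd, hs⟩ := h4
  simp only at ha hp hb hq hc hr hd hs
  have i16 := ineq16 a b c d p q r s ha hb hc hd hp hq hr hs
  have i12 := ineq12 a b c d p q r s ha hb hc hd hp hq hr hs
  have i35 := ineq35 a b c d p q r s ha hb hc hd hp hq hr hs
  have i36 := ineq36 a b c d p q r s ha hb hc hd hp hq hr hs
  have i48 := ineq48 a b c d p q r s ha hb hc hd hp hq hr hs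
  have e := quad4 a b c d p q r s
  rw [← four_prod] at e
  have p1 : 0 < ((a + b) + (c + d)) := by positivity
  have p2 : 0 < ((p + q + a * b) + (r + s + c * d) + (a + b) * (c + d)) := by positivity
  have p3 : 0 < ((a * q + b * p) + (c * s + d * r) + (a + b) * (r + s + c * d)
        + (p + q + a * b) * (c + d)) := by positivity
  have p4 : 0 < (p * q + r * s + (a + b) * (c * s + d * r) + (a * q + b * p) * (c + d)
        + (p + q + a * b) * (r + s + c * d)) := by positivity
  have p5 : 0 < ((a + b) * (r * s) + (p * q) * (c + d) + (p + q + a * b) * (c * s + d * r)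
        + (a * q + b * p) * (r + s + c * d)) := by positivity
  have p6 : 0 < ((p + q + a * b) * (r * s) + p * q * (r + s + c * d)
        + (a * q + b * p) * (c * s + d * r)) := by positivity
  have p7 : 0 < ((a * q + b * p) * (r * s) + p * q * (c * s + d * r)) := by positivity
  have p8 : 0 < (p * q * (r * s)) := by positivity
  generalize ((a + b) + (c + d)) = f1 at *
  generalize ((p + q + a * b) + (r + s + c * d) + (a + b) * (c + d)) = f2 at *
  generalize ((a * q + b * p) + (c * s + d * r) + (a + b) * (r + s + c * d)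
        + (p + q + a * b) * (c + d)) = f3 at *
  generalize (p * q + r * s + (a + b) * (c * s + d * r) + (a * q + b * p) * (c + d)
        + (p + q + a * b) * (r + s + c * d)) = f4 at *
  generalize ((a + b) * (r * s) + (p * q) * (c + d) + (p + q + a * b) * (c * s + d * r)
        + (a * q + b * p) * (r + s + c * d)) = f5 at *
  generalize ((p + q + a * b) * (r * s) + p * q * (r + s + c * d)
        + (a * q + b * p) * (c * s + d * r)) = f6 at *
  generalize ((a * q + b * p) * (r * s) + p * q * (c * s + d * r)) = f7 at *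
  generalize (p * q * (r * s)) = f8 at *
  have hK : f1 * (f5 / f1) = f5 := by field_simp
  have hsol := solJ_left f1 f2 f3 f4 (f5 / f1) f6 f7 f8 p1 p2 p3 p4 (by positivity) p6 p7 p8
    i16 i12 ?_ i36 ?_
  · rw [hK] at hsol
    exact allowsJ_of_sol hsol e
  · rw [mul_div_assoc', lt_div_iff₀ p1]
    linarith
  · have : (f4 - f5 / f1) * f7 = (f1 * f4 - f5) * f7 / f1 := by field_simp
    rw [this, le_div_iff₀ p1]
    linarith

/-- The first block allows four quadratics with nonzero purely imaginary roots. -/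
theorem allowsJ_imag (p q r s : ℝ) (hp : 0 < p) (hq : 0 < q) (hr : 0 < r) (hs : 0 < s) :
    Allows ZJ {(0, p), (0, q), (0, r), (0, s)} := by
  apply allowsJ_of_sol (solJ_even (p + q + r + s) (p * q + r * s + (p + q) * (r + s))
    (p * q * (r + s) + (p + q) * (r * s)) (p * q * (r * s)) (by positivity) (by positivity)
    (by positivity) (by positivity))
  rw [four_prod]
  simp only [quad, map_add, map_mul, map_zero]
  ring

/-- The first block allows the nilpotent matrices. -/
theorem allowsJ_zero : Allows ZJ {(0, 0), (0, 0), (0, 0), (0, 0)} := by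
  apply allowsJ_of_sol solJ_zero
  rw [four_prod]
  simp only [quad, map_zero]
  ring

/-- The first block allows two real roots of opposite signs and purely imaginary roots. -/
theorem allowsJ_mixed (r0 : ℝ × ℝ) (h0 : r0.2 < 0) (p q r : ℝ) (hp : 0 < p) (hq : 0 < q)
    (hr : 0 < r) : Allows ZJ {r0, (0, p), (0, q), (0, r)} := by
  obtain ⟨α, β⟩ := r0
  simp only at h0
  have hD : 0 ≤ α ^ 2 - 4 * β := by nlinarith [sq_nonneg α]
  have hs := Real.sq_sqrt hD
  obtain ⟨D, hDdef⟩ : ∃ D, D = Real.sqrt (α ^ 2 - 4 * β) := ⟨_, rfl⟩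
  rw [← hDdef] at hs
  have hab : (-α + D) / 2 * ((-α - D) / 2) = β := by linear_combination (-1 / 4) * hs
  have hsum : -((-α + D) / 2 + (-α - D) / 2) = α := by ring
  have h := solJ_mixed ((-α + D) / 2) ((-α - D) / 2) (p + q + r) (p * q + (p + q) * r)
    (p * q * r) (by rw [hab]; exact h0) (by positivity) (by positivity) (by positivity)
  rw [hsum, hab] at h
  apply allowsJ_of_sol h
  rw [four_prod]
  simp only [quad, map_add, map_mul, map_zero]
  ring

end Pool.Agent.Helper778.Sap
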