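import Pool.Agent.Helper778.SapAsm

set_option autoImplicit false
set_option maxHeartbeats 4000000

namespace Pool.Agent.Helper778.Sap

open Polynomial Matrix Pool.Agent.Helper778.Real

theorem prod_add_quad (M N : MQ) :
    ((M + N).map quad).prod = (M.map quad).prod * (N.map quad).prod := by
  rw [Multiset.map_add, Multiset.prod_add]

theorem prod_zeros (m : ℕ) : ((Multiset.replicate m ((0 : ℝ), (0 : ℝ))).map quad).prod
    = X ^ (2 * m) := by
  rw [Multiset.map_replicate, Multiset.prod_replicate, pow_mul]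
  congr 1
  simp [quad]

theorem prod_single (r : ℝ × ℝ) : ((({r} : MQ)).map quad).prod = quad r := by simp

/-- Every monic real polynomial of even degree is a product of quadratics of the four good
types and at most one exceptional one. -/
theorem normal_form (N : ℕ) (p : ℝ[X]) (hp : IsMonicOfDegree p (2 * N)) :
    ∃ S L R I Z : MQ, S.card ≤ 1 ∧ (∀ s ∈ S, IsBad s) ∧
      (∀ r ∈ L, IsL r) ∧ (∀ r ∈ R, IsR r) ∧ (∀ r ∈ I, IsI r) ∧ (∀ r ∈ Z, IsZ r) ∧
      S.card + L.card + R.card + I.card + Z.card = N ∧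
      p = ((S + L + R + I + Z).map quad).prod := by
  classical
  obtain ⟨A, B, U, V, m, hA, hB, hU, hV, hU1, hV1, hpe⟩ :=
    decomposition _ p hp.monic hp.natDegree_eq
  have hcount : 2 * A.length + 2 * B.length + U.length + V.length + m = 2 * N := by
    rw [← hp.natDegree_eq, hpe, ((((quads_monic A).mul (quads_monic B)).mul (lins_monic U)).mul
      (lins_monic V)).natDegree_mul (monic_X_pow m),
      (((quads_monic A).mul (quads_monic B)).mul (lins_monic U)).natDegree_mul (lins_monic V),
      ((quads_monic A).mul (quads_monic B)).natDegree_mul (lins_monic U),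
      (quads_monic A).natDegree_mul (quads_monic B), quads_natDegree, quads_natDegree,
      lins_natDegree, lins_natDegree, natDegree_X_pow]
  -- splitting the two lists
  have eA : (A.map quad).prod = (((A : MQ).filter (fun r => 0 < r.1)).map quad).prod
      * (((A : MQ).filter (fun r => ¬ 0 < r.1)).map quad).prod := by
    rw [← prod_add_quad, Multiset.filter_add_not, Multiset.map_coe, Multiset.prod_coe]
  have eB : (B.map quad).prod = (((B : MQ).filter (fun r => r.1 < 0)).map quad).prod
      * (((B : MQ).filter (fun r => ¬ r.1 < 0)).map quad).prod := by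
    rw [← prod_add_quad, Multiset.filter_add_not, Multiset.map_coe, Multiset.prod_coe]
  have cA : ((A : MQ).filter (fun r => 0 < r.1)).card
      + ((A : MQ).filter (fun r => ¬ 0 < r.1)).card = A.length := by
    rw [← Multiset.card_add, Multiset.filter_add_not, Multiset.coe_card]
  have cB : ((B : MQ).filter (fun r => r.1 < 0)).card
      + ((B : MQ).filter (fun r => ¬ r.1 < 0)).card = B.length := by
    rw [← Multiset.card_add, Multiset.filter_add_not, Multiset.coe_card]
  have hL : ∀ r ∈ (A : MQ).filter (fun r => 0 < r.1), IsL r := by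
    intro r hr
    rw [Multiset.mem_filter] at hr
    exact ⟨hr.2, (hA r (by simpa using hr.1)).2⟩
  have hR : ∀ r ∈ (B : MQ).filter (fun r => r.1 < 0), IsR r := by
    intro r hr
    rw [Multiset.mem_filter] at hr
    exact ⟨hr.2, (hB r (by simpa using hr.1)).2⟩
  have hI : ∀ r ∈ (A : MQ).filter (fun r => ¬ 0 < r.1) + (B : MQ).filter (fun r => ¬ r.1 < 0),
      IsI r := by
    intro r hr
    rcases Multiset.mem_add.1 hr with hr | hr
    · rw [Multiset.mem_filter] at hr
      have h := hA r (by simpa using hr.1)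
      exact ⟨le_antisymm (not_lt.1 hr.2) h.1, h.2⟩
    · rw [Multiset.mem_filter] at hr
      have h := hB r (by simpa using hr.1)
      exact ⟨le_antisymm h.1 (not_lt.1 hr.2), h.2⟩
  have hZ : ∀ m', ∀ r ∈ Multiset.replicate m' ((0 : ℝ), (0 : ℝ)), IsZ r := by
    intro m' r hr
    exact Multiset.eq_of_mem_replicate hr
  generalize (A : MQ).filter (fun r => 0 < r.1) = L at *
  generalize (A : MQ).filter (fun r => ¬ 0 < r.1) = IA at *
  generalize (B : MQ).filter (fun r => r.1 < 0) = R at *
  generalize (B : MQ).filter (fun r => ¬ r.1 < 0) = IB at *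
  match U, V, hU, hV, hU1, hV1, hpe, hcount with
  | [], [], _, _, _, _, hpe, hcount =>
    simp only [List.length_nil, add_zero] at hcount
    obtain ⟨m', rfl⟩ : ∃ m', m = 2 * m' := ⟨m / 2, by omega⟩
    refine ⟨0, L, R, IA + IB, Multiset.replicate m' (0, 0), by simp, by simp, hL, hR, hI, hZ m',
      ?_, ?_⟩
    · rw [Multiset.card_zero, Multiset.card_add, Multiset.card_replicate]
      omega
    · rw [hpe, eA, eB]
      simp only [prod_add_quad, prod_zeros, Multiset.map_zero, Multiset.prod_zero, List.map_nil,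
        List.prod_nil]
      ring
  | [c], [d], hU, hV, _, _, hpe, hcount =>
    simp only [List.length_cons, List.length_nil] at hcount
    have hc : 0 < c := hU c (by simp)
    have hd : d < 0 := hV d (by simp)
    obtain ⟨m', rfl⟩ : ∃ m', m = 2 * m' := ⟨m / 2, by omega⟩
    refine ⟨{(c + d, c * d)}, L, R, IA + IB, Multiset.replicate m' (0, 0), by simp, ?_, hL, hR,
      hI, hZ m', ?_, ?_⟩
    · intro s hs
      rw [Multiset.mem_singleton] at hs
      subst hs
      exact Or.inl (mul_neg_of_pos_of_neg hc hd)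
    · rw [Multiset.card_singleton, Multiset.card_add, Multiset.card_replicate]
      omega
    · rw [hpe, eA, eB]
      simp only [prod_add_quad, prod_zeros, prod_single, List.map_nil, List.map_cons,
        List.prod_cons, List.prod_nil, lin]
      simp only [quad, map_add, map_mul]
      ring
  | [c], [], hU, _, _, _, hpe, hcount =>
    simp only [List.length_cons, List.length_nil] at hcount
    have hc : 0 < c := hU c (by simp)
    obtain ⟨m', rfl⟩ : ∃ m', m = 2 * m' + 1 := ⟨m / 2, by omega⟩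
    refine ⟨{(c, 0)}, L, R, IA + IB, Multiset.replicate m' (0, 0), by simp, ?_, hL, hR,
      hI, hZ m', ?_, ?_⟩
    · intro s hs
      rw [Multiset.mem_singleton] at hs
      subst hs
      exact Or.inr ⟨rfl, hc.ne'⟩
    · rw [Multiset.card_singleton, Multiset.card_add, Multiset.card_replicate]
      omega
    · rw [hpe, eA, eB]
      simp only [prod_add_quad, prod_zeros, prod_single, List.map_nil, List.map_cons,
        List.prod_cons, List.prod_nil, lin]
      simp only [quad, map_zero]
      ring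
  | [], [d], _, hV, _, _, hpe, hcount =>
    simp only [List.length_cons, List.length_nil] at hcount
    have hd : d < 0 := hV d (by simp)
    obtain ⟨m', rfl⟩ : ∃ m', m = 2 * m' + 1 := ⟨m / 2, by omega⟩
    refine ⟨{(d, 0)}, L, R, IA + IB, Multiset.replicate m' (0, 0), by simp, ?_, hL, hR,
      hI, hZ m', ?_, ?_⟩
    · intro s hs
      rw [Multiset.mem_singleton] at hs
      subst hs
      exact Or.inr ⟨rfl, hd.ne⟩
    · rw [Multiset.card_singleton, Multiset.card_add, Multiset.card_replicate]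
      omega
    · rw [hpe, eA, eB]
      simp only [prod_add_quad, prod_zeros, prod_single, List.map_nil, List.map_cons,
        List.prod_cons, List.prod_nil, lin]
      simp only [quad, map_zero]
      ring

/-- Families of matrices from a covering by copies of the block of order six. -/
theorem cz_family (k : ℕ) : ∀ m : MQ, CZ k m → ∃ M : Fin k → Matrix (Fin 6) (Fin 6) ℝ,
    (∀ t i j, (M t i j ≠ 0 ↔ Z6 i j = true)) ∧ ∏ t, (M t).charpoly = (m.map quad).prod := by
  induction k with
  | zero =>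
    intro m hm
    have : m = 0 := hm
    subst this
    exact ⟨fun t => t.elim0, fun t => t.elim0, by simp⟩
  | succ k ih =>
    rintro m ⟨x, y, ⟨M0, hM0, hc0⟩, hy, rfl⟩
    obtain ⟨M, hM, hc⟩ := ih y hy
    refine ⟨Fin.cons M0 M, ?_, ?_⟩
    · intro t
      refine Fin.cases ?_ ?_ t
      · simpa using hM0
      · intro t'; simpa using hM t'
    · rw [Fin.prod_univ_succ, prod_add_quad]
      simp only [Fin.cons_zero, Fin.cons_succ, hc0, hc]

/-- Covered by blocks of order eight. -/
def CB : List (Matrix (Fin 8) (Fin 8) Bool) → MQ → Prop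
  | [], m => m = 0
  | P :: l, m => ∃ x y : MQ, Allows P x ∧ CB l y ∧ m = x + y

/-- Families of matrices from a covering by blocks of order eight. -/
theorem cb_family (l : List (Matrix (Fin 8) (Fin 8) Bool)) : ∀ m : MQ, CB l m →
    ∃ (M : Fin l.length → Matrix (Fin 8) (Fin 8) ℝ) (g : Fin l.length → ℝ[X]),
    (∀ t i j, (M t i j ≠ 0 ↔ l.get t i j = true)) ∧ (∀ t, (M t).charpoly = g t) ∧
      ∏ t, g t = (m.map quad).prod := by
  induction l with
  | nil =>
    intro m hm
    have : m = 0 := hm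
    subst this
    exact ⟨fun t => t.elim0, fun t => t.elim0, fun t => t.elim0, fun t => t.elim0, by simp⟩
  | cons P l ih =>
    rintro m ⟨x, y, ⟨M0, hM0, hc0⟩, hy, rfl⟩
    obtain ⟨M, g, hM, hg, hc⟩ := ih y hy
    refine ⟨Fin.cons (n := l.length) M0 M, Fin.cons (n := l.length) ((x.map quad).prod) g,
      ?_, ?_, ?_⟩
    · intro t
      refine Fin.cases (n := l.length) ?_ ?_ t
      · exact hM0
      · intro t'; exact hM t'
    · intro t
      refine Fin.cases (n := l.length) ?_ ?_ t
      · exact hc0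
      · intro t'; exact hg t'
    · have e := Fin.prod_univ_succ (n := l.length)
        (Fin.cons (n := l.length) (α := fun _ => ℝ[X]) ((x.map quad).prod) g)
      simp only [Fin.cons_zero, Fin.cons_succ, hc] at e
      rw [prod_add_quad]
      exact e

/-- The six blocks of order eight. -/
def P8 : Fin 6 → Matrix (Fin 8) (Fin 8) Bool := fun t => [ZB, ZB, ZB, ZT, ZT, ZJ].get t

theorem big_family (m : MQ) (h : ∃ b1 b2 b3 t1 t2 j : MQ, Allows ZB b1 ∧ Allows ZB b2 ∧
    Allows ZB b3 ∧ Allows ZT t1 ∧ Allows ZT t2 ∧ Allows ZJ j ∧ m = b1 + b2 + b3 + t1 + t2 + j) :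
    ∃ (M : Fin 6 → Matrix (Fin 8) (Fin 8) ℝ) (g : Fin 6 → ℝ[X]),
    (∀ t i j, (M t i j ≠ 0 ↔ P8 t i j = true)) ∧ (∀ t, (M t).charpoly = g t) ∧
      ∏ t, g t = (m.map quad).prod := by
  obtain ⟨b1, b2, b3, t1, t2, j, h1, h2, h3, h4, h5, h6, rfl⟩ := h
  have hCB : CB [ZB, ZB, ZB, ZT, ZT, ZJ] (b1 + b2 + b3 + t1 + t2 + j) :=
    ⟨b1, b2 + (b3 + (t1 + (t2 + (j + 0)))), h1, ⟨b2, b3 + (t1 + (t2 + (j + 0))), h2,
      ⟨b3, t1 + (t2 + (j + 0)), h3, ⟨t1, t2 + (j + 0), h4, ⟨t2, j + 0, h5,
        ⟨j, 0, h6, rfl, rfl⟩, rfl⟩, rfl⟩, rfl⟩, rfl⟩, by simp [add_assoc]⟩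
  exact cb_family [ZB, ZB, ZB, ZT, ZT, ZJ] _ hCB

/-- Every monic real polynomial of degree `6 * k + 48` splits over the blocks. -/
theorem families (k : ℕ) (hk : 26 ≤ k) (p : ℝ[X]) (hp : IsMonicOfDegree p (6 * k + 48)) :
    ∃ (M : Fin k → Matrix (Fin 6) (Fin 6) ℝ) (N : Fin 6 → Matrix (Fin 8) (Fin 8) ℝ)
      (q : ℝ[X]) (g : Fin 6 → ℝ[X]),
      (∀ t i j, (M t i j ≠ 0 ↔ Z6 i j = true)) ∧ (∀ t i j, (N t i j ≠ 0 ↔ P8 t i j = true)) ∧
      ∏ t, (M t).charpoly = q ∧ (∀ t, (N t).charpoly = g t) ∧ p = q * ∏ t, g t := by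
  obtain ⟨S, L, R, I, Z, hS, hS', hL, hR, hI, hZ, hn, hpe⟩ := normal_form (3 * k + 24) p (by
    have : 2 * (3 * k + 24) = 6 * k + 48 := by ring
    rw [this]; exact hp)
  obtain ⟨b1, b2, b3, t1, t2, j, c, h1, h2, h3, h4, h5, h6, h7, he⟩ :=
    cov_all k hk S L R I Z hS hS' hL hR hI hZ hn
  obtain ⟨M, hM, hMc⟩ := cz_family k c h7
  obtain ⟨N, g, hN, hg, hNc⟩ := big_family (b1 + b2 + b3 + t1 + t2 + j)
    ⟨b1, b2, b3, t1, t2, j, h1, h2, h3, h4, h5, h6, rfl⟩
  refine ⟨M, N, (c.map quad).prod, g, hM, hN, hMc, hg, ?_⟩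
  rw [hNc, hpe, he, prod_add_quad]
  ring

end Pool.Agent.Helper778.Sap
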