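import Pool.Agent.Helper778.SapB
import Pool.Agent.Helper778.SapArg

set_option autoImplicit false
set_option maxHeartbeats 4000000

namespace Pool.Agent.Helper778.Sap

open Polynomial Matrix Pool.Agent.Helper778.Real Filter Topology

/-- The pattern of the third block of order eight, with fifteen nonzero entries. -/
def ZT : Matrix (Fin 8) (Fin 8) Bool :=
  !![true, true, true, false, false, false, false, false;
     true, false, false, false, true, true, false, false;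
     false, false, false, false, true, false, false, true;
     false, true, false, true, false, false, false, false;
     false, false, false, true, false, false, false, false;
     false, false, true, false, false, false, false, false;
     false, false, false, false, true, false, false, true;
     false, false, false, false, false, false, true, false]

/-- The matrices used for the third block of order eight. -/
def MT (a b u v e s y m : ℝ) : Matrix (Fin 8) (Fin 8) ℝ :=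
  !![a, 1, e, 0, 0, 0, 0, 0;
     u, 0, 0, 0, v, s, 0, 0;
     0, 0, 0, 0, 1, 0, 0, m;
     0, 1, 0, b, 0, 0, 0, 0;
     0, 0, 0, 1, 0, 0, 0, 0;
     0, 0, 1, 0, 0, 0, 0, 0;
     0, 0, 0, 0, 1, 0, 0, 1;
     0, 0, 0, 0, 0, 0, y, 0]

theorem MT_pattern (a b u v e s y m : ℝ) (ha : a ≠ 0) (hb : b ≠ 0) (hu : u ≠ 0) (hv : v ≠ 0)
    (he : e ≠ 0) (hs : s ≠ 0) (hy : y ≠ 0) (hm : m ≠ 0) :
    ∀ i j, (MT a b u v e s y m i j ≠ 0 ↔ ZT i j = true) := by
  intro i j
  fin_cases i <;> fin_cases j <;> simp [MT, ZT, ha, hb, hu, hv, he, hs, hy, hm]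

theorem MT_det {R : Type} [CommRing R] (x a b u v e s y m : R) :
    (!![x - a, -1, -e, 0, 0, 0, 0, 0;
     -u, x, 0, 0, -v, -s, 0, 0;
     0, 0, x, 0, -1, 0, 0, -m;
     0, -1, 0, x - b, 0, 0, 0, 0;
     0, 0, 0, -1, x, 0, 0, 0;
     0, 0, -1, 0, 0, x, 0, 0;
     0, 0, 0, 0, -1, 0, x, -1;
     0, 0, 0, 0, 0, 0, -y, x] : Matrix (Fin 8) (Fin 8) R).det
      = (x ^ 2 - y) * x ^ 2 *
          (x ^ 4 + -(a + b) * x ^ 3 + (a * b - u) * x ^ 2 + (u * b - v) * x + v * a)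
        - (x ^ 2 - (y - m * y)) * (e * u * x + s * (x - a)) := by
  rw [det_eight]
  simp
  simp only [det_seven]
  simp
  simp only [det_six]
  simp
  simp only [det_five]
  simp
  simp only [det_four]
  simp
  ring

theorem MT_charpoly (a b u v e s y m : ℝ) :
    (MT a b u v e s y m).charpoly = (X ^ 2 - C y) * X ^ 2 *
      (X ^ 4 + C (-(a + b)) * X ^ 3 + C (a * b - u) * X ^ 2 + C (u * b - v) * X + C (v * a))
        - (X ^ 2 - (C y - C m * C y)) * (C e * C u * X + C s * (X - C a)) := by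
  have h : charmatrix (MT a b u v e s y m) =
      !![X - C a, -1, -C e, 0, 0, 0, 0, 0;
     -C u, X, 0, 0, -C v, -C s, 0, 0;
     0, 0, X, 0, -1, 0, 0, -C m;
     0, -1, 0, X - C b, 0, 0, 0, 0;
     0, 0, 0, -1, X, 0, 0, 0;
     0, 0, -1, 0, 0, X, 0, 0;
     0, 0, 0, 0, -1, 0, X, -1;
     0, 0, 0, 0, 0, 0, -C y, X] := by
    ext i j
    fin_cases i <;> fin_cases j <;> simp [MT]
  rw [Matrix.charpoly, h, MT_det]
  simp only [map_add, map_sub, map_mul, map_neg]

/-- The third block: the algebraic core. -/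
theorem allowsT_core {M : Multiset (ℝ × ℝ)} (y h S τ b c1 c2 c3 c4 : ℝ)
    (hb : (b + c1) * (b ^ 3 + c1 * b ^ 2 + c2 * b + c3) = c4) (hc4 : c4 ≠ 0) (hb0 : b ≠ 0)
    (hu : b ^ 2 + c1 * b + c2 ≠ 0) (hy : y ≠ 0) (hh : h ≠ y) (hτ : τ ≠ 0)
    (hD : S * (-c1 - b) - τ ≠ 0)
    (hM : (M.map quad).prod = (X ^ 2 - C y) * X ^ 2 *
      (X ^ 4 + C c1 * X ^ 3 + C c2 * X ^ 2 + C c3 * X + C c4)
        - (X ^ 2 - C h) * (C S * X - C τ)) : Allows ZT M := by
  obtain ⟨a, ha⟩ : ∃ a, a = -c1 - b := ⟨_, rfl⟩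
  rw [← ha] at hD
  have hane : a ≠ 0 := by
    intro h0
    apply hc4
    rw [← hb]
    have : b + c1 = 0 := by linarith
    rw [this, zero_mul]
  obtain ⟨u, hu'⟩ : ∃ u, u = -(b ^ 2 + c1 * b + c2) := ⟨_, rfl⟩
  have hune : u ≠ 0 := by rw [hu']; exact neg_ne_zero.2 hu
  obtain ⟨v, hv⟩ : ∃ v, v = -(b ^ 3 + c1 * b ^ 2 + c2 * b + c3) := ⟨_, rfl⟩
  have hvne : v ≠ 0 := by
    rw [hv]
    apply neg_ne_zero.2
    intro h0
    apply hc4
    rw [← hb, h0, mul_zero]
  have e1 : -(a + b) = c1 := by rw [ha]; ring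
  have e2 : a * b - u = c2 := by rw [ha, hu']; ring
  have e3 : u * b - v = c3 := by rw [hu', hv]; ring
  have e4 : v * a = c4 := by rw [ha, hv, ← hb]; ring
  have hsne : τ / a ≠ 0 := div_ne_zero hτ hane
  have hene : (S * a - τ) / (a * u) ≠ 0 := div_ne_zero hD (mul_ne_zero hane hune)
  have hmne : 1 - h / y ≠ 0 := by
    intro h0
    apply hh
    have : h / y = 1 := by linarith
    exact (div_eq_one_iff_eq hy).1 this
  refine ⟨MT a b u v ((S * a - τ) / (a * u)) (τ / a) y (1 - h / y),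
    MT_pattern _ _ _ _ _ _ _ _ hane hb0 hune hvne hene hsne hy hmne, ?_⟩
  rw [MT_charpoly, hM, e1, e2, e3, e4]
  have k1 : y - (1 - h / y) * y = h := by field_simp; ring
  have k2 : (S * a - τ) / (a * u) * u + τ / a = S := by field_simp; ring
  have k3 : τ / a * a = τ := by field_simp
  have K1 : (C y - C (1 - h / y) * C y : ℝ[X]) = C h := by
    rw [← C_mul, ← C_sub, k1]
  have K2 : (C ((S * a - τ) / (a * u)) * C u + C (τ / a) : ℝ[X]) = C S := by
    rw [← C_mul, ← C_add, k2]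
  have K3 : (C (τ / a) * C a : ℝ[X]) = C τ := by
    rw [← C_mul, k3]
  rw [K1]
  linear_combination (-(X ^ 2 - C h) * X) * K2 + (X ^ 2 - C h) * K3

/-- Even polynomials with nonnegative coefficients. -/
theorem allowsT_even {M : Multiset (ℝ × ℝ)} (f2 f4 f6 f8 : ℝ) (h2 : 0 ≤ f2) (h4 : 0 ≤ f4)
    (h6 : 0 ≤ f6) (h8 : 0 ≤ f8)
    (hM : (M.map quad).prod = X ^ 8 + C f2 * X ^ 6 + C f4 * X ^ 4 + C f6 * X ^ 2 + C f8) :
    Allows ZT M := by
  have hc4 : 0 < 1 + f2 + f4 := by positivity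
  obtain ⟨b, hb0, hb⟩ := x4_high 0 (1 + f2) 0 (1 + f2 + f4) hc4
  rw [neg_zero] at hb0
  have hτ : 0 < 1 + f2 + f4 + f6 := by positivity
  have hh : -(f8 / (1 + f2 + f4 + f6)) ≤ 0 := by
    apply neg_nonpos_of_nonneg
    positivity
  refine allowsT_core 1 (-(f8 / (1 + f2 + f4 + f6))) 0 (1 + f2 + f4 + f6) b 0 (1 + f2) 0
    (1 + f2 + f4) hb hc4.ne' hb0.ne' ?_ one_ne_zero ?_ hτ.ne' ?_ ?_
  · positivity
  · intro h0
    linarith
  · have : (0 : ℝ) * (-0 - b) - (1 + f2 + f4 + f6) < 0 := by linarith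
    exact this.ne
  · rw [hM]
    have k : C (-(f8 / (1 + f2 + f4 + f6))) * C (1 + f2 + f4 + f6) = -C f8 := by
      rw [← C_mul, ← C_neg]
      congr 1
      field_simp
    have k' : (X ^ 2 - C (-(f8 / (1 + f2 + f4 + f6)))) * (C (0 : ℝ) * X - C (1 + f2 + f4 + f6))
        = -(X ^ 2 * C (1 + f2 + f4 + f6)) - C f8 := by
      rw [C_0]
      linear_combination k
    rw [k']
    simp only [map_add, map_one, map_zero]
    ring

theorem allowsT_imag (p q r s : ℝ) (hp : 0 < p) (hq : 0 < q) (hr : 0 < r) (hs : 0 < s) :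
    Allows ZT {(0, p), (0, q), (0, r), (0, s)} := by
  apply allowsT_even (p + q + r + s) (p * q + r * s + (p + q) * (r + s))
    (p * q * (r + s) + (p + q) * (r * s)) (p * q * (r * s)) (by positivity) (by positivity)
    (by positivity) (by positivity)
  simp only [Multiset.insert_eq_cons, Multiset.map_cons, Multiset.map_singleton,
    Multiset.prod_cons, Multiset.prod_singleton, quad, map_add, map_mul, map_zero]
  ring

/-- Small perturbations of the eighth power of the variable with a double root at zero. -/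
theorem allowsT_small {M : Multiset (ℝ × ℝ)} (g1 g2 g3 g4 g5 g6 : ℝ) (h1 : |g1| < 1 / 100)
    (h2 : |g2| < 1 / 100) (h3 : |g3| < 1 / 100) (h4 : |g4| < 1 / 100) (h5 : |g5| < 1 / 100)
    (h6 : |g6| < 1 / 100)
    (hM : (M.map quad).prod = X ^ 2 * (X ^ 6 + C g1 * X ^ 5 + C g2 * X ^ 4 + C g3 * X ^ 3
      + C g4 * X ^ 2 + C g5 * X + C g6)) : Allows ZT M := by
  obtain ⟨l1, u1⟩ := abs_lt.1 h1
  obtain ⟨l2, u2⟩ := abs_lt.1 h2
  obtain ⟨l3, u3⟩ := abs_lt.1 h3
  obtain ⟨l4, u4⟩ := abs_lt.1 h4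
  obtain ⟨l5, u5⟩ := abs_lt.1 h5
  obtain ⟨l6, u6⟩ := abs_lt.1 h6
  let φ : ℝ → ℝ := fun b => (b + g1) * (b ^ 3 + g1 * b ^ 2 + (g2 + 1) * b + (g3 + g1))
  have hφ : ContinuousOn φ (Set.Icc (1 / 2) 1) := by
    apply Continuous.continuousOn
    simp only [φ]
    fun_prop
  have hφ0 : φ (1 / 2) < g4 + g2 + 1 := by
    have e : φ (1 / 2) = (1 / 2 + g1) * (1 / 8 + g1 / 4 + (g2 + 1) / 2 + (g3 + g1)) := by
      simp only [φ]
      ring
    have : (1 / 2 + g1) * (1 / 8 + g1 / 4 + (g2 + 1) / 2 + (g3 + g1)) ≤ 1 * (7 / 10) := by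
      apply mul_le_mul <;> linarith
    rw [e]
    linarith
  have hφ1 : g4 + g2 + 1 < φ 1 := by
    have e : φ 1 = (1 + g1) * (1 + g1 + (g2 + 1) + (g3 + g1)) := by
      simp only [φ]
      ring
    have : (9 / 10) * (3 / 2) ≤ (1 + g1) * (1 + g1 + (g2 + 1) + (g3 + g1)) := by
      apply mul_le_mul <;> linarith
    rw [e]
    linarith
  obtain ⟨b, hb, hφb⟩ := intermediate_value_Icc (by norm_num : (1 / 2 : ℝ) ≤ 1) hφ
    (show g4 + g2 + 1 ∈ Set.Icc (φ (1 / 2)) (φ 1) from ⟨hφ0.le, hφ1.le⟩)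
  obtain ⟨hb1, hb2⟩ := hb
  refine allowsT_core 1 0 (-(g1 + g3 + g5)) (1 + g2 + g4 + g6) b g1 (g2 + 1) (g3 + g1)
    (g4 + g2 + 1) hφb ?_ ?_ ?_ one_ne_zero zero_ne_one ?_ ?_ ?_
  · exact (by linarith : 0 < g4 + g2 + 1).ne'
  · exact (by linarith : 0 < b).ne'
  · have e1 : 0 < b * (b + g1) := mul_pos (by linarith) (by linarith)
    exact (by nlinarith : 0 < b ^ 2 + g1 * b + (g2 + 1)).ne'
  · exact (by linarith : 0 < 1 + g2 + g4 + g6).ne'
  · have e1 : (g1 + g3 + g5) * (g1 + b) ≤ 1 / 10 := by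
      have e2 : |(g1 + g3 + g5) * (g1 + b)| ≤ (3 / 100) * 2 := by
        rw [abs_mul]
        apply mul_le_mul _ _ (abs_nonneg _) (by norm_num)
        · rw [abs_le]
          constructor <;> linarith
        · rw [abs_le]
          constructor <;> linarith
      have := (abs_le.1 e2).2
      linarith
    have e3 : -(g1 + g3 + g5) * (-g1 - b) - (1 + g2 + g4 + g6)
        = (g1 + g3 + g5) * (g1 + b) - (1 + g2 + g4 + g6) := by ring
    rw [e3]
    exact (by linarith : (g1 + g3 + g5) * (g1 + b) - (1 + g2 + g4 + g6) < 0).ne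
  · rw [hM]
    simp only [map_add, map_one, map_zero, map_neg]
    ring

theorem scl_scl (t : ℝ) (ht : t ≠ 0) (r : ℝ × ℝ) : scl t⁻¹ (scl t r) = r := by
  unfold scl
  apply Prod.ext
  · simp only
    field_simp
  · simp only
    field_simp

/-- The third block allows a double root at zero together with three arbitrary quadratics. -/
theorem allowsT_zero (r1 r2 r3 : ℝ × ℝ) : Allows ZT {(0, 0), r1, r2, r3} := by
  obtain ⟨a, p⟩ := r1
  obtain ⟨b, q⟩ := r2
  obtain ⟨c, r⟩ := r3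
  have key : ∀ g : ℝ → ℝ, Continuous g → g 0 = 0 → ∀ᶠ t in 𝓝[≠] (0 : ℝ), |g t| < 1 / 100 := by
    intro g hg h0
    have h := (hg.abs).tendsto 0
    rw [h0, abs_zero] at h
    exact (h.mono_left nhdsWithin_le_nhds).eventually (gt_mem_nhds (by norm_num))
  have k1 := key (fun t => t * a + t * b + t * c) (by fun_prop) (by simp)
  have k2 := key (fun t => t ^ 2 * p + t ^ 2 * q + t ^ 2 * r + (t * a) * (t * b)
    + (t * a) * (t * c) + (t * b) * (t * c)) (by fun_prop) (by simp)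
  have k3 := key (fun t => (t * a) * (t ^ 2 * q + t ^ 2 * r) + (t * b) * (t ^ 2 * p + t ^ 2 * r)
    + (t * c) * (t ^ 2 * p + t ^ 2 * q) + (t * a) * (t * b) * (t * c)) (by fun_prop) (by simp)
  have k4 := key (fun t => t ^ 2 * p * (t ^ 2 * q) + t ^ 2 * p * (t ^ 2 * r)
    + t ^ 2 * q * (t ^ 2 * r) + (t * a) * (t * b) * (t ^ 2 * r)
    + (t * a) * (t * c) * (t ^ 2 * q) + (t * b) * (t * c) * (t ^ 2 * p)) (by fun_prop) (by simp)
  have k5 := key (fun t => (t * a) * (t ^ 2 * q) * (t ^ 2 * r) + (t * b) * (t ^ 2 * p)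
    * (t ^ 2 * r) + (t * c) * (t ^ 2 * p) * (t ^ 2 * q)) (by fun_prop) (by simp)
  have k6 := key (fun t => t ^ 2 * p * (t ^ 2 * q) * (t ^ 2 * r)) (by fun_prop) (by simp)
  have hne : ∀ᶠ t in 𝓝[≠] (0 : ℝ), t ≠ 0 := self_mem_nhdsWithin
  obtain ⟨t, ⟨⟨⟨⟨⟨⟨h1, h2⟩, h3⟩, h4⟩, h5⟩, h6⟩, ht⟩⟩ :=
    ((((((k1.and k2).and k3).and k4).and k5).and k6).and hne).exists
  have hsmall : Allows ZT {(0, 0), scl t (a, p), scl t (b, q), scl t (c, r)} := by
    refine allowsT_small _ _ _ _ _ _ h1 h2 h3 h4 h5 h6 ?_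
    simp only [Multiset.insert_eq_cons, Multiset.map_cons, Multiset.map_singleton,
      Multiset.prod_cons, Multiset.prod_singleton, quad, scl, map_add, map_mul, map_zero,
      map_pow]
    ring
  have hres := allows_scale t⁻¹ (inv_ne_zero ht) hsmall
  have e0 : scl t⁻¹ (0, 0) = (0, 0) := by simp [scl]
  simpa only [Multiset.insert_eq_cons, Multiset.map_cons, Multiset.map_singleton,
    scl_scl t ht, e0] using hres

end Pool.Agent.Helper778.Sap
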