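import Pool.Agent.Helper778.SapJ3
import Pool.Agent.Helper778.SapT

set_option autoImplicit false
set_option maxHeartbeats 4000000
set_option maxRecDepth 10000

namespace Pool.Agent.Helper778.Sap

open Polynomial Matrix Pool.Agent.Helper778.Real Filter Topology

theorem posr {a b : ℝ} (h : 0 < a * b) (ha : 0 < a) : 0 < b := (mul_pos_iff_of_pos_left ha).1 h

theorem ineq58 (a b c d p q r s : ℝ) (ha : 0 < a) (hb : 0 < b) (hc : 0 < c) (hd : 0 < d)
    (hp : 0 < p) (hq : 0 < q) (hr : 0 < r) (hs : 0 < s) :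
    ((a + b) * (r * s) + (p * q) * (c + d) + (p + q + a * b) * (c * s + d * r)
        + (a * q + b * p) * (r + s + c * d)) * (p * q * (r * s)) <
      ((p + q + a * b) * (r * s) + p * q * (r + s + c * d)
        + (a * q + b * p) * (c * s + d * r)) * ((a * q + b * p) * (r * s) + p * q * (c * s + d * r)) := by
  rw [← sub_pos]
  ring_nf
  positivity

/-- The third block, roots in the open left half plane: from the interlacing data. -/
theorem allowsT_left_core {M : Multiset (ℝ × ℝ)} (f1 f2 f3 f4 f5 f6 f7 f8 W1 W2 W3 : ℝ)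
    (p1 : 0 < f1) (p7 : 0 < f7) (p8 : 0 < f8) (i12 : f3 < f1 * f2) (i58 : f5 * f8 < f6 * f7)
    (hW1 : 0 < W1) (h12 : W1 < W2) (h23 : W2 < W3)
    (v1 : -f1 * W1 ^ 3 + f3 * W1 ^ 2 - f5 * W1 + f7 = 0)
    (v2 : -f1 * W2 ^ 3 + f3 * W2 ^ 2 - f5 * W2 + f7 = 0)
    (v3 : -f1 * W3 ^ 3 + f3 * W3 ^ 2 - f5 * W3 + f7 = 0)
    (e1 : W1 ^ 4 - f2 * W1 ^ 3 + f4 * W1 ^ 2 - f6 * W1 + f8 < 0)
    (e2 : 0 < W2 ^ 4 - f2 * W2 ^ 3 + f4 * W2 ^ 2 - f6 * W2 + f8)
    (hM : (M.map quad).prod = X ^ 8 + C f1 * X ^ 7 + C f2 * X ^ 6 + C f3 * X ^ 5 + C f4 * X ^ 4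
      + C f5 * X ^ 3 + C f6 * X ^ 2 + C f7 * X + C f8) : Allows ZT M := by
  have hW2 : 0 < W2 := hW1.trans h12
  have hW3 : 0 < W3 := hW2.trans h23
  have n12 : W1 - W2 ≠ 0 := by intro h; linarith
  have n13 : W1 - W3 ≠ 0 := by intro h; linarith
  have n23 : W2 - W3 ≠ 0 := by intro h; linarith
  -- Vieta relations
  have d12 : -f1 * (W1 ^ 2 + W1 * W2 + W2 ^ 2) + f3 * (W1 + W2) - f5 = 0 := by
    apply mul_left_cancel₀ n12
    linear_combination v1 - v2
  have d13 : -f1 * (W1 ^ 2 + W1 * W3 + W3 ^ 2) + f3 * (W1 + W3) - f5 = 0 := by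
    apply mul_left_cancel₀ n13
    linear_combination v1 - v3
  have V3 : f3 = f1 * (W1 + W2 + W3) := by
    apply mul_left_cancel₀ n23
    linear_combination d12 - d13
  have V5 : f5 = f1 * (W1 * W2 + W1 * W3 + W2 * W3) := by
    rw [V3] at d12
    linear_combination -d12
  have V7 : f7 = f1 * (W1 * W2 * W3) := by
    rw [V3, V5] at v1
    linear_combination v1
  -- the root
  let g : ℝ → ℝ := fun Y => f7 * Y ^ 3 + (f8 * f1 - f7 * f2) * Y ^ 2 - (f8 * f3 - f7 * f4) * Y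
    - (f7 * f6 - f8 * f5)
  have hg : ContinuousOn g (Set.Icc W1 W2) := by
    apply Continuous.continuousOn
    simp only [g]
    fun_prop
  have g1 : W1 * g W1 = f7 * (W1 ^ 4 - f2 * W1 ^ 3 + f4 * W1 ^ 2 - f6 * W1 + f8) := by
    simp only [g]
    linear_combination -f8 * v1
  have g2 : W2 * g W2 = f7 * (W2 ^ 4 - f2 * W2 ^ 3 + f4 * W2 ^ 2 - f6 * W2 + f8) := by
    simp only [g]
    linear_combination -f8 * v2
  have g1' : g W1 < 0 := by
    have : W1 * g W1 < 0 := by rw [g1]; exact mul_neg_of_pos_of_neg p7 e1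
    by_contra hcon
    push Not at hcon
    have := mul_nonneg hW1.le hcon
    linarith
  have g2' : 0 < g W2 := by
    have : 0 < W2 * g W2 := by rw [g2]; exact mul_pos p7 e2
    exact posr this hW2
  obtain ⟨Y, hY1, hY2, hgY⟩ := cross h12.le hg g1' g2'
  have hY0 : 0 < Y := hW1.trans hY1
  simp only [g] at hgY
  obtain ⟨G, hG⟩ : ∃ G, G = f1 * Y ^ 2 - f3 * Y + f5 := ⟨_, rfl⟩
  obtain ⟨H, hH⟩ : ∃ H, H = -Y ^ 3 + f2 * Y ^ 2 - f4 * Y + f6 := ⟨_, rfl⟩
  have hGH : f8 * G = f7 * H := by rw [hG, hH]; linear_combination hgY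
  have hO : f7 - Y * G < 0 := by
    have e : f7 - Y * G = -(f1 * ((Y - W1) * (W2 - Y) * (W3 - Y))) := by
      rw [hG, V3, V5, V7]; ring
    rw [e]
    have : 0 < f1 * ((Y - W1) * (W2 - Y) * (W3 - Y)) := by
      have a1 : 0 < Y - W1 := by linarith
      have a2 : 0 < W2 - Y := by linarith
      have a3 : 0 < W3 - Y := by linarith
      positivity
    linarith
  have hGpos : 0 < G := by
    have : 0 < Y * G := by linarith
    exact posr this hY0
  have hHpos : 0 < H := by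
    have : 0 < f7 * H := by rw [← hGH]; positivity
    exact posr this p7
  have hc3 : 0 < f3 - f1 * Y := by
    have : f3 - f1 * Y = f1 * (W1 + (W2 - Y) + W3) := by rw [V3]; ring
    rw [this]
    have a2 : 0 < W2 - Y := by linarith
    positivity
  have hc2 : 0 < f2 - Y := by
    have : f1 * Y < f1 * f2 := by linarith
    have := lt_of_mul_lt_mul_left this p1.le
    linarith
  have hc4 : 0 < f4 - Y * (f2 - Y) := by
    have e : Y * (f7 * (f4 - Y * (f2 - Y)) - f8 * (f3 - f1 * Y)) = f6 * f7 - f5 * f8 := by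
      linear_combination hgY
    have e' : 0 < f7 * (f4 - Y * (f2 - Y)) - f8 * (f3 - f1 * Y) := by
      have : 0 < Y * (f7 * (f4 - Y * (f2 - Y)) - f8 * (f3 - f1 * Y)) := by rw [e]; linarith
      exact posr this hY0
    have e'' : 0 < f8 * (f3 - f1 * Y) := by positivity
    have : 0 < f7 * (f4 - Y * (f2 - Y)) := by linarith
    exact posr this p7
  obtain ⟨b, hb, hb'⟩ := x4_low f1 (f2 - Y) (f3 - f1 * Y) (f4 - Y * (f2 - Y)) hc4
  have hbneg : b < 0 := by linarith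
  refine allowsT_core (-Y) (-(f8 / H)) (-G) H b f1 (f2 - Y) (f3 - f1 * Y) (f4 - Y * (f2 - Y))
    hb' hc4.ne' hbneg.ne ?_ ?_ ?_ hHpos.ne' ?_ ?_
  · have : 0 < b * (b + f1) := mul_pos_of_neg_of_neg hbneg (by linarith)
    exact (by nlinarith : 0 < b ^ 2 + f1 * b + (f2 - Y)).ne'
  · linarith
  · intro h0
    have h1 : f8 / H = Y := by linarith
    have h2 : f8 = Y * H := by
      rw [div_eq_iff hHpos.ne'] at h1
      exact h1
    have h3 : f7 * H = Y * H * G := by rw [← hGH, ← h2]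
    have h4 : f7 = Y * G := by
      apply mul_left_cancel₀ hHpos.ne'
      linear_combination h3
    linarith
  · have : 0 < G * (-f1 - b) := mul_pos hGpos (by linarith)
    exact (by linarith : -G * (-f1 - b) - H < 0).ne
  · rw [hM]
    have hHne : H ≠ 0 := hHpos.ne'
    have k1 : f8 / H * G = f7 := by
      field_simp
      linarith
    have k2 : f8 / H * H = f8 := by field_simp
    have K1 : (C (f8 / H) * C G : ℝ[X]) = C f7 := by rw [← C_mul, k1]
    have K2 : (C (f8 / H) * C H : ℝ[X]) = C f8 := by rw [← C_mul, k2]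
    have KG : (C G : ℝ[X]) = C f1 * C Y ^ 2 - C f3 * C Y + C f5 := by
      rw [hG]; simp only [map_add, map_sub, map_mul, map_pow]
    have KH : (C H : ℝ[X]) = -C Y ^ 3 + C f2 * C Y ^ 2 - C f4 * C Y + C f6 := by
      rw [hH]; simp only [map_add, map_sub, map_mul, map_pow, map_neg]
    simp only [map_neg, map_sub, map_mul]
    linear_combination (-X) * K1 - K2 - X ^ 3 * KG - X ^ 2 * KH

/-- The interlacing data from the argument of the polynomial along the imaginary axis. -/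
theorem interlace (r1 r2 r3 r4 : ℝ × ℝ) (h1 : 0 < r1.1 ∧ 0 < r1.2) (h2 : 0 < r2.1 ∧ 0 < r2.2)
    (h3 : 0 < r3.1 ∧ 0 < r3.2) (h4 : 0 < r4.1 ∧ 0 < r4.2) :
    ∃ w1 w2 w3 N1 N2 N3 : ℝ, 0 < w1 ∧ w1 < w2 ∧ w2 < w3 ∧ 0 < N1 ∧ 0 < N2 ∧ 0 < N3 ∧
      qv r1 w1 * qv r2 w1 * qv r3 w1 * qv r4 w1 = ((-N1 : ℝ) : ℂ) ∧
      qv r1 w2 * qv r2 w2 * qv r3 w2 * qv r4 w2 = ((N2 : ℝ) : ℂ) ∧
      qv r1 w3 * qv r2 w3 * qv r3 w3 * qv r4 w3 = ((-N3 : ℝ) : ℂ) := by
  have hpi := Real.pi_pos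
  let A : ℝ → ℝ := fun w => (th r1 w + th r2 w + th r3 w) + th r4 w
  have hA : ContinuousOn A (Set.Ici 0) :=
    (cont_three r1 r2 r3 h1 h2 h3).add (th_cont r4 h4.1 h4.2)
  have hA0 : A 0 = 0 := by
    simp only [A, th_zero r1 h1.2, th_zero r2 h2.2, th_zero r3 h3.2, th_zero r4 h4.2]
    norm_num
  obtain ⟨W, hW, hAW⟩ : ∃ W, 0 < W ∧ 3 * Real.pi < A W := by
    have t := (((th_tendsto r1 h1.1).add (th_tendsto r2 h2.1)).add (th_tendsto r3 h3.1)).add
      (th_tendsto r4 h4.1)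
    have hlt : 3 * Real.pi < Real.pi + Real.pi + Real.pi + Real.pi := by linarith
    have := (t.eventually (lt_mem_nhds hlt)).and (eventually_gt_atTop 0)
    obtain ⟨w, hw⟩ := this.exists
    exact ⟨w, hw.2, hw.1⟩
  obtain ⟨w1, hw1, hw1', hA1⟩ := cross (t := Real.pi) hW.le (hA.mono (fun x hx => hx.1))
    (by rw [hA0]; exact hpi) (by linarith)
  obtain ⟨w2, hw2, hw2', hA2⟩ := cross (t := 2 * Real.pi) hw1'.le
    (hA.mono (fun x hx => hw1.le.trans hx.1)) (by rw [hA1]; linarith) (by linarith)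
  obtain ⟨w3, hw3, hw3', hA3⟩ := cross (t := 3 * Real.pi) hw2'.le
    (hA.mono (fun x hx => (hw1.trans hw2).le.trans hx.1)) (by rw [hA2]; linarith) (by linarith)
  have hN : ∀ w, 0 < w → 0 < ‖qv r1 w‖ * ‖qv r2 w‖ * ‖qv r3 w‖ * ‖qv r4 w‖ := by
    intro w hw
    have a1 := norm_pos_iff.2 (qv_ne_zero r1 h1.1 h1.2 w hw.le)
    have a2 := norm_pos_iff.2 (qv_ne_zero r2 h2.1 h2.2 w hw.le)
    have a3 := norm_pos_iff.2 (qv_ne_zero r3 h3.1 h3.2 w hw.le)
    have a4 := norm_pos_iff.2 (qv_ne_zero r4 h4.1 h4.2 w hw.le)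
    positivity
  have hpol : ∀ w, qv r1 w * qv r2 w * qv r3 w * qv r4 w
      = ((‖qv r1 w‖ * ‖qv r2 w‖ * ‖qv r3 w‖ * ‖qv r4 w‖ : ℝ) : ℂ)
        * Complex.exp ((A w : ℂ) * Complex.I) := by
    intro w
    rw [polar_three]
    conv_lhs => rw [qv_polar r4 w]
    simp only [A]
    push_cast
    rw [add_mul (_ + _ + _ : ℂ), Complex.exp_add]
    ring
  refine ⟨w1, w2, w3, _, _, _, hw1, hw2, hw3, hN w1 hw1, hN w2 (hw1.trans hw2),
    hN w3 ((hw1.trans hw2).trans hw3), ?_, ?_, ?_⟩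
  · rw [hpol, hA1, Complex.exp_pi_mul_I]
    push_cast
    ring
  · rw [hpol, hA2, exp_two_pi]
    push_cast
    ring
  · have : Complex.exp (((3 * Real.pi : ℝ) : ℂ) * Complex.I) = -1 := by
      have e : ((3 * Real.pi : ℝ) : ℂ) * Complex.I
          = (Real.pi : ℂ) * Complex.I + 2 * Real.pi * Complex.I := by
        push_cast; ring
      rw [e, Complex.exp_add, Complex.exp_pi_mul_I, Complex.exp_two_pi_mul_I]
      ring
    rw [hpol, hA3, this]
    push_cast
    ring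

/-- The real and imaginary parts of the product of four values. -/
theorem four_parts (a b c d p q r s w : ℝ) :
    qv (a, p) w * qv (b, q) w * qv (c, r) w * qv (d, s) w =
      ⟨(w ^ 2) ^ 4 - ((p + q + a * b) + (r + s + c * d) + (a + b) * (c + d)) * (w ^ 2) ^ 3
        + (p * q + r * s + (a + b) * (c * s + d * r) + (a * q + b * p) * (c + d)
        + (p + q + a * b) * (r + s + c * d)) * (w ^ 2) ^ 2
        - ((p + q + a * b) * (r * s) + p * q * (r + s + c * d)
        + (a * q + b * p) * (c * s + d * r)) * (w ^ 2)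
        + (p * q * (r * s)),
        w * (-((a + b) + (c + d)) * (w ^ 2) ^ 3
        + ((a * q + b * p) + (c * s + d * r) + (a + b) * (r + s + c * d)
        + (p + q + a * b) * (c + d)) * (w ^ 2) ^ 2
        - ((a + b) * (r * s) + (p * q) * (c + d) + (p + q + a * b) * (c * s + d * r)
        + (a * q + b * p) * (r + s + c * d)) * (w ^ 2)
        + ((a * q + b * p) * (r * s) + p * q * (c * s + d * r)))⟩ := by
  apply Complex.ext
  · simp only [qv, Complex.mul_re, Complex.mul_im]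
    ring
  · simp only [qv, Complex.mul_re, Complex.mul_im]
    ring

/-- The third block allows four quadratics with roots in the open left half plane. -/
theorem allowsT_left (r1 r2 r3 r4 : ℝ × ℝ) (h1 : 0 < r1.1 ∧ 0 < r1.2) (h2 : 0 < r2.1 ∧ 0 < r2.2)
    (h3 : 0 < r3.1 ∧ 0 < r3.2) (h4 : 0 < r4.1 ∧ 0 < r4.2) :
    Allows ZT {r1, r2, r3, r4} := by
  obtain ⟨w1, w2, w3, N1, N2, N3, hw1, h12, h23, n1, n2, n3, q1, q2, q3⟩ :=
    interlace r1 r2 r3 r4 h1 h2 h3 h4
  obtain ⟨a, p⟩ := r1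
  obtain ⟨b, q⟩ := r2
  obtain ⟨c, r⟩ := r3
  obtain ⟨d, s⟩ := r4
  obtain ⟨ha, hp⟩ := h1
  obtain ⟨hb, hq⟩ := h2
  obtain ⟨hc, hr⟩ := h3
  obtain ⟨hd, hs⟩ := h4
  simp only at ha hp hb hq hc hr hd hs
  have i12 := ineq12 a b c d p q r s ha hb hc hd hp hq hr hs
  have i58 := ineq58 a b c d p q r s ha hb hc hd hp hq hr hs
  have e := quad4 a b c d p q r s
  rw [← four_prod] at e
  have p1 : 0 < ((a + b) + (c + d)) := by positivity
  have p7 : 0 < ((a * q + b * p) * (r * s) + p * q * (c * s + d * r)) := by positivity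
  have p8 : 0 < (p * q * (r * s)) := by positivity
  have e1 := four_parts a b c d p q r s w1
  have e2 := four_parts a b c d p q r s w2
  have e3 := four_parts a b c d p q r s w3
  rw [q1] at e1
  rw [q2] at e2
  rw [q3] at e3
  have x1 := congrArg Complex.re e1
  have y1 := congrArg Complex.im e1
  have x2 := congrArg Complex.re e2
  have y2 := congrArg Complex.im e2
  have y3 := congrArg Complex.im e3
  simp only [Complex.ofReal_re, Complex.ofReal_im] at x1 y1 x2 y2 y3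
  have hw2 : 0 < w2 := hw1.trans h12
  have hw3 : 0 < w3 := hw2.trans h23
  refine allowsT_left_core _ _ _ _ _ _ _ _ (w1 ^ 2) (w2 ^ 2) (w3 ^ 2) p1 p7 p8 i12 ?_
    (by positivity) (by nlinarith) (by nlinarith) ?_ ?_ ?_ ?_ ?_ e
  · exact i58
  · exact ((mul_eq_zero.1 y1.symm).resolve_left hw1.ne')
  · exact ((mul_eq_zero.1 y2.symm).resolve_left hw2.ne')
  · exact ((mul_eq_zero.1 y3.symm).resolve_left hw3.ne')
  · rw [← x1]; linarith
  · rw [← x2]; exact n2

end Pool.Agent.Helper778.Sap
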