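import Pool.Agent.Helper778.SapZ
import Pool.Agent.Helper778.SapT2
import Pool.Agent.Helper778.SapArg2

set_option autoImplicit false
set_option maxHeartbeats 4000000

namespace Pool.Agent.Helper778.Sap

open Polynomial Matrix Pool.Agent.Helper778.Real

/-- Multisets of real quadratics. -/
abbrev MQ := Multiset (ℝ × ℝ)

def IsL (r : ℝ × ℝ) : Prop := 0 < r.1 ∧ 0 < r.2
def IsR (r : ℝ × ℝ) : Prop := r.1 < 0 ∧ 0 < r.2
def IsI (r : ℝ × ℝ) : Prop := r.1 = 0 ∧ 0 < r.2
def IsZ (r : ℝ × ℝ) : Prop := r = (0, 0)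
def IsBad (r : ℝ × ℝ) : Prop := r.2 < 0 ∨ (r.2 = 0 ∧ r.1 ≠ 0)

theorem split (n : ℕ) (M : MQ) (h : n ≤ M.card) : ∃ X Y : MQ, M = X + Y ∧ X.card = n := by
  induction M using Quotient.inductionOn with
  | _ l =>
    refine ⟨↑(l.take n), ↑(l.drop n), ?_, ?_⟩
    · rw [Multiset.coe_add, List.take_append_drop]
      rfl
    · rw [Multiset.coe_card, List.length_take]
      have : n ≤ l.length := h
      omega

theorem card_four {M : MQ} (h : M.card = 4) : ∃ a b c d, M = {a, b, c, d} := by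
  obtain ⟨X, Y, rfl, hX⟩ := split 1 M (by omega)
  obtain ⟨a, rfl⟩ := Multiset.card_eq_one.1 hX
  have hY : Y.card = 3 := by
    rw [Multiset.card_add] at h
    omega
  obtain ⟨b, c, d, rfl⟩ := Multiset.card_eq_three.1 hY
  exact ⟨a, b, c, d, by rw [Multiset.singleton_add]; rfl⟩

theorem B_sL (s : ℝ × ℝ) (hs : s.1 ≠ 0 ∨ s.2 ≤ 0) (X : MQ) (hX : X.card = 3)
    (hL : ∀ r ∈ X, IsL r) : Allows ZB ({s} + X) := by
  obtain ⟨x, y, z, rfl⟩ := Multiset.card_eq_three.1 hX
  exact allowsB_left s x y z hs (hL x (by simp)) (hL y (by simp)) (hL z (by simp))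

theorem B_L (X : MQ) (hX : X.card = 4) (hL : ∀ r ∈ X, IsL r) : Allows ZB X := by
  obtain ⟨a, b, c, d, rfl⟩ := card_four hX
  exact allowsB_left a b c d (Or.inl (hL a (by simp)).1.ne') (hL b (by simp)) (hL c (by simp))
    (hL d (by simp))

/-- The second block takes at most one element not of imaginary type and fills up with
elements of left type. -/
theorem pickB (Y L : MQ) (hY : Y.card ≤ 1) (hY' : ∀ s ∈ Y, s.1 ≠ 0 ∨ s.2 ≤ 0)
    (hL : ∀ r ∈ L, IsL r) (hc : 4 ≤ L.card) :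
    ∃ X L' : MQ, L = X + L' ∧ Y.card + X.card = 4 ∧ Allows ZB (Y + X) := by
  rcases Nat.le_one_iff_eq_zero_or_eq_one.1 hY with h | h
  · obtain ⟨X, L', rfl, hX⟩ := split 4 L hc
    refine ⟨X, L', rfl, by omega, ?_⟩
    rw [Multiset.card_eq_zero.1 h, zero_add]
    exact B_L X hX (fun r hr => hL r (Multiset.mem_add.2 (Or.inl hr)))
  · obtain ⟨X, L', rfl, hX⟩ := split 3 L (by omega)
    refine ⟨X, L', rfl, by omega, ?_⟩
    obtain ⟨s, rfl⟩ := Multiset.card_eq_one.1 h
    exact B_sL s (hY' s (by simp)) X hX (fun r hr => hL r (Multiset.mem_add.2 (Or.inl hr)))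

theorem eq_I {r : ℝ × ℝ} (h : IsI r) : r = (0, r.2) := Prod.ext h.1 rfl

theorem B_I (X : MQ) (hX : X.card = 4) (hI : ∀ r ∈ X, IsI r) : Allows ZB X := by
  obtain ⟨a, b, c, d, rfl⟩ := card_four hX
  have ha := hI a (by simp)
  have hb := hI b (by simp)
  have hc := hI c (by simp)
  have hd := hI d (by simp)
  rw [eq_I ha, eq_I hb, eq_I hc, eq_I hd]
  exact allowsB_imag _ _ _ _ ha.2 hb.2 hc.2 hd.2

theorem T_I (X : MQ) (hX : X.card = 4) (hI : ∀ r ∈ X, IsI r) : Allows ZT X := by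
  obtain ⟨a, b, c, d, rfl⟩ := card_four hX
  have ha := hI a (by simp)
  have hb := hI b (by simp)
  have hc := hI c (by simp)
  have hd := hI d (by simp)
  rw [eq_I ha, eq_I hb, eq_I hc, eq_I hd]
  exact allowsT_imag _ _ _ _ ha.2 hb.2 hc.2 hd.2

theorem J_I (X : MQ) (hX : X.card = 4) (hI : ∀ r ∈ X, IsI r) : Allows ZJ X := by
  obtain ⟨a, b, c, d, rfl⟩ := card_four hX
  have ha := hI a (by simp)
  have hb := hI b (by simp)
  have hc := hI c (by simp)
  have hd := hI d (by simp)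
  rw [eq_I ha, eq_I hb, eq_I hc, eq_I hd]
  exact allowsJ_imag _ _ _ _ ha.2 hb.2 hc.2 hd.2

theorem J_M (s : ℝ × ℝ) (hs : s.2 < 0) (X : MQ) (hX : X.card = 3) (hI : ∀ r ∈ X, IsI r) :
    Allows ZJ ({s} + X) := by
  obtain ⟨a, b, c, rfl⟩ := Multiset.card_eq_three.1 hX
  have ha := hI a (by simp)
  have hb := hI b (by simp)
  have hc := hI c (by simp)
  rw [eq_I ha, eq_I hb, eq_I hc]
  exact allowsJ_mixed s hs _ _ _ ha.2 hb.2 hc.2

theorem T_L (X : MQ) (hX : X.card = 4) (hL : ∀ r ∈ X, IsL r) : Allows ZT X := by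
  obtain ⟨a, b, c, d, rfl⟩ := card_four hX
  exact allowsT_left a b c d (hL a (by simp)) (hL b (by simp)) (hL c (by simp)) (hL d (by simp))

theorem J_L (X : MQ) (hX : X.card = 4) (hL : ∀ r ∈ X, IsL r) : Allows ZJ X := by
  obtain ⟨a, b, c, d, rfl⟩ := card_four hX
  exact allowsJ_left a b c d (hL a (by simp)) (hL b (by simp)) (hL c (by simp)) (hL d (by simp))

theorem eq_Z {X : MQ} (hZ : ∀ r ∈ X, IsZ r) : X = Multiset.replicate X.card (0, 0) :=
  Multiset.eq_replicate_card.2 hZ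

theorem B_Z (X : MQ) (hX : X.card = 4) (hZ : ∀ r ∈ X, IsZ r) : Allows ZB X := by
  obtain ⟨a, b, c, d, rfl⟩ := card_four hX
  have ha : a = (0, 0) := hZ a (by simp)
  have hb : b = (0, 0) := hZ b (by simp)
  have hc : c = (0, 0) := hZ c (by simp)
  have hd : d = (0, 0) := hZ d (by simp)
  rw [ha, hb, hc, hd]
  exact allowsB_zero

theorem J_Z (X : MQ) (hX : X.card = 4) (hZ : ∀ r ∈ X, IsZ r) : Allows ZJ X := by
  obtain ⟨a, b, c, d, rfl⟩ := card_four hX
  have ha : a = (0, 0) := hZ a (by simp)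
  have hb : b = (0, 0) := hZ b (by simp)
  have hc : c = (0, 0) := hZ c (by simp)
  have hd : d = (0, 0) := hZ d (by simp)
  rw [ha, hb, hc, hd]
  exact allowsJ_zero

theorem T_Z (X : MQ) (hX : X.card = 3) : Allows ZT ({(0, 0)} + X) := by
  obtain ⟨a, b, c, rfl⟩ := Multiset.card_eq_three.1 hX
  exact allowsT_zero a b c

/-- The third block takes a multiset containing a double zero. -/
theorem T_mem (X : MQ) (hX : X.card = 4) (h0 : ((0 : ℝ), (0 : ℝ)) ∈ X) : Allows ZT X := by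
  obtain ⟨Y, rfl⟩ := Multiset.exists_cons_of_mem h0
  rw [Multiset.card_cons] at hX
  have := T_Z Y (by omega)
  rwa [Multiset.singleton_add] at this

/-- The third block takes some double zeros and fills up. -/
theorem pickT (Y L : MQ) (hY : Y.card ≤ 4) (hY' : ∀ s ∈ Y, IsZ s)
    (hL : (∀ r ∈ L, IsL r) ∨ (∀ r ∈ L, IsI r)) (hc : 4 ≤ L.card) :
    ∃ X L' : MQ, L = X + L' ∧ Y.card + X.card = 4 ∧ Allows ZT (Y + X) := by
  obtain ⟨X, L', hXL, hX⟩ := split (4 - Y.card) L (by omega)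
  refine ⟨X, L', hXL, by omega, ?_⟩
  rcases Nat.eq_zero_or_pos Y.card with h | h
  · have hY0 : Y = 0 := Multiset.card_eq_zero.1 h
    subst hY0
    rw [zero_add]
    have hX4 : X.card = 4 := by simpa using hX
    rcases hL with hL | hL
    · exact T_L X hX4 (fun r hr => hL r (hXL ▸ Multiset.mem_add.2 (Or.inl hr)))
    · exact T_I X hX4 (fun r hr => hL r (hXL ▸ Multiset.mem_add.2 (Or.inl hr)))
  · apply T_mem
    · rw [Multiset.card_add]; omega
    · obtain ⟨s, hs⟩ := Multiset.card_pos_iff_exists_mem.1 h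
      have : s = (0, 0) := hY' s hs
      subst this
      exact Multiset.mem_add.2 (Or.inl hs)

/-- Covered by `k` copies of the block of order six. -/
def CZ : ℕ → MQ → Prop
  | 0, m => m = 0
  | k + 1, m => ∃ x y : MQ, Allows Z6 x ∧ CZ k y ∧ m = x + y

/-- The mirror image of a multiset of quadratics. -/
def mir (m : MQ) : MQ := m.map (scl (-1))

theorem scl_neg_neg (r : ℝ × ℝ) : scl (-1) (scl (-1) r) = r := by
  unfold scl
  apply Prod.ext <;> simp

theorem mir_mir (m : MQ) : mir (mir m) = m := by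
  unfold mir
  rw [Multiset.map_map]
  conv_rhs => rw [← Multiset.map_id m]
  apply Multiset.map_congr rfl
  intro r _
  simp [scl_neg_neg]

theorem mir_add (m m' : MQ) : mir (m + m') = mir m + mir m' := Multiset.map_add _ _ _

theorem card_mir (m : MQ) : (mir m).card = m.card := Multiset.card_map _ _

theorem allows_mir {ι : Type} [Fintype ι] [DecidableEq ι] {Z : Matrix ι ι Bool} {m : MQ}
    (h : Allows Z m) : Allows Z (mir m) := allows_scale (-1) (by norm_num) h

theorem cz_mir (k : ℕ) : ∀ m : MQ, CZ k m → CZ k (mir m) := by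
  induction k with
  | zero =>
    intro m hm
    have : m = 0 := hm
    subst this
    show mir 0 = 0
    simp [mir]
  | succ k ih =>
    rintro m ⟨x, y, hx, hy, rfl⟩
    exact ⟨mir x, mir y, allows_mir hx, ih y hy, mir_add x y⟩

theorem mem_mir {m : MQ} {r : ℝ × ℝ} (h : r ∈ mir m) : scl (-1) r ∈ m := by
  unfold mir at h
  obtain ⟨s, hs, rfl⟩ := Multiset.mem_map.1 h
  rwa [scl_neg_neg]

theorem Z_L (X : MQ) (hX : X.card = 3) (hL : ∀ r ∈ X, Left r) : Allows Z6 X := by
  obtain ⟨a, b, c, rfl⟩ := Multiset.card_eq_three.1 hX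
  exact allowsZ_left a b c (hL a (by simp)) (hL b (by simp)) (hL c (by simp))

theorem Z_R (X : MQ) (hX : X.card = 3) (hR : ∀ r ∈ X, Right r) : Allows Z6 X := by
  have h := Z_L (mir X) (by rw [card_mir]; exact hX) (by
    intro r hr
    have := hR _ (mem_mir hr)
    simpa [Right, Left, scl] using this)
  have := allows_mir h
  rwa [mir_mir] at this

theorem Z_Z (X : MQ) (hX : X.card = 3) (hZ : ∀ r ∈ X, IsZ r) : Allows Z6 X := by
  obtain ⟨a, b, c, rfl⟩ := Multiset.card_eq_three.1 hX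
  have ha : a = (0, 0) := hZ a (by simp)
  have hb : b = (0, 0) := hZ b (by simp)
  have hc : c = (0, 0) := hZ c (by simp)
  rw [ha, hb, hc]
  exact allowsZ_zero

theorem Z_mix (s : ℝ × ℝ) (hs1 : 0 < s.1) (hs2 : s.2 = 0) (X : MQ) (hX : X.card = 2)
    (hL : ∀ r ∈ X, Left r) : Allows Z6 ({s} + X) := by
  obtain ⟨a, b, rfl⟩ := Multiset.card_eq_two.1 hX
  have : s = (s.1, 0) := Prod.ext rfl hs2
  rw [this]
  exact allowsZ_mix s.1 hs1 a b (hL a (by simp)) (hL b (by simp))

/-- Covering by copies of the block of order six. -/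
theorem cz_cover (k : ℕ) : ∀ A B C : MQ, (∀ r ∈ A, Left r) → (∀ r ∈ B, Right r) →
    (∀ r ∈ C, IsZ r) → 3 ∣ A.card → 3 ∣ B.card → A.card + B.card + C.card = 3 * k →
    CZ k (A + B + C) := by
  induction k with
  | zero =>
    intro A B C _ _ _ _ _ h
    have hA : A = 0 := Multiset.card_eq_zero.1 (by omega)
    have hB : B = 0 := Multiset.card_eq_zero.1 (by omega)
    have hC : C = 0 := Multiset.card_eq_zero.1 (by omega)
    show A + B + C = 0
    rw [hA, hB, hC]
    rfl
  | succ k ih =>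
    intro A B C hA hB hC dA dB h
    rcases Nat.lt_or_ge A.card 3 with h1 | h1
    · have hA0 : A.card = 0 := by omega
      rcases Nat.lt_or_ge B.card 3 with h2 | h2
      · have hB0 : B.card = 0 := by omega
        obtain ⟨X, Y, rfl, hX⟩ := split 3 C (by omega)
        rw [Multiset.card_add] at h
        refine ⟨X, A + B + Y, Z_Z X hX (fun r hr => hC r (Multiset.mem_add.2 (Or.inl hr))), ?_,
          by abel⟩
        exact ih A B Y hA hB (fun r hr => hC r (Multiset.mem_add.2 (Or.inr hr))) dA dB (by omega)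
      · obtain ⟨X, Y, rfl, hX⟩ := split 3 B h2
        rw [Multiset.card_add] at h dB
        refine ⟨X, A + Y + C, Z_R X hX (fun r hr => hB r (Multiset.mem_add.2 (Or.inl hr))), ?_,
          by abel⟩
        exact ih A Y C hA (fun r hr => hB r (Multiset.mem_add.2 (Or.inr hr))) hC dA (by omega)
          (by omega)
    · obtain ⟨X, Y, rfl, hX⟩ := split 3 A h1
      rw [Multiset.card_add] at h dA
      refine ⟨X, Y + B + C, Z_L X hX (fun r hr => hA r (Multiset.mem_add.2 (Or.inl hr))), ?_,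
        by abel⟩
      exact ih Y B C (fun r hr => hA r (Multiset.mem_add.2 (Or.inr hr))) hB hC (by omega) dB
        (by omega)

end Pool.Agent.Helper778.Sap
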