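import Pool.Agent.Helper778.SapBase

set_option autoImplicit false
set_option maxHeartbeats 4000000

namespace Pool.Agent.Helper778.Sap

open Polynomial Matrix Pool.Agent.Helper778.Real

theorem three_prod (r1 r2 r3 : ℝ × ℝ) :
    ((({r1, r2, r3} : Multiset (ℝ × ℝ)).map quad).prod) = quad r1 * quad r2 * quad r3 := by
  simp [mul_assoc]

theorem allowsZ_left (r1 r2 r3 : ℝ × ℝ) (h1 : Left r1) (h2 : Left r2) (h3 : Left r3) :
    Allows Z6 {r1, r2, r3} := by
  obtain ⟨M, hM, hc⟩ := block_left r1 r2 r3 h1 h2 h3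
  exact ⟨M, hM, by rw [hc, three_prod]⟩

theorem allowsZ_zero : Allows Z6 {(0, 0), (0, 0), (0, 0)} := by
  obtain ⟨M, hM, hc⟩ := block_zero
  refine ⟨M, hM, ?_⟩
  rw [hc, three_prod]
  simp only [quad, map_zero]
  ring

/-- Solving the coefficient equations when the polynomial has a simple root at zero. -/
theorem solve_zero (f1 f2 f3 f4 f5 : ℝ) (h1 : 0 ≤ f1) (h2 : 0 < f2) (h4 : 0 < f4)
    (h5 : 0 < f5) (h13 : f3 ≤ f1 * f2) :
    ∃ a b u z w t : ℝ, a ≠ 0 ∧ b ≠ 0 ∧ u ≠ 0 ∧ z ≠ 0 ∧ w ≠ 0 ∧ t ≠ 0 ∧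
      -(a + b) = f1 ∧ a * b - u = f2 ∧ a * u - z = f3 ∧ b * z - w = f4 ∧ b * w - t = f5 ∧
      u * w + b * t = 0 := by
  let W : ℝ → ℝ := fun b => b * ((b + f1) * (b ^ 2 + f1 * b + f2) - f3) - f4
  let Q : ℝ → ℝ := fun b => W b * (f1 * b + f2) + f5 * b
  have hQc : ContinuousOn Q (Set.Icc 0 (1 + f4)) := by
    apply Continuous.continuousOn
    simp only [Q, W]
    fun_prop
  have hzpos : ∀ b : ℝ, 0 ≤ b → b ^ 3 ≤ (b + f1) * (b ^ 2 + f1 * b + f2) - f3 := by
    intro b hb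
    have e1 : 0 ≤ f1 * b ^ 2 := by positivity
    have e2 : 0 ≤ f1 ^ 2 * b := by positivity
    have e3 : 0 ≤ f2 * b := by positivity
    nlinarith
  have hQ0 : Q 0 < 0 := by
    simp only [Q, W]
    nlinarith
  have hQ1 : 0 < Q (1 + f4) := by
    have hb : (0 : ℝ) ≤ 1 + f4 := by linarith
    have hz := hzpos (1 + f4) hb
    have hW : 0 ≤ W (1 + f4) := by
      simp only [W]
      have e1 : (1 + f4) * (1 + f4) ^ 3 ≤ (1 + f4) * ((1 + f4 + f1) *
          ((1 + f4) ^ 2 + f1 * (1 + f4) + f2) - f3) := mul_le_mul_of_nonneg_left hz hb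
      have e2 : 1 + f4 ≤ (1 + f4) * (1 + f4) ^ 3 := by
        have : (1 : ℝ) ≤ (1 + f4) ^ 3 := one_le_pow₀ (by linarith)
        nlinarith
      linarith
    have e3 : 0 ≤ W (1 + f4) * (f1 * (1 + f4) + f2) := mul_nonneg hW (by positivity)
    have e4 : 0 < f5 * (1 + f4) := by positivity
    simp only [Q]
    linarith
  obtain ⟨b, hb, hQb⟩ := intermediate_value_Icc (by linarith : (0 : ℝ) ≤ 1 + f4) hQc
    (show (0 : ℝ) ∈ Set.Icc (Q 0) (Q (1 + f4)) from ⟨hQ0.le, hQ1.le⟩)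
  have hb0 : 0 < b := by
    rcases hb.1.lt_or_eq with h | h
    · exact h
    · rw [← h] at hQb
      exact absurd hQb hQ0.ne
  have hz := hzpos b hb0.le
  have hz0 : 0 < (b + f1) * (b ^ 2 + f1 * b + f2) - f3 := lt_of_lt_of_le (by positivity) hz
  have hfb : 0 < f1 * b + f2 := by positivity
  have hWb : W b < 0 := by
    have e1 : W b * (f1 * b + f2) = -(f5 * b) := by
      simp only [Q] at hQb
      linarith
    have e2 : W b * (f1 * b + f2) < 0 := by
      rw [e1]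
      have : 0 < f5 * b := by positivity
      linarith
    by_contra hcon
    push Not at hcon
    exact absurd e2 (not_lt.2 (mul_nonneg hcon hfb.le))
  refine ⟨-(b + f1), b, -(b ^ 2 + f1 * b + f2), (b + f1) * (b ^ 2 + f1 * b + f2) - f3, W b,
    b * W b - f5, ?_, hb0.ne', ?_, hz0.ne', hWb.ne, ?_, ?_, ?_, ?_, ?_, ?_, ?_⟩
  · exact (neg_neg_of_pos (by positivity)).ne
  · exact (neg_neg_of_pos (by positivity)).ne
  · have : b * W b < 0 := mul_neg_of_pos_of_neg hb0 hWb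
    linarith
  · ring
  · ring
  · ring
  · simp only [W]; ring
  · ring
  · simp only [Q] at hQb
    linear_combination -hQb

/-- A simple zero root, one more negative root, and two quadratics with nonzero roots in the
closed left half plane. -/
theorem allowsZ_mix (α : ℝ) (hα : 0 < α) (s q : ℝ × ℝ) (hs : Left s) (hq : Left q) :
    Allows Z6 {(α, 0), s, q} := by
  obtain ⟨s1, s2⟩ := s
  obtain ⟨q1, q2⟩ := q
  obtain ⟨hs1, hs2⟩ := hs
  obtain ⟨hq1, hq2⟩ := hq
  simp only at hs1 hs2 hq1 hq2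
  obtain ⟨a, b, u, z, w, t, ha, hb, hu, hz, hw, ht, e1, e2, e3, e4, e5, e6⟩ :=
    solve_zero (α + s1 + q1) (s2 + q2 + α * s1 + α * q1 + s1 * q1)
      (α * s1 * q1 + α * (s2 + q2) + s1 * q2 + q1 * s2) (s2 * q2 + α * s1 * q2 + α * q1 * s2)
      (α * s2 * q2) (by positivity) (by positivity) (by positivity) (by positivity)
      (by
        rw [← sub_nonneg]
        ring_nf
        positivity)
  refine ⟨M6 a b u z w t, M6_pattern a b u z w t ha hb hu hz hw ht, ?_⟩
  rw [M6_charpoly, e1, e2, e3, e4, e5, e6, three_prod]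
  simp only [quad, map_add, map_mul, map_zero]
  ring

end Pool.Agent.Helper778.Sap
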